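import Mathlib

section

set_option autoImplicit false

/-!
# Truncations on `ℓ^p(ι)`
-/

open scoped ENNReal

namespace Pool.Agent.Lib.MP_5d4768_an

/-- The complex space `ℓ^p(ι)`. -/
noncomputable abbrev Ell (ι : Type*) (p : ℝ≥0∞) : Type _ := lp (fun _ : ι => ℂ) p

section

variable {ι : Type*} {p : ℝ≥0∞}

open Classical in
/-- Truncation of a vector of `ℓ^p(ι)` to a finite set of coordinates. -/
noncomputable def trunc (J : Finset ι) : Ell ι p →ₗ[ℂ] Ell ι p where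
  toFun f := ∑ i ∈ J, lp.single p i (f i)
  map_add' f g := by
    rw [← Finset.sum_add_distrib]
    refine Finset.sum_congr rfl fun i _ => ?_
    rw [← lp.single_add]
    rfl
  map_smul' c f := by
    rw [RingHom.id_apply, Finset.smul_sum]
    refine Finset.sum_congr rfl fun i _ => ?_
    rw [← lp.single_smul]
    rfl

open Classical in
lemma trunc_def (J : Finset ι) (f : Ell ι p) : trunc J f = ∑ i ∈ J, lp.single p i (f i) := rfl

lemma norm_trunc_rpow (hp : 0 < p.toReal) (J : Finset ι) (f : Ell ι p) :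
    ‖trunc J f‖ ^ p.toReal = ∑ i ∈ J, ‖f i‖ ^ p.toReal := by
  classical
  rw [trunc_def]
  exact lp.norm_sum_single hp (fun i => f i) J

lemma norm_sub_trunc_rpow (hp : 0 < p.toReal) (J : Finset ι) (f : Ell ι p) :
    ‖f - trunc J f‖ ^ p.toReal = ‖f‖ ^ p.toReal - ∑ i ∈ J, ‖f i‖ ^ p.toReal := by
  classical
  rw [trunc_def]
  exact lp.norm_compl_sum_single hp f J

lemma norm_rpow_eq (hp : 0 < p.toReal) (J : Finset ι) (f : Ell ι p) :
    ‖f‖ ^ p.toReal = ‖trunc J f‖ ^ p.toReal + ‖f - trunc J f‖ ^ p.toReal := by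
  rw [norm_trunc_rpow hp, norm_sub_trunc_rpow hp]; ring

lemma norm_trunc_le (hp : 0 < p.toReal) (J : Finset ι) (f : Ell ι p) : ‖trunc J f‖ ≤ ‖f‖ := by
  have h := norm_rpow_eq hp J f
  have h1 : ‖trunc J f‖ ^ p.toReal ≤ ‖f‖ ^ p.toReal := by
    have : 0 ≤ ‖f - trunc J f‖ ^ p.toReal := Real.rpow_nonneg (lp.norm_nonneg' _) _
    linarith
  exact (Real.rpow_le_rpow_iff (lp.norm_nonneg' _) (lp.norm_nonneg' _) hp).mp h1

lemma norm_sub_trunc_le (hp : 0 < p.toReal) (J : Finset ι) (f : Ell ι p) :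
    ‖f - trunc J f‖ ≤ ‖f‖ := by
  have h := norm_rpow_eq hp J f
  have h1 : ‖f - trunc J f‖ ^ p.toReal ≤ ‖f‖ ^ p.toReal := by
    have : 0 ≤ ‖trunc J f‖ ^ p.toReal := Real.rpow_nonneg (lp.norm_nonneg' _) _
    linarith
  exact (Real.rpow_le_rpow_iff (lp.norm_nonneg' _) (lp.norm_nonneg' _) hp).mp h1

lemma norm_sub_trunc_anti (hp : 0 < p.toReal) {J J' : Finset ι} (hJ : J ⊆ J') (f : Ell ι p) :
    ‖f - trunc J' f‖ ≤ ‖f - trunc J f‖ := by
  refine (Real.rpow_le_rpow_iff (lp.norm_nonneg' _) (lp.norm_nonneg' _) hp).mp ?_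
  rw [norm_sub_trunc_rpow hp, norm_sub_trunc_rpow hp]
  have := Finset.sum_le_sum_of_subset_of_nonneg hJ
    (f := fun i => ‖f i‖ ^ p.toReal) (fun i _ _ => Real.rpow_nonneg (norm_nonneg _) _)
  linarith

lemma norm_trunc_le_sum [Fact (1 ≤ p)] (J : Finset ι) (f : Ell ι p) :
    ‖trunc J f‖ ≤ ∑ i ∈ J, ‖f i‖ := by
  classical
  rw [trunc_def]
  refine (norm_sum_le _ _).trans (Finset.sum_le_sum fun i _ => ?_)
  rw [lp.norm_single (zero_lt_one.trans_le Fact.out)]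

lemma exists_trunc [Fact (1 ≤ p)] (hp : p ≠ ∞) (f : Ell ι p) {ε : ℝ} (hε : 0 < ε) :
    ∃ J : Finset ι, ∀ J' : Finset ι, J ⊆ J' → ‖f - trunc J' f‖ < ε := by
  classical
  have h := lp.hasSum_single hp f
  have h2 := (Metric.tendsto_atTop.mp h) ε hε
  obtain ⟨J, hJ⟩ := h2
  refine ⟨J, fun J' hJ' => ?_⟩
  have := hJ J' hJ'
  rw [dist_comm, dist_eq_norm] at this
  exact this

lemma sum_norm_trunc_rpow_le (hp : 0 < p.toReal) {κ : Type*} (K : Finset κ) (I : κ → Finset ι)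
    (hI : (K : Set κ).PairwiseDisjoint I) (f : Ell ι p) :
    ∑ k ∈ K, ‖trunc (I k) f‖ ^ p.toReal ≤ ‖f‖ ^ p.toReal := by
  classical
  simp only [norm_trunc_rpow hp]
  rw [← Finset.sum_biUnion hI]
  have h := norm_sub_trunc_rpow hp (K.biUnion I) f
  have : 0 ≤ ‖f - trunc (K.biUnion I) f‖ ^ p.toReal := Real.rpow_nonneg (lp.norm_nonneg' _) _
  linarith

lemma norm_apply_le [Fact (1 ≤ p)] (f : Ell ι p) (i : ι) : ‖f i‖ ≤ ‖f‖ :=
  lp.norm_apply_le_norm (zero_lt_one.trans_le (Fact.out (p := 1 ≤ p))).ne' f i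

open Classical in
lemma trunc_apply (J : Finset ι) (f : Ell ι p) (i : ι) :
    trunc J f i = if i ∈ J then f i else 0 := by
  rw [trunc_def, lp.coeFn_sum, Finset.sum_apply]
  simp only [lp.coeFn_single, Finset.sum_pi_single]

open Classical in
lemma trunc_sub_trunc {J J' : Finset ι} (hJ : J ⊆ J') (f : Ell ι p) :
    trunc J' f - trunc J f = trunc (J' \ J) f := by
  ext i
  rw [lp.coeFn_sub, Pi.sub_apply, trunc_apply, trunc_apply, trunc_apply]
  by_cases h1 : i ∈ J <;> by_cases h2 : i ∈ J' <;> simp [h1, h2]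
  exact absurd (hJ h1) h2

end

end Pool.Agent.Lib.MP_5d4768_an
end

section

set_option autoImplicit false

/-!
# Bounded maps `C(X) → ℓ^s`, `1 ≤ s < 2`, have uniformly small tails

The proof uses Riesz products `∏ (1 + i ε_k f_k / √K)`.
-/

open scoped ENNReal

namespace Pool.Agent.Lib.MP_5d4768_an

section Algebra

variable {A : Type*} [CommRing A] [Algebra ℂ A]

/-- The Riesz product. -/
noncomputable def riesz {K : ℕ} (c : ℂ) (f : Fin K → A) (e : Fin K → ℂ) : A :=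
  ∏ l, (1 + (c * e l) • f l)

lemma riesz_avg {K : ℕ} (c : ℂ) (f : Fin K → A) (k : Fin K) :
    ∑ e ∈ Fintype.piFinset (fun _ : Fin K => ({1, -1} : Finset ℂ)), e k • riesz c f e =
      ((2 : ℂ) ^ K * c) • f k := by
  classical
  have h1 : ∀ e : Fin K → ℂ, e k • riesz c f e =
      ∏ l, ((if l = k then e l else 1) • (1 + (c * e l) • f l)) := by
    intro e
    rw [Finset.prod_smul, Finset.prod_ite_eq' Finset.univ k (fun l => e l)]
    simp [riesz]
  simp only [h1]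
  have h2 := Finset.prod_univ_sum (fun _ : Fin K => ({1, -1} : Finset ℂ))
    (fun l (x : ℂ) => (if l = k then x else 1) • (1 + (c * x) • f l))
  rw [← h2]
  have h3 : ∀ l : Fin K, ∑ x ∈ ({1, -1} : Finset ℂ), (if l = k then x else (1 : ℂ)) •
      (1 + (c * x) • f l) = (2 : ℂ) • (if l = k then c • f l else 1) := by
    intro l
    have hne : (1 : ℂ) ≠ -1 := by norm_num
    rw [Finset.sum_pair hne]
    by_cases h : l = k
    · simp only [h, if_true]
      simp only [smul_add, smul_smul, mul_one, one_mul]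
      module
    · simp only [h, if_false]
      simp only [mul_one, mul_neg]
      module
  simp only [h3]
  rw [Finset.prod_smul]
  have h4 : ∏ l : Fin K, (if l = k then c • f l else 1) = c • f k := by
    rw [Finset.prod_ite_eq' Finset.univ k (fun l => c • f l)]
    simp
  rw [h4]
  simp [smul_smul]

end Algebra

section Norm

variable {X : Type*} [TopologicalSpace X] [CompactSpace X]

lemma norm_riesz_le {K : ℕ} (hK : 0 < K) (f : Fin K → C(X, ℂ)) (hf : ∀ l x, (f l x).im = 0)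
    (hf1 : ∀ l, ‖f l‖ ≤ 1) (e : Fin K → ℂ)
    (he : e ∈ Fintype.piFinset (fun _ : Fin K => ({1, -1} : Finset ℂ))) :
    ‖riesz (Complex.I * ((1 / √K : ℝ) : ℂ)) f e‖ ≤ 2 := by
  rw [ContinuousMap.norm_le _ (by norm_num)]
  intro x
  have hKpos : (0 : ℝ) < K := by exact_mod_cast hK
  have h1 : ∀ l, ‖(1 + ((Complex.I * ((1 / √K : ℝ) : ℂ)) * e l) • f l) x‖ ^ 2 ≤ 1 + 1 / K := by
    intro l
    have hel : e l = 1 ∨ e l = -1 := by
      have := Fintype.mem_piFinset.mp he l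
      simpa using this
    have hfx : f l x = ((f l x).re : ℂ) := by
      apply Complex.ext <;> simp [hf l x]
    have hle : |(f l x).re| ≤ 1 := by
      refine (Complex.abs_re_le_norm _).trans ?_
      exact (ContinuousMap.norm_coe_le_norm (f l) x).trans (hf1 l)
    have hsq : (f l x).re ^ 2 ≤ 1 := by
      rw [← sq_abs]; nlinarith [abs_nonneg ((f l x).re)]
    have hs : (1 / √K) ^ 2 = 1 / (K : ℝ) := by
      rw [div_pow, Real.sq_sqrt hKpos.le]; simp
    have key : (1 + ((Complex.I * ((1 / √K : ℝ) : ℂ)) * e l) • f l) x =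
        1 + Complex.I * (((1 / √K) * (e l).re * (f l x).re : ℝ) : ℂ) := by
      rw [ContinuousMap.add_apply, ContinuousMap.smul_apply, ContinuousMap.one_apply, hfx]
      rcases hel with h | h <;> rw [h] <;> simp <;> ring
    rw [key, ← Complex.normSq_eq_norm_sq, Complex.normSq_apply]
    have her : (e l).re ^ 2 = 1 := by
      rcases hel with h | h <;> rw [h] <;> simp
    simp only [Complex.add_re, Complex.one_re, Complex.mul_re, Complex.I_re, zero_mul,
      Complex.I_im, Complex.ofReal_im, mul_zero, sub_zero, add_zero, Complex.add_im,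
      Complex.one_im, Complex.mul_im, Complex.ofReal_re, one_mul, zero_add]
    have : 1 / √K * (e l).re * (f l x).re * (1 / √K * (e l).re * (f l x).re) =
        (1 / √K) ^ 2 * (e l).re ^ 2 * (f l x).re ^ 2 := by ring
    rw [this, hs, her]
    have h3 : 1 / (K : ℝ) * 1 * (f l x).re ^ 2 ≤ 1 / (K : ℝ) * 1 * 1 := by
      apply mul_le_mul_of_nonneg_left hsq; positivity
    linarith
  have h2 : ‖riesz (Complex.I * ((1 / √K : ℝ) : ℂ)) f e x‖ ^ 2 ≤ (1 + 1 / K) ^ K := by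
    rw [riesz, ContinuousMap.prod_apply, norm_prod, ← Finset.prod_pow]
    calc _ ≤ ∏ _l : Fin K, (1 + 1 / (K : ℝ)) :=
        Finset.prod_le_prod (fun l _ => by positivity) (fun l _ => h1 l)
      _ = (1 + 1 / K) ^ K := by simp
  have h3 : (1 + 1 / (K : ℝ)) ^ K ≤ Real.exp 1 := by
    have h4 : 1 + 1 / (K : ℝ) ≤ Real.exp (1 / K) := by
      rw [add_comm]; exact Real.add_one_le_exp _
    calc (1 + 1 / (K : ℝ)) ^ K ≤ (Real.exp (1 / K)) ^ K :=
        pow_le_pow_left₀ (by positivity) h4 K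
      _ = Real.exp 1 := by
        rw [← Real.exp_nat_mul]; congr 1; field_simp
  have h4 : Real.exp 1 ≤ 4 := by
    have := Real.exp_one_lt_d9; linarith
  have h5 : ‖riesz (Complex.I * ((1 / √K : ℝ) : ℂ)) f e x‖ ^ 2 ≤ 2 ^ 2 := by
    calc _ ≤ _ := h2
      _ ≤ _ := h3
      _ ≤ 4 := h4
      _ = 2 ^ 2 := by norm_num
  exact (pow_le_pow_iff_left₀ (norm_nonneg _) (by norm_num) (by norm_num)).mp h5

end Norm

section Tail

variable {X : Type*} [TopologicalSpace X] [CompactSpace X]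
variable {ι : Type*} {p : ℝ≥0∞} [Fact (1 ≤ p)]

/-- The key inequality: there are few disjoint blocks on which `T f_k` is large. -/
lemma blocks_bound (hp : p ≠ ∞) (T : C(X, ℂ) →ₗ[ℂ] Ell ι p) {M : ℝ} (hM : 0 ≤ M)
    (hT : ∀ f, ‖T f‖ ≤ M * ‖f‖) {η : ℝ} (hη : 0 < η) {K : ℕ} (hK : 0 < K)
    (f : Fin K → C(X, ℂ)) (hf : ∀ l x, (f l x).im = 0) (hf1 : ∀ l, ‖f l‖ ≤ 1)
    (I : Fin K → Finset ι) (hI : ((Finset.univ : Finset (Fin K)) : Set (Fin K)).PairwiseDisjoint I)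
    (h : ∀ k, η ≤ ‖trunc (I k) (T (f k))‖) :
    (K : ℝ) * η ^ p.toReal ≤ (√K) ^ p.toReal * (2 * M) ^ p.toReal := by
  have hp1 : 1 ≤ p.toReal := by
    have := (ENNReal.toReal_le_toReal (by simp) hp).mpr (Fact.out (p := 1 ≤ p))
    simpa using this
  have hp0 : 0 < p.toReal := by linarith
  have hKpos : (0 : ℝ) < K := by exact_mod_cast hK
  have hsK : (0 : ℝ) < √K := Real.sqrt_pos.mpr hKpos
  set c : ℂ := Complex.I * ((1 / √K : ℝ) : ℂ) with hc
  have hcn : ‖c‖ = 1 / √K := by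
    rw [hc, norm_mul, Complex.norm_I, one_mul, Complex.norm_real, Real.norm_of_nonneg]
    positivity
  set S := Fintype.piFinset (fun _ : Fin K => ({1, -1} : Finset ℂ)) with hS
  have hcard : (S.card : ℝ) = 2 ^ K := by
    rw [hS, Fintype.card_piFinset]
    have : ({1, -1} : Finset ℂ).card = 2 := Finset.card_pair (by norm_num)
    simp [this]
  have hSpos : (0 : ℝ) < S.card := by rw [hcard]; positivity
  have hav : ∀ k, ‖trunc (I k) (T (f k))‖ ≤
      √K * ∑ e ∈ S, (1 / (S.card : ℝ)) * ‖trunc (I k) (T (riesz c f e))‖ := by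
    intro k
    have h1 := riesz_avg c f k
    have h2 : ((2 : ℂ) ^ K * c) • trunc (I k) (T (f k)) =
        ∑ e ∈ S, e k • trunc (I k) (T (riesz c f e)) := by
      rw [← map_smul, ← map_smul, ← h1, map_sum, map_sum]
      refine Finset.sum_congr rfl fun e _ => ?_
      rw [map_smul, map_smul]
    have h3 : ‖((2 : ℂ) ^ K * c) • trunc (I k) (T (f k))‖ ≤
        ∑ e ∈ S, ‖trunc (I k) (T (riesz c f e))‖ := by
      rw [h2]
      refine (norm_sum_le _ _).trans (Finset.sum_le_sum fun e he => ?_)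
      rw [norm_smul]
      have hek : e k = 1 ∨ e k = -1 := by
        have := Fintype.mem_piFinset.mp he k
        simpa using this
      rcases hek with h | h <;> rw [h] <;> simp
    rw [norm_smul, norm_mul, hcn, norm_pow, Complex.norm_ofNat] at h3
    rw [← Finset.mul_sum, hcard]
    rw [← mul_assoc]
    have : 0 < √K * (1 / 2 ^ K) := by positivity
    calc ‖trunc (I k) (T (f k))‖ =
        (√K * (1 / 2 ^ K)) * (2 ^ K * (1 / √K) * ‖trunc (I k) (T (f k))‖) := by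
          field_simp
      _ ≤ (√K * (1 / 2 ^ K)) * ∑ e ∈ S, ‖trunc (I k) (T (riesz c f e))‖ :=
          mul_le_mul_of_nonneg_left h3 this.le
  have hpow : ∀ k, η ^ p.toReal ≤
      (√K) ^ p.toReal * ∑ e ∈ S, (1 / (S.card : ℝ)) * ‖trunc (I k) (T (riesz c f e))‖ ^ p.toReal := by
    intro k
    calc η ^ p.toReal ≤ ‖trunc (I k) (T (f k))‖ ^ p.toReal :=
          Real.rpow_le_rpow hη.le (h k) hp0.le
      _ ≤ (√K * ∑ e ∈ S, (1 / (S.card : ℝ)) * ‖trunc (I k) (T (riesz c f e))‖) ^ p.toReal :=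
          Real.rpow_le_rpow (norm_nonneg _) (hav k) hp0.le
      _ = (√K) ^ p.toReal *
          (∑ e ∈ S, (1 / (S.card : ℝ)) * ‖trunc (I k) (T (riesz c f e))‖) ^ p.toReal := by
          rw [Real.mul_rpow hsK.le]
          exact Finset.sum_nonneg fun e _ => by positivity
      _ ≤ _ := by
          gcongr
          refine Real.rpow_arith_mean_le_arith_mean_rpow S _ _ (fun e _ => by positivity) ?_
            (fun e _ => norm_nonneg _) hp1
          rw [Finset.sum_const, nsmul_eq_mul]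
          field_simp
  calc (K : ℝ) * η ^ p.toReal = ∑ _k : Fin K, η ^ p.toReal := by simp
    _ ≤ ∑ k : Fin K, (√K) ^ p.toReal *
          ∑ e ∈ S, (1 / (S.card : ℝ)) * ‖trunc (I k) (T (riesz c f e))‖ ^ p.toReal :=
        Finset.sum_le_sum fun k _ => hpow k
    _ = (√K) ^ p.toReal * ∑ e ∈ S, (1 / (S.card : ℝ)) *
          ∑ k : Fin K, ‖trunc (I k) (T (riesz c f e))‖ ^ p.toReal := by
        rw [← Finset.mul_sum, Finset.sum_comm]
        simp only [Finset.mul_sum]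
    _ ≤ (√K) ^ p.toReal * ∑ e ∈ S, (1 / (S.card : ℝ)) * (2 * M) ^ p.toReal := by
        gcongr with e he
        calc _ ≤ ‖T (riesz c f e)‖ ^ p.toReal := sum_norm_trunc_rpow_le hp0 Finset.univ I hI _
          _ ≤ (2 * M) ^ p.toReal := by
            refine Real.rpow_le_rpow (norm_nonneg _) ?_ hp0.le
            refine (hT _).trans ?_
            rw [mul_comm]
            exact mul_le_mul_of_nonneg_right (norm_riesz_le hK f hf hf1 e he) hM
    _ = (√K) ^ p.toReal * (2 * M) ^ p.toReal := by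
        rw [Finset.sum_const, nsmul_eq_mul]
        field_simp

lemma tail_small_real (hp : p < 2) (T : C(X, ℂ) →ₗ[ℂ] Ell ι p) {M : ℝ} (hM : 0 ≤ M)
    (hT : ∀ f, ‖T f‖ ≤ M * ‖f‖) {η : ℝ} (hη : 0 < η) :
    ∃ J : Finset ι, ∀ f : C(X, ℂ), (∀ x, (f x).im = 0) → ‖f‖ ≤ 1 →
      ‖T f - trunc J (T f)‖ ≤ η := by
  classical
  have hptop : p ≠ ∞ := (hp.trans (by simp)).ne
  have hp1 : 1 ≤ p.toReal := by
    have := (ENNReal.toReal_le_toReal (by simp) hptop).mpr (Fact.out (p := 1 ≤ p))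
    simpa using this
  have hp2 : p.toReal < 2 := by
    have := (ENNReal.toReal_lt_toReal hptop (by simp)).mpr hp
    simpa using this
  have hp0 : 0 < p.toReal := by linarith
  by_contra hcon
  push Not at hcon
  have step : ∀ J : Finset ι, ∃ (f : C(X, ℂ)) (J' : Finset ι), J ⊆ J' ∧ (∀ x, (f x).im = 0) ∧
      ‖f‖ ≤ 1 ∧ η ≤ ‖trunc (J' \ J) (T f)‖ := by
    intro J
    obtain ⟨f, hf, hf1, hf2⟩ := hcon J
    obtain ⟨J', hJ'⟩ := exists_trunc hptop (T f) (ε := ‖T f - trunc J (T f)‖ - η) (by linarith)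
    refine ⟨f, J ∪ J', Finset.subset_union_left, hf, hf1, ?_⟩
    have h1 := hJ' (J ∪ J') Finset.subset_union_right
    rw [← trunc_sub_trunc (J := J) (J' := J ∪ J') Finset.subset_union_left]
    have h2 : T f - trunc J (T f) = (T f - trunc (J ∪ J') (T f)) +
        (trunc (J ∪ J') (T f) - trunc J (T f)) := by abel
    have h3 := norm_add_le (T f - trunc (J ∪ J') (T f)) (trunc (J ∪ J') (T f) - trunc J (T f))
    rw [← h2] at h3
    linarith
  choose F N hN1 hN2 hN3 hN4 using step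
  let J : ℕ → Finset ι := fun n => Nat.rec ∅ (fun _ J => N J) n
  have hJs : ∀ n, J (n + 1) = N (J n) := fun n => rfl
  have hJmono : Monotone J := monotone_nat_of_le_succ fun n => by rw [hJs]; exact hN1 _
  have hbound : ∀ K : ℕ, 0 < K → (K : ℝ) * η ^ p.toReal ≤ (√K) ^ p.toReal * (2 * M) ^ p.toReal := by
    intro K hK
    refine blocks_bound hptop T hM hT hη hK (fun k => F (J k)) (fun l x => hN2 _ x)
      (fun l => hN3 _) (fun k => J (k + 1) \ J k) ?_ (fun k => hN4 _)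
    intro a _ b _ hab
    have : ∀ a b : ℕ, a < b → Disjoint (J (a + 1) \ J a) (J (b + 1) \ J b) := by
      intro a b hab
      rw [Finset.disjoint_left]
      intro i hi hi'
      rw [Finset.mem_sdiff] at hi hi'
      exact hi'.2 (hJmono (Nat.succ_le_of_lt hab) hi.1)
    rcases lt_or_gt_of_ne (Fin.val_ne_of_ne hab) with h | h
    · exact this _ _ h
    · exact (this _ _ h).symm
  -- contradiction for large `K`
  have h1 : ∀ K : ℕ, 0 < K → (K : ℝ) ^ (1 - p.toReal / 2) ≤ (2 * M) ^ p.toReal / η ^ p.toReal := by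
    intro K hK
    have hKpos : (0 : ℝ) < K := by exact_mod_cast hK
    have h2 := hbound K hK
    rw [Real.sqrt_eq_rpow, ← Real.rpow_mul hKpos.le] at h2
    have h3 : (0 : ℝ) < η ^ p.toReal := Real.rpow_pos_of_pos hη _
    rw [le_div_iff₀ h3, Real.rpow_sub hKpos, Real.rpow_one]
    have h4 : (0 : ℝ) < (K : ℝ) ^ (p.toReal / 2) := Real.rpow_pos_of_pos hKpos _
    rw [div_mul_eq_mul_div, div_le_iff₀ h4]
    calc (K : ℝ) * η ^ p.toReal ≤ _ := h2
      _ = (2 * M) ^ p.toReal * (K : ℝ) ^ (p.toReal / 2) := by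
        rw [mul_comm]; congr 2; ring
  have h2 : Filter.Tendsto (fun K : ℕ => (K : ℝ) ^ (1 - p.toReal / 2)) Filter.atTop Filter.atTop :=
    (tendsto_rpow_atTop (by linarith)).comp tendsto_natCast_atTop_atTop
  obtain ⟨K, hK1, hK2⟩ := ((h2.eventually_gt_atTop ((2 * M) ^ p.toReal / η ^ p.toReal)).and
    (Filter.eventually_gt_atTop 0)).exists
  exact absurd (h1 K hK2) (not_le.mpr hK1)

/-- Bounded linear maps `C(X) → ℓ^p(ι)`, `1 ≤ p < 2`, have uniformly small tails on the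
unit ball. -/
theorem tail_small (hp : p < 2) (T : C(X, ℂ) →ₗ[ℂ] Ell ι p) {M : ℝ} (hM : 0 ≤ M)
    (hT : ∀ f, ‖T f‖ ≤ M * ‖f‖) {η : ℝ} (hη : 0 < η) :
    ∃ J : Finset ι, ∀ f : C(X, ℂ), ‖f‖ ≤ 1 → ‖T f - trunc J (T f)‖ ≤ η := by
  obtain ⟨J, hJ⟩ := tail_small_real hp T hM hT (half_pos hη)
  refine ⟨J, fun f hf => ?_⟩
  -- real and imaginary parts
  let fr : C(X, ℂ) := ⟨fun x => ((f x).re : ℂ), by fun_prop⟩
  let fi : C(X, ℂ) := ⟨fun x => ((f x).im : ℂ), by fun_prop⟩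
  have hdec : f = fr + Complex.I • fi := by
    ext x
    simp only [ContinuousMap.add_apply, ContinuousMap.smul_apply, ContinuousMap.coe_mk, fr, fi,
      smul_eq_mul]
    rw [mul_comm]
    exact (Complex.re_add_im (f x)).symm
  have hfr : ‖fr‖ ≤ 1 := by
    rw [ContinuousMap.norm_le _ zero_le_one]
    intro x
    change ‖((f x).re : ℂ)‖ ≤ 1
    rw [Complex.norm_real]
    exact (Complex.abs_re_le_norm _).trans ((ContinuousMap.norm_coe_le_norm f x).trans hf)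
  have hfi : ‖fi‖ ≤ 1 := by
    rw [ContinuousMap.norm_le _ zero_le_one]
    intro x
    change ‖((f x).im : ℂ)‖ ≤ 1
    rw [Complex.norm_real]
    exact (Complex.abs_im_le_norm _).trans ((ContinuousMap.norm_coe_le_norm f x).trans hf)
  have h1 := hJ fr (fun x => by simp [fr]) hfr
  have h2 := hJ fi (fun x => by simp [fi]) hfi
  have h3 : T f - trunc J (T f) = (T fr - trunc J (T fr)) +
      Complex.I • (T fi - trunc J (T fi)) := by
    rw [hdec, map_add, map_smul, map_add, map_smul, smul_sub]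
    abel
  rw [h3]
  refine (norm_add_le _ _).trans ?_
  rw [norm_smul, Complex.norm_I, one_mul]
  linarith

end Tail

end Pool.Agent.Lib.MP_5d4768_an
end

section

section

set_option autoImplicit false
set_option linter.unusedSectionVars false

/-!
# Type and cotype type inequalities and disjoint selection in `ℓ^s`
-/

open scoped ENNReal Topology
open Filter

namespace Pool.Agent.Lib.MP_5d4768_an

variable {ι : Type*} {p : ℝ≥0∞} [Fact (1 ≤ p)]

lemma toReal_ge_one (hp : p ≠ ∞) : 1 ≤ p.toReal := by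
  have h : (1 : ℝ≥0∞) ≤ p := Fact.out
  have := ENNReal.toReal_mono hp h
  simpa using this

lemma two_point_complex {s : ℝ} (hs0 : 0 < s) (hs2 : s ≤ 2) (a b : ℂ) :
    ‖a + b‖ ^ s + ‖a - b‖ ^ s ≤ 2 * (‖a‖ ^ s + ‖b‖ ^ s) := by
  -- concavity
  have hpar : ‖a + b‖ ^ 2 + ‖a - b‖ ^ 2 = 2 * (‖a‖ ^ 2 + ‖b‖ ^ 2) := by
    have := parallelogram_law_with_norm ℝ a b
    nlinarith
  set t : ℝ := s / 2 with ht
  have ht0 : 0 < t := by positivity
  have ht1 : t ≤ 1 := by rw [ht]; linarith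
  have hpow : ∀ x : ℝ, 0 ≤ x → x ^ s = (x ^ 2) ^ t := by
    intro x hx
    rw [← Real.rpow_natCast, ← Real.rpow_mul hx]
    congr 1
    rw [ht]; push_cast; ring
  rw [hpow _ (norm_nonneg _), hpow _ (norm_nonneg _), hpow _ (norm_nonneg _),
    hpow _ (norm_nonneg _)]
  have hA : (‖a + b‖ ^ 2 : ℝ) ∈ Set.Ici (0 : ℝ) := Set.mem_Ici.mpr (by positivity)
  have hB : (‖a - b‖ ^ 2 : ℝ) ∈ Set.Ici (0 : ℝ) := Set.mem_Ici.mpr (by positivity)
  have hh : (0 : ℝ) ≤ 1 / 2 := by norm_num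
  have hh1 : (1 / 2 : ℝ) + 1 / 2 = 1 := by norm_num
  have hconc := (Real.concaveOn_rpow ht0.le ht1).2 hA hB hh hh hh1
  simp only [smul_eq_mul] at hconc
  have h1 : 1 / 2 * ‖a + b‖ ^ 2 + 1 / 2 * ‖a - b‖ ^ 2 = ‖a‖ ^ 2 + ‖b‖ ^ 2 := by linarith
  rw [h1] at hconc
  have h2 : (‖a‖ ^ 2 + ‖b‖ ^ 2) ^ t ≤ (‖a‖ ^ 2) ^ t + (‖b‖ ^ 2) ^ t :=
    Real.rpow_add_le_add_rpow (by positivity) (by positivity) ht0.le ht1
  linarith

lemma two_point (hp : p ≤ 2) (a b : Ell ι p) :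
    ‖a + b‖ ^ p.toReal + ‖a - b‖ ^ p.toReal ≤ 2 * (‖a‖ ^ p.toReal + ‖b‖ ^ p.toReal) := by
  have hptop : p ≠ ∞ := (hp.trans_lt (by simp)).ne
  have hp0 : 0 < p.toReal := zero_lt_one.trans_le (toReal_ge_one hptop)
  have hp2 : p.toReal ≤ 2 := by
    have := ENNReal.toReal_mono (by simp) hp
    simpa using this
  rw [lp.norm_rpow_eq_tsum hp0, lp.norm_rpow_eq_tsum hp0, lp.norm_rpow_eq_tsum hp0,
    lp.norm_rpow_eq_tsum hp0]
  have s1 := (lp.hasSum_norm hp0 (a + b)).summable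
  have s2 := (lp.hasSum_norm hp0 (a - b)).summable
  have s3 := (lp.hasSum_norm hp0 a).summable
  have s4 := (lp.hasSum_norm hp0 b).summable
  rw [← s1.tsum_add s2, ← s3.tsum_add s4, ← tsum_mul_left]
  refine (s1.add s2).tsum_le_tsum (fun i => ?_) ((s3.add s4).mul_left 2)
  exact two_point_complex hp0 hp2 (a i) (b i)

lemma exists_sign_le (hp : p ≤ 2) (a b : Ell ι p) : ∃ θ : ℂ, (θ = 1 ∨ θ = -1) ∧
    ‖a + θ • b‖ ^ p.toReal ≤ ‖a‖ ^ p.toReal + ‖b‖ ^ p.toReal := by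
  have h := two_point hp a b
  by_cases h1 : ‖a + b‖ ^ p.toReal ≤ ‖a‖ ^ p.toReal + ‖b‖ ^ p.toReal
  · exact ⟨1, Or.inl rfl, by simpa using h1⟩
  · refine ⟨-1, Or.inr rfl, ?_⟩
    rw [neg_one_smul, ← sub_eq_add_neg]
    linarith

/-- In `ℓ^s`, `s ≤ 2`, there are signs with `‖∑ ε_n v_n‖^s ≤ ∑ ‖v_n‖^s`. -/
lemma exists_signs_le (hp : p ≤ 2) {κ : Type*} [DecidableEq κ] (S : Finset κ) (v : κ → Ell ι p) :
    ∃ θ : κ → ℂ, (∀ k, θ k = 1 ∨ θ k = -1) ∧
      ‖∑ k ∈ S, θ k • v k‖ ^ p.toReal ≤ ∑ k ∈ S, ‖v k‖ ^ p.toReal := by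
  have hptop : p ≠ ∞ := (hp.trans_lt (by simp)).ne
  have hp0 : 0 < p.toReal := zero_lt_one.trans_le (toReal_ge_one hptop)
  induction S using Finset.induction_on with
  | empty => exact ⟨fun _ => 1, fun _ => Or.inl rfl, by simp [Real.zero_rpow hp0.ne']⟩
  | insert k S hk ih =>
    obtain ⟨θ, h1, h2⟩ := ih
    obtain ⟨t, ht1, ht2⟩ := exists_sign_le hp (∑ k ∈ S, θ k • v k) (v k)
    refine ⟨Function.update θ k t, fun l => ?_, ?_⟩
    · by_cases hl : l = k
      · subst hl; simpa using ht1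
      · simpa [Function.update_of_ne hl] using h1 l
    · rw [Finset.sum_insert hk, Finset.sum_insert hk, Function.update_self]
      have h3 : ∑ x ∈ S, Function.update θ k t x • v x = ∑ x ∈ S, θ x • v x := by
        refine Finset.sum_congr rfl fun x hx => ?_
        rw [Function.update_of_ne (by rintro rfl; exact hk hx)]
      rw [h3, add_comm (t • v k)]
      linarith

/-- In `ℓ²` there are signs with `‖∑ ε_n v_n‖² ≥ ∑ ‖v_n‖²`. -/
lemma exists_signs_ge {κ : Type*} [DecidableEq κ] (S : Finset κ) (v : κ → Ell ι 2) :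
    ∃ θ : κ → ℂ, (∀ k, θ k = 1 ∨ θ k = -1) ∧
      ∑ k ∈ S, ‖v k‖ ^ 2 ≤ ‖∑ k ∈ S, θ k • v k‖ ^ 2 := by
  induction S using Finset.induction_on with
  | empty => exact ⟨fun _ => 1, fun _ => Or.inl rfl, by simp⟩
  | insert k S hk ih =>
    obtain ⟨θ, h1, h2⟩ := ih
    have hpar := parallelogram_law_with_norm ℂ (∑ k ∈ S, θ k • v k) (v k)
    have : ∃ t : ℂ, (t = 1 ∨ t = -1) ∧ ‖∑ k ∈ S, θ k • v k‖ ^ 2 + ‖v k‖ ^ 2 ≤
        ‖∑ k ∈ S, θ k • v k + t • v k‖ ^ 2 := by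
      by_cases h3 : ‖∑ k ∈ S, θ k • v k‖ ^ 2 + ‖v k‖ ^ 2 ≤ ‖∑ k ∈ S, θ k • v k + v k‖ ^ 2
      · exact ⟨1, Or.inl rfl, by simpa using h3⟩
      · refine ⟨-1, Or.inr rfl, ?_⟩
        rw [neg_one_smul, ← sub_eq_add_neg]
        nlinarith
    obtain ⟨t, ht1, ht2⟩ := this
    refine ⟨Function.update θ k t, fun l => ?_, ?_⟩
    · by_cases hl : l = k
      · subst hl; simpa using ht1
      · simpa [Function.update_of_ne hl] using h1 l
    · rw [Finset.sum_insert hk, Finset.sum_insert hk, Function.update_self]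
      have h3 : ∑ x ∈ S, Function.update θ k t x • v x = ∑ x ∈ S, θ x • v x := by
        refine Finset.sum_congr rfl fun x hx => ?_
        rw [Function.update_of_ne (by rintro rfl; exact hk hx)]
      rw [h3, add_comm (t • v k)]
      linarith

lemma tendsto_trunc (v : ℕ → Ell ι p)
    (hv : ∀ i, Tendsto (fun n => v n i) atTop (𝓝 0)) (J : Finset ι) :
    Tendsto (fun n => ‖trunc J (v n)‖) atTop (𝓝 0) := by
  refine squeeze_zero (fun _ => norm_nonneg _) (fun n => norm_trunc_le_sum J (v n)) ?_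
  have : Tendsto (fun n => ∑ i ∈ J, ‖v n i‖) atTop (𝓝 (∑ _i ∈ J, 0)) := by
    refine tendsto_finsetSum _ fun i _ => ?_
    simpa using (hv i).norm
  simpa using this

/-- A weak form of the Brezis–Lieb lemma. -/
lemma eventually_norm_add_ge (hp : p ≠ ∞) (v : ℕ → Ell ι p)
    (hv : ∀ i, Tendsto (fun n => v n i) atTop (𝓝 0)) {c : ℝ} (hc : 0 < c)
    (hvc : ∀ n, c ≤ ‖v n‖) (w : Ell ι p) :
    ∀ᶠ n in atTop, ‖w‖ ^ p.toReal + c ^ p.toReal / 2 ≤ ‖w + v n‖ ^ p.toReal := by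
  have hp0 : 0 < p.toReal := zero_lt_one.trans_le (toReal_ge_one hp)
  -- continuity
  have hcont : Tendsto (fun δ : ℝ => (max 0 (‖w‖ - 2 * δ)) ^ p.toReal +
      (max 0 (c - 2 * δ)) ^ p.toReal) (𝓝[>] 0) (𝓝 (‖w‖ ^ p.toReal + c ^ p.toReal)) := by
    have h1 : Continuous (fun δ : ℝ => (max 0 (‖w‖ - 2 * δ)) ^ p.toReal +
      (max 0 (c - 2 * δ)) ^ p.toReal) := by
      refine Continuous.add ?_ ?_
      · exact (by fun_prop : Continuous fun δ : ℝ => max 0 (‖w‖ - 2 * δ)).rpow_const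
          (fun _ => Or.inr hp0.le)
      · exact (by fun_prop : Continuous fun δ : ℝ => max 0 (c - 2 * δ)).rpow_const
          (fun _ => Or.inr hp0.le)
    have h2 := h1.tendsto 0
    simp only [mul_zero, sub_zero, max_eq_right (norm_nonneg w), max_eq_right hc.le] at h2
    exact h2.mono_left nhdsWithin_le_nhds
  have hlt : ‖w‖ ^ p.toReal + c ^ p.toReal / 2 < ‖w‖ ^ p.toReal + c ^ p.toReal := by
    have : 0 < c ^ p.toReal := Real.rpow_pos_of_pos hc _
    linarith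
  obtain ⟨δ, hδ1, hδ2⟩ := ((hcont.eventually (lt_mem_nhds hlt)).and self_mem_nhdsWithin).exists
  have hδ : 0 < δ := hδ2
  obtain ⟨J, hJ⟩ := exists_trunc hp w hδ
  have hJ' := hJ J subset_rfl
  have hev := (tendsto_trunc v hv J).eventually (gt_mem_nhds hδ)
  filter_upwards [hev] with n hn
  rw [norm_rpow_eq hp0 J (w + v n)]
  have h1 : max 0 (‖w‖ - 2 * δ) ≤ ‖trunc J (w + v n)‖ := by
    refine max_le (norm_nonneg _) ?_
    have h2 : ‖w‖ ≤ ‖w - trunc J w‖ + ‖trunc J w‖ := by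
      calc ‖w‖ = ‖(w - trunc J w) + trunc J w‖ := by rw [sub_add_cancel]
        _ ≤ _ := norm_add_le _ _
    have h3 : ‖trunc J w‖ ≤ ‖trunc J (w + v n)‖ + ‖trunc J (v n)‖ := by
      calc ‖trunc J w‖ = ‖trunc J (w + v n) - trunc J (v n)‖ := by
            rw [map_add, add_sub_cancel_right]
        _ ≤ _ := norm_sub_le _ _
    linarith
  have h2 : max 0 (c - 2 * δ) ≤ ‖(w + v n) - trunc J (w + v n)‖ := by
    refine max_le (norm_nonneg _) ?_
    have h3 : v n = ((w + v n) - trunc J (w + v n)) + (trunc J (v n) - (w - trunc J w)) := by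
      rw [map_add]; abel
    have h4 : ‖v n‖ ≤ ‖(w + v n) - trunc J (w + v n)‖ + (‖trunc J (v n)‖ + ‖w - trunc J w‖) := by
      calc ‖v n‖ = ‖((w + v n) - trunc J (w + v n)) + (trunc J (v n) - (w - trunc J w))‖ := by
            rw [← h3]
        _ ≤ _ := (norm_add_le _ _).trans (by gcongr; exact norm_sub_le _ _)
    have h5 := hvc n
    linarith
  have h3 := Real.rpow_le_rpow (le_max_left _ _) h1 hp0.le
  have h4 := Real.rpow_le_rpow (le_max_left _ _) h2 hp0.le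
  linarith

/-- Selection of an almost disjoint subset. -/
lemma exists_large_sum (hp : p ≠ ∞) (v : ℕ → Ell ι p)
    (hv : ∀ i, Tendsto (fun n => v n i) atTop (𝓝 0)) {c : ℝ} (hc : 0 < c)
    (hvc : ∀ n, c ≤ ‖v n‖) (K : ℕ) :
    ∃ S : Finset ℕ, S.card = K ∧ (K : ℝ) * (c ^ p.toReal / 2) ≤ ‖∑ n ∈ S, v n‖ ^ p.toReal := by
  have hp0 : 0 < p.toReal := zero_lt_one.trans_le (toReal_ge_one hp)
  induction K with
  | zero => exact ⟨∅, rfl, by simp [Real.zero_rpow hp0.ne']⟩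
  | succ K ih =>
    obtain ⟨S, hS1, hS2⟩ := ih
    have hev := eventually_norm_add_ge hp v hv hc hvc (∑ n ∈ S, v n)
    obtain ⟨m, hm⟩ : ∃ m, ∀ n ∈ S, n < m := by
      refine ⟨S.sup id + 1, fun n hn => ?_⟩
      exact Nat.lt_succ_of_le (Finset.le_sup (f := id) hn)
    obtain ⟨n, hn1, hn2⟩ := (hev.and (eventually_ge_atTop m)).exists
    have hnS : n ∉ S := fun h => absurd (hm n h) (not_lt.mpr hn2)
    refine ⟨insert n S, by rw [Finset.card_insert_of_notMem hnS, hS1], ?_⟩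
    rw [Finset.sum_insert hnS, add_comm (v n)]
    push_cast
    linarith

end Pool.Agent.Lib.MP_5d4768_an
end

section

set_option autoImplicit false
set_option linter.unusedSectionVars false

/-!
# Localisation of vectors in bounded representations of `C(X)` on subspaces of `ℓ^s`, `s < 2`
-/

open scoped ENNReal

namespace Pool.Agent.Lib.MP_5d4768_an

section Basic

variable {X : Type*} [TopologicalSpace X] [CompactSpace X]

/-- The inclusion of real valued functions into complex valued functions. -/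
noncomputable def rc : C(X, ℝ) →+* C(X, ℂ) where
  toFun f := ⟨fun x => (f x : ℂ), by fun_prop⟩
  map_one' := by ext x; simp
  map_mul' f g := by ext x; simp
  map_zero' := by ext x; simp
  map_add' f g := by ext x; simp

lemma rc_apply (f : C(X, ℝ)) (x : X) : rc f x = (f x : ℂ) := rfl

lemma rc_smul (a : ℝ) (f : C(X, ℝ)) : rc (a • f) = (a : ℂ) • rc f := by
  ext x; simp [rc_apply]

lemma norm_rc_le {f : C(X, ℝ)} {r : ℝ} (hr : 0 ≤ r) (h : ∀ x, |f x| ≤ r) : ‖rc f‖ ≤ r := by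
  rw [ContinuousMap.norm_le _ hr]
  intro x
  rw [rc_apply, Complex.norm_real]
  exact h x

/-- A phase: `ph z * z = ‖z‖`. -/
noncomputable def ph (z : ℂ) : ℂ := if z = 0 then 0 else (starRingEnd ℂ z) / ‖z‖

lemma ph_mul (z : ℂ) : ph z * z = ‖z‖ := by
  unfold ph
  split_ifs with h
  · simp [h]
  · have : (‖z‖ : ℂ) ≠ 0 := by simpa using h
    rw [div_mul_eq_mul_div, mul_comm, Complex.mul_conj, Complex.normSq_eq_norm_sq]
    push_cast
    field_simp

lemma norm_ph_le (z : ℂ) : ‖ph z‖ ≤ 1 := by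
  unfold ph
  split_ifs with h
  · simp
  · rw [norm_div, Complex.norm_real, norm_norm, RCLike.norm_conj, div_self (by simpa using h)]

end Basic

section Blocks

variable {X : Type*} [TopologicalSpace X] [CompactSpace X]
variable {ι : Type*} {p : ℝ≥0∞} [Fact (1 ≤ p)]

/-- There is a uniform bound on the number of pairwise disjoint functions of norm at most one
on which `T` has norm larger than `η`. -/
lemma few_blocks (hp : p < 2) (T : C(X, ℂ) →ₗ[ℂ] Ell ι p) {M : ℝ} (hM : 0 ≤ M)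
    (hT : ∀ f, ‖T f‖ ≤ M * ‖f‖) {η : ℝ} (hη : 0 < η) :
    ∃ L : ℕ, 0 < L ∧ ∀ e : Fin L → C(X, ℂ), (∀ l, ‖e l‖ ≤ 1) →
      (∀ k l, k ≠ l → ∀ x, e k x = 0 ∨ e l x = 0) → ∃ l, ‖T (e l)‖ ≤ η := by
  classical
  obtain ⟨J, hJ⟩ := tail_small hp T hM hT (half_pos hη)
  obtain ⟨L, hL⟩ := exists_nat_gt (J.card * M / (η / 2))
  rw [div_lt_iff₀ (half_pos hη)] at hL
  have hLpos : 0 < L := by
    by_contra h
    have : L = 0 := by omega
    rw [this] at hL
    have : (0 : ℝ) ≤ J.card * M := by positivity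
    simp at hL
    linarith
  refine ⟨L, hLpos, fun e he hdis => ?_⟩
  by_contra hcon
  push Not at hcon
  have h1 : ∀ l, η / 2 ≤ ∑ j ∈ J, ‖T (e l) j‖ := by
    intro l
    have h2 := hJ (e l) (he l)
    have h3 := norm_trunc_le_sum J (T (e l))
    have h4 : ‖T (e l)‖ ≤ ‖T (e l) - trunc J (T (e l))‖ + ‖trunc J (T (e l))‖ := by
      calc ‖T (e l)‖ = ‖(T (e l) - trunc J (T (e l))) + trunc J (T (e l))‖ := by
            rw [sub_add_cancel]
        _ ≤ _ := norm_add_le _ _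
    have h5 := hcon l
    linarith
  have h2 : ∀ j, ∑ l, ‖T (e l) j‖ ≤ M := by
    intro j
    let G : C(X, ℂ) := ∑ l, ph (T (e l) j) • e l
    have hG : ‖G‖ ≤ 1 := by
      rw [ContinuousMap.norm_le _ zero_le_one]
      intro x
      rw [ContinuousMap.coe_sum, Finset.sum_apply]
      by_cases hall : ∀ l, e l x = 0
      · rw [Finset.sum_eq_zero]
        · simp
        · intro l _
          simp [hall l]
      · push Not at hall
        obtain ⟨l0, hl0⟩ := hall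
        rw [Finset.sum_eq_single l0]
        · rw [ContinuousMap.smul_apply, norm_smul]
          have h8 : ‖e l0 x‖ ≤ 1 := (ContinuousMap.norm_coe_le_norm (e l0) x).trans (he l0)
          have h9 := mul_le_mul (norm_ph_le (T (e l0) j)) h8 (norm_nonneg _) zero_le_one
          rwa [one_mul] at h9
        · intro l _ hl
          rcases hdis l l0 hl x with h | h
          · simp [h]
          · exact absurd h hl0
        · intro h; exact absurd (Finset.mem_univ _) h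
    have h3 : (T G) j = ((∑ l, ‖T (e l) j‖ : ℝ) : ℂ) := by
      rw [map_sum, lp.coeFn_sum, Finset.sum_apply]
      push_cast
      refine Finset.sum_congr rfl fun l _ => ?_
      rw [map_smul, lp.coeFn_smul, Pi.smul_apply, smul_eq_mul, ph_mul]
    have h4 : ‖(T G) j‖ ≤ M := by
      calc ‖(T G) j‖ ≤ ‖T G‖ := norm_apply_le _ _
        _ ≤ M * ‖G‖ := hT G
        _ ≤ M * 1 := by gcongr
        _ = M := mul_one M
    rw [h3, Complex.norm_real, Real.norm_of_nonneg (Finset.sum_nonneg fun _ _ => norm_nonneg _)]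
      at h4
    exact h4
  have h3 : (L : ℝ) * (η / 2) ≤ J.card * M := by
    calc (L : ℝ) * (η / 2) = ∑ _l : Fin L, η / 2 := by simp
      _ ≤ ∑ l : Fin L, ∑ j ∈ J, ‖T (e l) j‖ := Finset.sum_le_sum fun l _ => h1 l
      _ = ∑ j ∈ J, ∑ l : Fin L, ‖T (e l) j‖ := Finset.sum_comm
      _ ≤ ∑ _j ∈ J, M := Finset.sum_le_sum fun j _ => h2 j
      _ = J.card * M := by simp
  linarith

end Blocks

section Annulus

variable {X : Type*} [MetricSpace X] [CompactSpace X]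
variable {ι : Type*} {p : ℝ≥0∞} [Fact (1 ≤ p)]

/-- In every ball there is an annulus on which `T` is small. -/
lemma exists_annulus (hp : p < 2) (T : C(X, ℂ) →ₗ[ℂ] Ell ι p) {M : ℝ} (hM : 0 ≤ M)
    (hT : ∀ f, ‖T f‖ ≤ M * ‖f‖) {η : ℝ} (hη : 0 < η) (x₀ : X) {R : ℝ} (hR : 0 < R) :
    ∃ a b : ℝ, R / 2 ≤ a ∧ a < b ∧ b ≤ R ∧ ∀ e : C(X, ℂ), ‖e‖ ≤ 1 →
      (∀ x, e x ≠ 0 → a < dist x x₀ ∧ dist x x₀ < b) → ‖T e‖ ≤ η := by
  obtain ⟨L, hL, hfew⟩ := few_blocks hp T hM hT hη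
  have hLpos : (0 : ℝ) < L := by exact_mod_cast hL
  by_contra hcon
  push Not at hcon
  set r : ℕ → ℝ := fun l => R / 2 + l * (R / (2 * L)) with hr
  have hstep : 0 < R / (2 * L) := by positivity
  have hmono : ∀ k l : ℕ, k ≤ l → r k ≤ r l := by
    intro k l hkl
    have : (k : ℝ) ≤ l := by exact_mod_cast hkl
    simp only [hr]
    gcongr
  have hex : ∀ l : Fin L, ∃ e : C(X, ℂ), ‖e‖ ≤ 1 ∧
      (∀ x, e x ≠ 0 → r l < dist x x₀ ∧ dist x x₀ < r (l + 1)) ∧ η < ‖T e‖ := by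
    intro l
    have hl : ((l : ℕ) : ℝ) + 1 ≤ L := by exact_mod_cast l.2
    have h1 : R / 2 ≤ r l := by
      simp only [hr]
      have : 0 ≤ ((l : ℕ) : ℝ) * (R / (2 * L)) := by positivity
      linarith
    have h2 : r l < r (l + 1) := by
      simp only [hr]; push_cast; nlinarith
    have h3 : r (l + 1) ≤ R := by
      simp only [hr]
      push_cast
      have : (((l : ℕ) : ℝ) + 1) * (R / (2 * L)) ≤ L * (R / (2 * L)) := by gcongr
      have h4 : L * (R / (2 * L)) = R / 2 := by field_simp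
      linarith
    exact hcon _ _ h1 h2 h3
  choose e he1 he2 he3 using hex
  obtain ⟨l, hl⟩ := hfew e he1 (by
    intro k l hkl x
    by_contra h
    push Not at h
    have h1 := he2 k x h.1
    have h2 := he2 l x h.2
    rcases lt_or_gt_of_ne (Fin.val_ne_of_ne hkl) with h3 | h3
    · have := hmono (k + 1) l h3
      linarith
    · have := hmono (l + 1) k h3
      linarith)
  exact absurd hl (not_le.mpr (he3 l))

/-- A cut-off function. -/
noncomputable def cut (x₀ : X) (a b : ℝ) : C(X, ℝ) where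
  toFun x := max 0 (min 1 ((b - dist x x₀) / (b - a)))
  continuous_toFun := by fun_prop

lemma cut_nonneg (x₀ : X) (a b : ℝ) (x : X) : 0 ≤ cut x₀ a b x := le_max_left _ _

lemma cut_le_one (x₀ : X) (a b : ℝ) (x : X) : cut x₀ a b x ≤ 1 :=
  max_le zero_le_one (min_le_left _ _)

lemma cut_eq_one {x₀ : X} {a b : ℝ} (hab : a < b) {x : X} (hx : dist x x₀ ≤ a) :
    cut x₀ a b x = 1 := by
  have h1 : 1 ≤ (b - dist x x₀) / (b - a) := by
    rw [le_div_iff₀ (by linarith)]; linarith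
  change max 0 (min 1 ((b - dist x x₀) / (b - a))) = 1
  rw [min_eq_left h1]; simp

lemma cut_eq_zero {x₀ : X} {a b : ℝ} (hab : a < b) {x : X} (hx : b ≤ dist x x₀) :
    cut x₀ a b x = 0 := by
  have h1 : (b - dist x x₀) / (b - a) ≤ 0 :=
    div_nonpos_of_nonpos_of_nonneg (by linarith) (by linarith)
  change max 0 (min 1 ((b - dist x x₀) / (b - a))) = 0
  rw [max_eq_left]
  exact (min_le_right _ _).trans h1

end Annulus

section Recursion

variable {X : Type*} [TopologicalSpace X] [CompactSpace X]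

/-- The function `F = θ₁ c₁ + (1 - c₁) (θ₂ c₂ + (1 - c₂) (⋯ + 1))`. -/
noncomputable def Rf : List (C(X, ℝ) × ℝ) → C(X, ℝ)
  | [] => 1
  | q :: t => q.2 • q.1 + (1 - q.1) * Rf t

/-- Accumulate `Φ` over the pieces `w c₁, w (1 - c₁) c₂, …`. -/
noncomputable def acc (Φ : C(X, ℝ) → ℝ) : C(X, ℝ) → List C(X, ℝ) → ℝ
  | _, [] => 0
  | w, c :: t => Φ (w * c) + acc Φ (w * (1 - c)) t

/-- The remaining weight `w (1 - c₁) (1 - c₂) ⋯`. -/
noncomputable def fw : C(X, ℝ) → List C(X, ℝ) → C(X, ℝ)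
  | w, [] => w
  | w, c :: t => fw (w * (1 - c)) t

lemma fw_apply_eq_zero (w : C(X, ℝ)) (cs : List C(X, ℝ)) (x : X)
    (h : w x = 0 ∨ ∃ c ∈ cs, c x = 1) : fw w cs x = 0 := by
  induction cs generalizing w with
  | nil =>
    rcases h with h | ⟨c, hc, -⟩
    · exact h
    · simp at hc
  | cons c t ih =>
    rw [fw]
    refine ih _ ?_
    rcases h with h | ⟨c', hc', h1⟩
    · left; simp [h]
    · rcases List.mem_cons.mp hc' with rfl | h2
      · left; simp [h1]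
      · right; exact ⟨c', h2, h1⟩

lemma abs_Rf_le (ℓ : List (C(X, ℝ) × ℝ))
    (h : ∀ q ∈ ℓ, (∀ x, 0 ≤ q.1 x ∧ q.1 x ≤ 1) ∧ (q.2 = 1 ∨ q.2 = -1)) (x : X) :
    |Rf ℓ x| ≤ 1 := by
  induction ℓ with
  | nil => simp [Rf]
  | cons q t ih =>
    have ih' := ih (fun q' hq' => h q' (List.mem_cons_of_mem _ hq'))
    obtain ⟨h1, h2⟩ := h q List.mem_cons_self
    obtain ⟨h3, h4⟩ := h1 x
    rw [Rf]
    simp only [ContinuousMap.add_apply, ContinuousMap.smul_apply, ContinuousMap.mul_apply,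
      ContinuousMap.sub_apply, ContinuousMap.one_apply, smul_eq_mul]
    rw [abs_le] at ih' ⊢
    obtain ⟨i1, i2⟩ := ih'
    constructor
    · rcases h2 with h2 | h2 <;> rw [h2] <;> nlinarith
    · rcases h2 with h2 | h2 <;> rw [h2] <;> nlinarith

variable {ι : Type*} {p : ℝ≥0∞} [Fact (1 ≤ p)]

/-- `F² = 1` up to functions supported in the annuli. -/
lemma norm_one_sub_sq_le (T : C(X, ℂ) →ₗ[ℂ] Ell ι p) {η : ℝ} (w : C(X, ℝ))
    (hw : ∀ x, 0 ≤ w x ∧ w x ≤ 1) (ℓ : List (C(X, ℝ) × ℝ))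
    (h : ∀ q ∈ ℓ, (∀ x, 0 ≤ q.1 x ∧ q.1 x ≤ 1) ∧ (q.2 = 1 ∨ q.2 = -1) ∧
      ∀ e : C(X, ℂ), ‖e‖ ≤ 1 → (∀ x, e x ≠ 0 → q.1 x ≠ 0 ∧ q.1 x ≠ 1) → ‖T e‖ ≤ η) :
    ‖T (rc (w * (1 - Rf ℓ ^ 2)))‖ ≤ ℓ.length * η := by
  induction ℓ generalizing w with
  | nil => simp [Rf]
  | cons q t ih =>
    obtain ⟨h1, h2, h3⟩ := h q List.mem_cons_self
    have hsub : ∀ q' ∈ t, (∀ x, 0 ≤ q'.1 x ∧ q'.1 x ≤ 1) ∧ (q'.2 = 1 ∨ q'.2 = -1) ∧
      ∀ e : C(X, ℂ), ‖e‖ ≤ 1 → (∀ x, e x ≠ 0 → q'.1 x ≠ 0 ∧ q'.1 x ≠ 1) → ‖T e‖ ≤ η :=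
      fun q' hq' => h q' (List.mem_cons_of_mem _ hq')
    have hw' : ∀ x, 0 ≤ (w * (1 - q.1)) x ∧ (w * (1 - q.1)) x ≤ 1 := by
      intro x
      obtain ⟨a1, a2⟩ := hw x
      obtain ⟨b1, b2⟩ := h1 x
      simp only [ContinuousMap.mul_apply, ContinuousMap.sub_apply, ContinuousMap.one_apply]
      constructor
      · exact mul_nonneg a1 (by linarith)
      · nlinarith
    have ih' := ih (w * (1 - q.1)) hw' hsub
    have hR := abs_Rf_le t (fun q' hq' => ⟨(hsub q' hq').1, (hsub q' hq').2.1⟩)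
    have hq2 : q.2 ^ 2 = 1 := by rcases h2 with h2 | h2 <;> rw [h2] <;> norm_num
    have hid : w * (1 - Rf (q :: t) ^ 2) = w * (1 - q.1) * (1 - Rf t ^ 2) +
        w * q.1 * (1 - q.1) * (Rf t - q.2 • 1) ^ 2 := by
      ext x
      rw [Rf]
      simp only [ContinuousMap.mul_apply, ContinuousMap.sub_apply, ContinuousMap.one_apply,
        ContinuousMap.add_apply, ContinuousMap.pow_apply, ContinuousMap.smul_apply, smul_eq_mul,
        mul_one]
      linear_combination (w x * (q.1 x) ^ 2 - w x * q.1 x * (1 - q.1 x) - w x * q.1 x +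
        w x * q.1 x * (1 - q.1 x) + w x * q.1 x - w x * (q.1 x)^2 - w x * (q.1 x) ) * hq2
    rw [hid, map_add, map_add]
    refine (norm_add_le _ _).trans ?_
    have h4 : ‖T (rc (w * q.1 * (1 - q.1) * (Rf t - q.2 • 1) ^ 2))‖ ≤ η := by
      refine h3 _ (norm_rc_le zero_le_one fun x => ?_) fun x hx => ?_
      · obtain ⟨a1, a2⟩ := hw x
        obtain ⟨b1, b2⟩ := h1 x
        have c1 := abs_le.mp (hR x)
        simp only [ContinuousMap.mul_apply, ContinuousMap.sub_apply, ContinuousMap.one_apply,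
          ContinuousMap.pow_apply, ContinuousMap.smul_apply, smul_eq_mul, mul_one]
        have d1 : (Rf t x - q.2) ^ 2 ≤ 4 := by
          rcases h2 with h2 | h2 <;> rw [h2] <;> nlinarith
        have d2 : q.1 x * (1 - q.1 x) ≤ 1 / 4 := by nlinarith [sq_nonneg (q.1 x - 1 / 2)]
        have d3 : 0 ≤ q.1 x * (1 - q.1 x) := mul_nonneg b1 (by linarith)
        have d4 : w x * q.1 x * (1 - q.1 x) * (Rf t x - q.2) ^ 2 =
            w x * ((q.1 x * (1 - q.1 x)) * (Rf t x - q.2) ^ 2) := by ring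
        have d5 : 0 ≤ (q.1 x * (1 - q.1 x)) * (Rf t x - q.2) ^ 2 := by positivity
        have d6 : (q.1 x * (1 - q.1 x)) * (Rf t x - q.2) ^ 2 ≤ 1 := by
          calc _ ≤ 1 / 4 * 4 := mul_le_mul d2 d1 (sq_nonneg _) (by norm_num)
            _ = 1 := by norm_num
        rw [d4, abs_of_nonneg (mul_nonneg a1 d5)]
        calc _ ≤ 1 * 1 := mul_le_mul a2 d6 d5 zero_le_one
          _ = 1 := by norm_num
      · constructor
        · intro h5
          apply hx
          rw [rc_apply]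
          simp [h5]
        · intro h5
          apply hx
          rw [rc_apply]
          simp [h5]
    rw [List.length_cons]
    push_cast
    linarith

section Greedy

variable (T : C(X, ℂ) →ₗ[ℂ] Ell ι p) (J : Finset ι)

/-- Parallelogram law for finitely many coordinates. -/
lemma exists_sign (a b : ι → ℂ) : ∃ θ : ℝ, (θ = 1 ∨ θ = -1) ∧
    ∑ j ∈ J, ‖a j + (θ : ℂ) * b j‖ ^ 2 ≤ ∑ j ∈ J, ‖a j‖ ^ 2 + ∑ j ∈ J, ‖b j‖ ^ 2 := by
  have key : ∑ j ∈ J, ‖a j + b j‖ ^ 2 + ∑ j ∈ J, ‖a j - b j‖ ^ 2 =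
      2 * (∑ j ∈ J, ‖a j‖ ^ 2 + ∑ j ∈ J, ‖b j‖ ^ 2) := by
    rw [← Finset.sum_add_distrib, ← Finset.sum_add_distrib, Finset.mul_sum]
    refine Finset.sum_congr rfl fun j _ => ?_
    have := parallelogram_law_with_norm ℝ (a j) (b j)
    nlinarith
  by_cases h : ∑ j ∈ J, ‖a j + b j‖ ^ 2 ≤ ∑ j ∈ J, ‖a j‖ ^ 2 + ∑ j ∈ J, ‖b j‖ ^ 2
  · exact ⟨1, Or.inl rfl, by simpa using h⟩
  · refine ⟨-1, Or.inr rfl, ?_⟩
    have h2 : ∑ j ∈ J, ‖a j + ((-1 : ℝ) : ℂ) * b j‖ ^ 2 = ∑ j ∈ J, ‖a j - b j‖ ^ 2 := by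
      refine Finset.sum_congr rfl fun j _ => ?_
      congr 2
      push_cast
      ring
    rw [h2]
    linarith

lemma exists_signs (cs : List C(X, ℝ)) (w : C(X, ℝ)) (a : ι → ℂ) (hw : fw w cs = 0) :
    ∃ ℓ : List (C(X, ℝ) × ℝ), ℓ.map Prod.fst = cs ∧ (∀ q ∈ ℓ, q.2 = 1 ∨ q.2 = -1) ∧
      ∑ j ∈ J, ‖a j + T (rc (w * Rf ℓ)) j‖ ^ 2 ≤
        ∑ j ∈ J, ‖a j‖ ^ 2 + acc (fun u => ∑ j ∈ J, ‖T (rc u) j‖ ^ 2) w cs := by
  induction cs generalizing w a with
  | nil =>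
    refine ⟨[], rfl, by simp, ?_⟩
    rw [fw] at hw
    simp [hw, acc]
  | cons c t ih =>
    obtain ⟨θ, hθ, h1⟩ := exists_sign J a (fun j => T (rc (w * c)) j)
    obtain ⟨ℓ, hℓ1, hℓ2, hℓ3⟩ := ih (w * (1 - c)) (fun j => a j + (θ : ℂ) * T (rc (w * c)) j) hw
    refine ⟨(c, θ) :: ℓ, by simp [hℓ1], ?_, ?_⟩
    · intro q hq
      rcases List.mem_cons.mp hq with rfl | hq
      · exact hθ
      · exact hℓ2 q hq
    · have h2 : w * Rf ((c, θ) :: ℓ) = θ • (w * c) + w * (1 - c) * Rf ℓ := by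
        ext x
        simp only [Rf, ContinuousMap.mul_apply, ContinuousMap.add_apply,
          ContinuousMap.smul_apply, smul_eq_mul, ContinuousMap.sub_apply,
          ContinuousMap.one_apply]
        ring
      have h3 : ∀ j, a j + T (rc (w * Rf ((c, θ) :: ℓ))) j =
          (a j + (θ : ℂ) * T (rc (w * c)) j) + T (rc (w * (1 - c) * Rf ℓ)) j := by
        intro j
        rw [h2, map_add, rc_smul, map_add, map_smul, lp.coeFn_add, Pi.add_apply, lp.coeFn_smul,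
          Pi.smul_apply, smul_eq_mul]
        ring
      simp only [h3]
      refine hℓ3.trans ?_
      rw [acc]
      linarith

lemma exists_phase (cs : List C(X, ℝ)) (hcs : ∀ c ∈ cs, ∀ x, 0 ≤ c x ∧ c x ≤ 1)
    (w : C(X, ℝ)) (hw : ∀ x, 0 ≤ w x) (j : ι) :
    ∃ G : C(X, ℂ), (∀ x, ‖G x‖ ≤ w x) ∧
      T G j = ((acc (fun u => ‖T (rc u) j‖) w cs : ℝ) : ℂ) := by
  induction cs generalizing w with
  | nil => exact ⟨0, by simpa using hw, by simp [acc]⟩
  | cons c t ih =>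
    have hc := hcs c List.mem_cons_self
    obtain ⟨G, hG1, hG2⟩ := ih (fun c' hc' => hcs c' (List.mem_cons_of_mem _ hc')) (w * (1 - c))
      (fun x => mul_nonneg (hw x) (by
        have := (hc x).2
        simp only [ContinuousMap.sub_apply, ContinuousMap.one_apply]; linarith))
    refine ⟨ph (T (rc (w * c)) j) • rc (w * c) + G, fun x => ?_, ?_⟩
    · rw [ContinuousMap.add_apply, ContinuousMap.smul_apply]
      refine (norm_add_le _ _).trans ?_
      rw [norm_smul, rc_apply, Complex.norm_real, Real.norm_eq_abs]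
      have h1 := hG1 x
      have h2 := norm_ph_le (T (rc (w * c)) j)
      have h3 : 0 ≤ (w * c) x := mul_nonneg (hw x) (hc x).1
      rw [abs_of_nonneg h3]
      have h4 := mul_le_mul_of_nonneg_right h2 h3
      simp only [ContinuousMap.mul_apply, ContinuousMap.sub_apply, ContinuousMap.one_apply] at *
      linarith
    · rw [map_add, map_smul, lp.coeFn_add, Pi.add_apply, lp.coeFn_smul, Pi.smul_apply,
        smul_eq_mul, hG2, ph_mul, acc]
      push_cast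
      rfl

lemma acc_le {M : ℝ} (hM : 0 ≤ M) (hT : ∀ f, ‖T f‖ ≤ M * ‖f‖) (cs : List C(X, ℝ))
    (hcs : ∀ c ∈ cs, ∀ x, 0 ≤ c x ∧ c x ≤ 1) (j : ι) :
    acc (fun u => ‖T (rc u) j‖) 1 cs ≤ M := by
  obtain ⟨G, hG1, hG2⟩ := exists_phase T cs hcs 1 (fun x => by simp) j
  have hG : ‖G‖ ≤ 1 := by
    rw [ContinuousMap.norm_le _ zero_le_one]
    intro x
    simpa using hG1 x
  have h1 : ‖T G j‖ ≤ M := by
    calc ‖(T G) j‖ ≤ ‖T G‖ := norm_apply_le _ _
      _ ≤ M * ‖G‖ := hT G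
      _ ≤ M * 1 := by gcongr
      _ = M := mul_one M
  rw [hG2, Complex.norm_real] at h1
  exact (le_abs_self _).trans h1

lemma acc_sq_le {δ : ℝ} (cs0 cs : List C(X, ℝ)) (hsub : ∀ c ∈ cs, c ∈ cs0)
    (hcs : ∀ c ∈ cs, ∀ x, 0 ≤ c x ∧ c x ≤ 1)
    (hδ : ∀ u : C(X, ℝ), (∀ x, 0 ≤ u x ∧ u x ≤ 1) → (∃ c ∈ cs0, ∀ x, c x = 0 → u x = 0) →
      ‖T (rc u)‖ ≤ δ)
    (w : C(X, ℝ)) (hw : ∀ x, 0 ≤ w x ∧ w x ≤ 1) :
    acc (fun u => ∑ j ∈ J, ‖T (rc u) j‖ ^ 2) w cs ≤
      δ * ∑ j ∈ J, acc (fun u => ‖T (rc u) j‖) w cs := by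
  induction cs generalizing w with
  | nil => simp [acc]
  | cons c t ih =>
    have hc := hcs c List.mem_cons_self
    have ih' := ih (fun c' hc' => hsub c' (List.mem_cons_of_mem _ hc'))
      (fun c' hc' => hcs c' (List.mem_cons_of_mem _ hc')) (w * (1 - c)) (fun x => by
        obtain ⟨a1, a2⟩ := hw x
        obtain ⟨b1, b2⟩ := hc x
        simp only [ContinuousMap.mul_apply, ContinuousMap.sub_apply, ContinuousMap.one_apply]
        constructor
        · exact mul_nonneg a1 (by linarith)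
        · nlinarith)
    have h1 : ‖T (rc (w * c))‖ ≤ δ := by
      refine hδ _ (fun x => ?_) ⟨c, hsub c List.mem_cons_self, fun x hx => by simp [hx]⟩
      obtain ⟨a1, a2⟩ := hw x
      obtain ⟨b1, b2⟩ := hc x
      simp only [ContinuousMap.mul_apply]
      constructor
      · positivity
      · nlinarith
    have h2 : ∑ j ∈ J, ‖T (rc (w * c)) j‖ ^ 2 ≤ δ * ∑ j ∈ J, ‖T (rc (w * c)) j‖ := by
      rw [Finset.mul_sum]
      refine Finset.sum_le_sum fun j _ => ?_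
      rw [sq]
      gcongr
      exact (norm_apply_le _ _).trans h1
    simp only [acc, Finset.sum_add_distrib, mul_add]
    exact add_le_add h2 ih'

end Greedy

end Recursion

section Localization

variable {X : Type*} [MetricSpace X] [CompactSpace X]
variable {ι : Type*} {p : ℝ≥0∞} [Fact (1 ≤ p)]

/-- **Localisation lemma.**  If `T f = Π(f) y` for a bounded multiplicative `Π`, then there is
`c > 0` such that at every scale `R` there is a function `D` living in a ball of radius `R`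
with `0 ≤ D ≤ 1` and `‖T D‖ ≥ c`. -/
theorem localization (hp : p < 2) (T : C(X, ℂ) →ₗ[ℂ] Ell ι p) {C M : ℝ} (hC : 0 < C)
    (hM : 0 ≤ M) (hT : ∀ f, ‖T f‖ ≤ M * ‖f‖)
    (hmul : ∀ f g, ‖f‖ ≤ 1 → ‖T (f * g)‖ ≤ C * ‖T g‖) (hy : T 1 ≠ 0) :
    ∃ c : ℝ, 0 < c ∧ ∀ R : ℝ, 0 < R → ∃ (x₀ : X) (D : C(X, ℝ)),
      (∀ x, 0 ≤ D x ∧ D x ≤ 1) ∧ (∀ x, R ≤ dist x x₀ → D x = 0) ∧ c ≤ ‖T (rc D)‖ := by
  classical
  have hypos : 0 < ‖T 1‖ := norm_pos_iff.mpr hy
  obtain ⟨J, hJ⟩ := tail_small hp T hM hT (η := ‖T 1‖ / (4 * C)) (by positivity)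
  set A : ℝ := (‖T 1‖ / (4 * C)) ^ 2 with hA
  have hApos : 0 < A := by positivity
  set n : ℝ := (J.card : ℝ) with hn
  have hn0 : 0 ≤ n := by positivity
  refine ⟨A / (2 * (n ^ 2 * M + 1)), by positivity, fun R hR => ?_⟩
  by_contra hcon
  push Not at hcon
  set δ : ℝ := A / (2 * (n ^ 2 * M + 1)) with hδ
  have hδpos : 0 < δ := by positivity
  -- a finite cover
  obtain ⟨F, -, hFfin, hcov⟩ := finite_cover_balls_of_compact (isCompact_univ (X := X)) (half_pos hR)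
  obtain ⟨F, rfl⟩ := hFfin.exists_finset_coe
  set L : ℝ := (F.card : ℝ) with hL
  set η : ℝ := ‖T 1‖ / (2 * (L + 1)) with hη
  have hηpos : 0 < η := by positivity
  choose a b hab1 hab2 hab3 hab4 using fun x₀ : X => exists_annulus hp T hM hT hηpos x₀ hR
  let cs : List C(X, ℝ) := F.toList.map fun x₀ => cut x₀ (a x₀) (b x₀)
  have hcs : ∀ c ∈ cs, ∀ x, 0 ≤ c x ∧ c x ≤ 1 := by
    intro c hc x
    obtain ⟨x₀, -, rfl⟩ := List.mem_map.mp hc
    exact ⟨cut_nonneg _ _ _ _, cut_le_one _ _ _ _⟩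
  have hfw : fw 1 cs = 0 := by
    ext x
    refine fw_apply_eq_zero 1 cs x (Or.inr ?_)
    have hx := hcov (Set.mem_univ x)
    simp only [Set.mem_iUnion, Finset.mem_coe, exists_prop] at hx
    obtain ⟨x₀, hx₀, hx1⟩ := hx
    refine ⟨_, List.mem_map.mpr ⟨x₀, Finset.mem_toList.mpr hx₀, rfl⟩, ?_⟩
    exact cut_eq_one (hab2 x₀) ((Metric.mem_ball.mp hx1).le.trans (hab1 x₀))
  obtain ⟨ℓ, hℓ1, hℓ2, hℓ3⟩ := exists_signs T J cs 1 0 hfw
  have hℓ4 : ∀ q ∈ ℓ, ∃ x₀ ∈ F, q.1 = cut x₀ (a x₀) (b x₀) := by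
    intro q hq
    have h1 : q.1 ∈ cs := by rw [← hℓ1]; exact List.mem_map_of_mem hq
    obtain ⟨x₀, h2, h3⟩ := List.mem_map.mp h1
    exact ⟨x₀, Finset.mem_toList.mp h2, h3.symm⟩
  have hℓlen : (ℓ.length : ℝ) = L := by
    have h1 : ℓ.length = cs.length := by rw [← hℓ1, List.length_map]
    rw [h1, List.length_map, Finset.length_toList]
  have hR1 : ∀ x, |Rf ℓ x| ≤ 1 := abs_Rf_le ℓ fun q hq => by
    obtain ⟨x₀, -, h⟩ := hℓ4 q hq
    exact ⟨fun x => by rw [h]; exact ⟨cut_nonneg _ _ _ _, cut_le_one _ _ _ _⟩, hℓ2 q hq⟩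
  have hsq := norm_one_sub_sq_le T (η := η) 1 (fun x => by simp) ℓ (fun q hq => by
    obtain ⟨x₀, -, h⟩ := hℓ4 q hq
    refine ⟨fun x => by rw [h]; exact ⟨cut_nonneg _ _ _ _, cut_le_one _ _ _ _⟩, hℓ2 q hq, ?_⟩
    intro e he1 he2
    refine hab4 x₀ e he1 fun x hx => ?_
    obtain ⟨h1, h2⟩ := he2 x hx
    rw [h] at h1 h2
    constructor
    · by_contra h3
      exact h2 (cut_eq_one (hab2 x₀) (not_lt.mp h3))
    · by_contra h3
      exact h1 (cut_eq_zero (hab2 x₀) (not_lt.mp h3)))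
  rw [one_mul, hℓlen] at hsq
  -- lower bound
  set y := T (rc (Rf ℓ)) with hydef
  have h1 : ‖T 1‖ ≤ C * ‖y‖ + L * η := by
    have h2 : (1 : C(X, ℂ)) = rc (Rf ℓ) * rc (Rf ℓ) + rc (1 - Rf ℓ ^ 2) := by
      rw [← map_mul, ← map_add, ← sq, add_sub_cancel, map_one]
    calc ‖T 1‖ = ‖T (rc (Rf ℓ) * rc (Rf ℓ)) + T (rc (1 - Rf ℓ ^ 2))‖ := by
          rw [← map_add, ← h2]
      _ ≤ ‖T (rc (Rf ℓ) * rc (Rf ℓ))‖ + ‖T (rc (1 - Rf ℓ ^ 2))‖ := norm_add_le _ _
      _ ≤ C * ‖y‖ + L * η := add_le_add (hmul _ _ (norm_rc_le zero_le_one hR1)) hsq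
  have hLη : L * η ≤ ‖T 1‖ / 2 := by
    rw [hη, mul_div_assoc', div_le_div_iff₀ (by positivity) (by norm_num)]
    have hL0 : 0 ≤ L := by positivity
    nlinarith
  have h2 : ‖T 1‖ / (2 * C) ≤ ‖y‖ := by
    rw [div_le_iff₀ (by positivity)]
    linarith
  have h3 : ‖T 1‖ / (4 * C) ≤ ‖trunc J y‖ := by
    have h4 := hJ (rc (Rf ℓ)) (norm_rc_le zero_le_one hR1)
    have h5 : ‖y‖ ≤ ‖y - trunc J y‖ + ‖trunc J y‖ := by
      calc ‖y‖ = ‖(y - trunc J y) + trunc J y‖ := by rw [sub_add_cancel]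
        _ ≤ _ := norm_add_le _ _
    have h6 : ‖T 1‖ / (2 * C) = ‖T 1‖ / (4 * C) + ‖T 1‖ / (4 * C) := by field_simp; ring
    linarith
  have h4 : A ≤ n * ∑ j ∈ J, ‖y j‖ ^ 2 := by
    calc A ≤ ‖trunc J y‖ ^ 2 := by
          rw [hA]; exact pow_le_pow_left₀ (by positivity) h3 2
      _ ≤ (∑ j ∈ J, ‖y j‖) ^ 2 := pow_le_pow_left₀ (norm_nonneg _) (norm_trunc_le_sum J y) 2
      _ ≤ n * ∑ j ∈ J, ‖y j‖ ^ 2 := sq_sum_le_card_mul_sum_sq
  have h5 : ∑ j ∈ J, ‖y j‖ ^ 2 ≤ δ * (n * M) := by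
    have h6 := acc_sq_le T J (δ := δ) cs cs (fun _ h => h) hcs (by
      intro u hu hc
      obtain ⟨c, hc, hcu⟩ := hc
      obtain ⟨x₀, -, rfl⟩ := List.mem_map.mp hc
      refine (hcon x₀ u hu fun x hx => hcu x ?_).le
      exact cut_eq_zero (hab2 x₀) ((hab3 x₀).trans hx)) 1 (fun x => by simp)
    have h7 : ∑ j ∈ J, acc (fun u => ‖T (rc u) j‖) 1 cs ≤ n * M := by
      calc _ ≤ ∑ _j ∈ J, M := Finset.sum_le_sum fun j _ => acc_le T hM hT cs hcs j
        _ = n * M := by simp [hn]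
    have h8 : ∑ j ∈ J, ‖y j‖ ^ 2 ≤ acc (fun u => ∑ j ∈ J, ‖T (rc u) j‖ ^ 2) 1 cs := by
      simpa [hydef] using hℓ3
    calc _ ≤ _ := h8
      _ ≤ _ := h6
      _ ≤ δ * (n * M) := by gcongr
  have h6 : A ≤ δ * (n ^ 2 * M) := by
    calc A ≤ n * ∑ j ∈ J, ‖y j‖ ^ 2 := h4
      _ ≤ n * (δ * (n * M)) := by gcongr
      _ = δ * (n ^ 2 * M) := by ring
  have h7 : δ * (n ^ 2 * M) ≤ A / 2 := by
    rw [hδ, div_mul_eq_mul_div, div_le_div_iff₀ (by positivity) (by norm_num)]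
    nlinarith
  linarith

end Localization

end Pool.Agent.Lib.MP_5d4768_an
end

section

set_option autoImplicit false
set_option linter.unusedSectionVars false

/-!
# The core theorem
-/

open scoped ENNReal Topology
open Filter

namespace Pool.Agent.Lib.MP_5d4768_an

section Defs

variable {X : Type*} [TopologicalSpace X]

/-- The translate `f ∘ h^{-n}`. -/
noncomputable def tr {𝕜 : Type*} [TopologicalSpace 𝕜] (h : X ≃ₜ X) (n : ℤ) (f : C(X, 𝕜)) :
    C(X, 𝕜) :=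
  ⟨fun x => f ((h ^ (-n)) x), f.continuous.comp (h ^ (-n)).continuous⟩

lemma tr_apply {𝕜 : Type*} [TopologicalSpace 𝕜] (h : X ≃ₜ X) (n : ℤ) (f : C(X, 𝕜)) (x : X) :
    tr h n f x = f ((h ^ (-n)) x) := rfl

lemma tr_rc (h : X ≃ₜ X) (n : ℤ) (f : C(X, ℝ)) : tr h n (rc f) = rc (tr h n f) := rfl

/-- `f` is supported in a closed set whose translates by the elements of `S` are disjoint. -/
def Sep (h : X ≃ₜ X) (S : Finset ℤ) (f : C(X, ℝ)) : Prop :=
  ∃ K : Set X, IsClosed K ∧ (∀ x, x ∉ K → f x = 0) ∧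
    (S : Set ℤ).PairwiseDisjoint (fun n => (h ^ n) '' K)

variable [CompactSpace X]

/-- A bounded representation of the crossed product with the estimates inherited from
`F^{1/κ}`. -/
structure Data (h : X ≃ₜ X) (Y : Type*) [NormedAddCommGroup Y] [NormedSpace ℂ Y] (C κ : ℝ) where
  /-- the representation of the functions -/
  P : C(X, ℂ) →ₗ[ℂ] (Y →L[ℂ] Y)
  P_mul : ∀ f g, P (f * g) = P f * P g
  P_norm : ∀ f, ‖P f‖ ≤ C * ‖f‖
  /-- the group of operators -/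
  u : ℤ → (Y →L[ℂ] Y)
  u_add : ∀ m n, u (m + n) = u m * u n
  u_zero : u 0 = P 1
  u_norm : ∀ n, ‖u n‖ ≤ C
  comm : ∀ n f, u n * P f = P (tr h n f) * u n
  E1 : ∀ (S : Finset ℤ) (ξ : ℤ → ℂ) (f : C(X, ℝ)), (∀ n ∈ S, ‖ξ n‖ ≤ 1) →
    (∀ x, 0 ≤ f x ∧ f x ≤ 1) → Sep h S f →
    ‖∑ n ∈ S, ξ n • (u n * P (rc f))‖ ≤ C * (S.card : ℝ) ^ κ
  E2 : ∀ (S : Finset ℤ) (ξ : ℤ → ℂ) (f : C(X, ℝ)), (∀ n ∈ S, ‖ξ n‖ ≤ 1) →
    (∀ x, 0 ≤ f x ∧ f x ≤ 1) → Sep h S f →
    ‖∑ n ∈ S, ξ n • (P (rc f) * u (-n))‖ ≤ C * (S.card : ℝ) ^ (1 - κ)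

end Defs

section Elementary

lemma pow_contra {a b κ : ℝ} (ha : 0 < a) (hκ : κ < 1)
    (h : ∀ K : ℕ, 0 < K → (K : ℝ) * a ≤ b * (K : ℝ) ^ κ) : False := by
  have h1 : Tendsto (fun K : ℕ => (K : ℝ) ^ (1 - κ)) atTop atTop :=
    (tendsto_rpow_atTop (by linarith)).comp tendsto_natCast_atTop_atTop
  obtain ⟨K, hK1, hK2⟩ := ((h1.eventually_gt_atTop (b / a)).and (eventually_gt_atTop 0)).exists
  have hKpos : (0 : ℝ) < K := by exact_mod_cast hK2
  have h2 := h K hK2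
  have h3 : (K : ℝ) = (K : ℝ) ^ (1 - κ) * (K : ℝ) ^ κ := by
    rw [← Real.rpow_add hKpos]; simp
  rw [div_lt_iff₀ ha] at hK1
  have h4 : 0 < (K : ℝ) ^ κ := Real.rpow_pos_of_pos hKpos _
  have h5 : b * (K : ℝ) ^ κ < (K : ℝ) * a := by
    calc b * (K : ℝ) ^ κ < (K : ℝ) ^ (1 - κ) * a * (K : ℝ) ^ κ := by gcongr
      _ = ((K : ℝ) ^ (1 - κ) * (K : ℝ) ^ κ) * a := by ring
      _ = K * a := by rw [← h3]
  linarith

end Elementary

section Metric

variable {X : Type*} [MetricSpace X] [CompactSpace X]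

/-- A radius such that balls of this radius have disjoint translates. -/
lemma exists_sep_radius (h : X ≃ₜ X) (hfree : ∀ (x : X) (n : ℤ), (h ^ n) x = x → n = 0)
    (S : Finset ℤ) : ∃ R : ℝ, 0 < R ∧ ∀ x₀ : X,
      (S : Set ℤ).PairwiseDisjoint (fun n => (h ^ n) '' Metric.closedBall x₀ R) := by
  classical
  have h1 : ∀ k : ℤ, ∃ ε : ℝ, 0 < ε ∧ (k ≠ 0 → ∀ b : X, ε ≤ dist ((h ^ k) b) b) := by
    intro k
    by_cases hk : k = 0
    · exact ⟨1, one_pos, fun h => absurd hk h⟩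
    rcases isEmpty_or_nonempty X with hX | hX
    · exact ⟨1, one_pos, fun _ b => (hX.false b).elim⟩
    have hcont : Continuous fun b : X => dist ((h ^ k) b) b := by
      have := (h ^ k).continuous
      fun_prop
    obtain ⟨b₀, -, hb⟩ := isCompact_univ.exists_isMinOn (Set.univ_nonempty (α := X))
      hcont.continuousOn
    refine ⟨dist ((h ^ k) b₀) b₀, ?_, fun _ b => hb (Set.mem_univ b)⟩
    rw [dist_pos]
    intro h2
    exact hk (hfree b₀ k h2)
  choose ε hε1 hε2 using h1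
  have h2 : ∀ᶠ R in 𝓝[>] (0 : ℝ), ∀ k ∈ S ×ˢ S, 2 * R < ε (k.1 - k.2) := by
    rw [Finset.eventually_all]
    intro k _
    have : Tendsto (fun R : ℝ => 2 * R) (𝓝[>] 0) (𝓝 0) := by
      have h3 : Continuous fun R : ℝ => 2 * R := by fun_prop
      have h4 := h3.tendsto 0
      simp only [mul_zero] at h4
      exact h4.mono_left nhdsWithin_le_nhds
    exact this.eventually (gt_mem_nhds (hε1 _))
  obtain ⟨R, hR1, hR2⟩ := (h2.and self_mem_nhdsWithin).exists
  refine ⟨R, hR2, fun x₀ m hm n hn hmn => ?_⟩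
  rw [Function.onFun, Set.disjoint_left]
  rintro x ⟨a, ha, rfl⟩ ⟨b, hb, hab⟩
  have h3 : (h ^ (n - m)) b = a := by
    rw [sub_eq_add_neg, add_comm, zpow_add, Homeomorph.mul_apply, hab, zpow_neg,
      Homeomorph.inv_apply, Homeomorph.symm_apply_apply]
  have h4 := hε2 (n - m) (sub_ne_zero.mpr (Ne.symm hmn)) b
  have h5 := hR1 (n, m) (Finset.mem_product.mpr ⟨hn, hm⟩)
  rw [h3] at h4
  have h6 : dist a b ≤ dist a x₀ + dist b x₀ := dist_triangle_right a b x₀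
  rw [Metric.mem_closedBall] at ha hb
  simp only at h5
  linarith

lemma exists_local {V : Type*} [AddCommGroup V] [Module ℂ V] (T : C(X, ℂ) →ₗ[ℂ] V)
    (hT : T 1 ≠ 0) {R : ℝ} (hR : 0 < R) : ∃ (x₀ : X) (D : C(X, ℝ)),
      (∀ x, 0 ≤ D x ∧ D x ≤ 1) ∧ (∀ x, R ≤ dist x x₀ → D x = 0) ∧ T (rc D) ≠ 0 := by
  classical
  by_contra hcon
  push Not at hcon
  obtain ⟨F, -, hFfin, hcov⟩ := finite_cover_balls_of_compact (isCompact_univ (X := X))
    (half_pos hR)
  obtain ⟨F, rfl⟩ := hFfin.exists_finset_coe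
  have key : ∀ (cs : List X) (w : C(X, ℝ)), (∀ x, 0 ≤ w x ∧ w x ≤ 1) →
      T (rc w) = T (rc (fw w (cs.map fun x₀ => cut x₀ (R / 2) R))) := by
    intro cs
    induction cs with
    | nil => intro w _; simp [fw]
    | cons x₀ t ih =>
      intro w hw
      have hc : ∀ x, 0 ≤ cut x₀ (R / 2) R x ∧ cut x₀ (R / 2) R x ≤ 1 :=
        fun x => ⟨cut_nonneg _ _ _ _, cut_le_one _ _ _ _⟩
      rw [List.map_cons, fw, ← ih (w * (1 - cut x₀ (R / 2) R)) (fun x => by
        obtain ⟨a1, a2⟩ := hw x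
        obtain ⟨b1, b2⟩ := hc x
        simp only [ContinuousMap.mul_apply, ContinuousMap.sub_apply, ContinuousMap.one_apply]
        constructor
        · exact mul_nonneg a1 (by linarith)
        · nlinarith)]
      have h1 : w = w * cut x₀ (R / 2) R + w * (1 - cut x₀ (R / 2) R) := by ring
      have h2 : T (rc (w * cut x₀ (R / 2) R)) = 0 := by
        refine hcon x₀ _ (fun x => ?_) fun x hx => ?_
        · obtain ⟨a1, a2⟩ := hw x
          obtain ⟨b1, b2⟩ := hc x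
          simp only [ContinuousMap.mul_apply]
          constructor
          · positivity
          · nlinarith
        · rw [ContinuousMap.mul_apply, cut_eq_zero (by linarith) hx, mul_zero]
      conv_lhs => rw [h1]
      rw [map_add, map_add, h2, zero_add]
  have h1 := key F.toList 1 (fun x => by simp)
  have h2 : fw 1 (F.toList.map fun x₀ => cut x₀ (R / 2) R) = 0 := by
    ext x
    refine fw_apply_eq_zero 1 _ x (Or.inr ?_)
    have hx := hcov (Set.mem_univ x)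
    simp only [Set.mem_iUnion, Finset.mem_coe, exists_prop] at hx
    obtain ⟨x₀, hx₀, hx1⟩ := hx
    refine ⟨_, List.mem_map.mpr ⟨x₀, Finset.mem_toList.mpr hx₀, rfl⟩, ?_⟩
    exact cut_eq_one (by linarith) (Metric.mem_ball.mp hx1).le
  rw [h2, map_zero, map_zero, map_one] at h1
  exact hT h1

variable {h : X ≃ₜ X} {Y : Type*} [NormedAddCommGroup Y] [NormedSpace ℂ Y] {C κ : ℝ}

namespace Data

variable (d : Data h Y C κ)

lemma P_apply_mul (f g : C(X, ℂ)) (y : Y) : d.P (f * g) y = d.P f (d.P g y) := by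
  rw [d.P_mul]; rfl

lemma norm_P_apply (f : C(X, ℂ)) (hf : ‖f‖ ≤ 1) (hC : 0 ≤ C) (y : Y) : ‖d.P f y‖ ≤ C * ‖y‖ := by
  calc ‖d.P f y‖ ≤ ‖d.P f‖ * ‖y‖ := (d.P f).le_opNorm y
    _ ≤ (C * ‖f‖) * ‖y‖ := by gcongr; exact d.P_norm f
    _ ≤ (C * 1) * ‖y‖ := by gcongr
    _ = C * ‖y‖ := by rw [mul_one]

lemma norm_u_apply (n : ℤ) (y : Y) : ‖d.u n y‖ ≤ C * ‖y‖ :=
  (d.u n).le_of_opNorm_le (d.u_norm n) y

/-- Vectors in the range of `P 1` are moved by `u n` to vectors of comparable norm. -/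
lemma norm_le_u (n : ℤ) {z : Y} (hz : d.P 1 z = z) : ‖z‖ ≤ C * ‖d.u n z‖ := by
  have h1 : d.u (-n) (d.u n z) = z := by
    rw [← mul_apply_eq_comp, ← d.u_add, neg_add_cancel, d.u_zero, hz]
  calc ‖z‖ = ‖d.u (-n) (d.u n z)‖ := by rw [h1]
    _ ≤ C * ‖d.u n z‖ := d.norm_u_apply _ _

/-- The evaluation map `f ↦ j (P f y)`. -/
noncomputable def T {ι : Type*} {s : ℝ≥0∞} [Fact (1 ≤ s)] (j : Y →ₗᵢ[ℂ] Ell ι s) (y : Y) :
    C(X, ℂ) →ₗ[ℂ] Ell ι s where
  toFun f := j (d.P f y)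
  map_add' f g := by rw [map_add, _root_.add_apply, map_add]
  map_smul' c f := by
    rw [map_smul, _root_.smul_apply, map_smul, RingHom.id_apply]

/-- Localised vectors: `f = 1` on the support of `D`. -/
lemma exists_vec (hfree : ∀ (x : X) (n : ℤ), (h ^ n) x = x → n = 0) (hP : d.P 1 ≠ 0) (N : ℕ) :
    ∃ (f D : C(X, ℝ)) (S : Finset ℤ) (z : Y), S.card = N ∧ (∀ x, 0 ≤ f x ∧ f x ≤ 1) ∧
      (∀ x, 0 ≤ D x ∧ D x ≤ 1) ∧ f * D = D ∧
      Sep h S f ∧ z ≠ 0 ∧ (∃ y, z = d.P (rc D) y) := by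
  obtain ⟨y, hy⟩ : ∃ y, d.P 1 y ≠ 0 := by
    by_contra hcon
    push Not at hcon
    exact hP (ContinuousLinearMap.ext fun y => by simpa using hcon y)
  obtain ⟨R, hR, hsep⟩ := exists_sep_radius h hfree (Finset.Ico (0 : ℤ) N)
  let T : C(X, ℂ) →ₗ[ℂ] Y := (ContinuousLinearMap.apply ℂ Y y).toLinearMap ∘ₗ d.P
  obtain ⟨x₀, D, hD1, hD2, hD3⟩ := exists_local T hy (half_pos hR)
  refine ⟨cut x₀ (R / 2) R, D, Finset.Ico (0 : ℤ) N, d.P (rc D) y, by simp,
    fun x => ⟨cut_nonneg _ _ _ _, cut_le_one _ _ _ _⟩, hD1, ?_, ?_, hD3, y, rfl⟩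
  · ext x
    rw [ContinuousMap.mul_apply]
    by_cases hx : dist x x₀ ≤ R / 2
    · rw [cut_eq_one (by linarith) hx, one_mul]
    · rw [hD2 x (not_le.mp hx).le, mul_zero]
  · refine ⟨Metric.closedBall x₀ R, Metric.isClosed_closedBall, fun x hx => ?_, hsep x₀⟩
    rw [Metric.mem_closedBall, not_le] at hx
    exact cut_eq_zero (by linarith) hx.le

section Cases

variable {ι : Type*} {s : ℝ≥0∞} [Fact (1 ≤ s)]

lemma P_one_of_P {D : C(X, ℂ)} {y z : Y} (hz : z = d.P D y) : d.P 1 z = z := by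
  rw [hz, ← d.P_apply_mul, one_mul]

/-- Case (A): `κ > 1 / s`. -/
lemma case_A (hC : 0 < C) (hfree : ∀ (x : X) (n : ℤ), (h ^ n) x = x → n = 0) (hs : s ≤ 2)
    (j : Y →ₗᵢ[ℂ] Ell ι s) (hκ : 1 / s.toReal < κ) : d.P 1 = 0 := by
  classical
  by_contra hP
  have hstop : s ≠ ∞ := (hs.trans_lt (by simp)).ne
  have hs1 := toReal_ge_one hstop
  have hs0 : 0 < s.toReal := zero_lt_one.trans_le hs1
  refine pow_contra (a := 1) (b := C * C) (κ := 1 - κ + 1 / s.toReal) one_pos (by linarith) ?_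
  intro N hN
  have hNpos : (0 : ℝ) < N := by exact_mod_cast hN
  obtain ⟨f, D, S, z, hcard, hf, hD, hfD, hsep, hz, y, hzy⟩ := d.exists_vec hfree hP N
  have hzpos : 0 < ‖z‖ := norm_pos_iff.mpr hz
  obtain ⟨θ, hθ, hθ2⟩ := exists_signs_le hs S (fun m => j (d.u m z))
  have hθn : ∀ n, ‖θ n‖ ≤ 1 := fun n => by rcases hθ n with h | h <;> simp [h]
  have hθ3 : ∀ n, θ n * θ n = 1 := fun n => by rcases hθ n with h | h <;> simp [h]
  -- the vector
  set x : Y := ∑ m ∈ S, θ m • d.u m z with hx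
  have hjx : ‖x‖ ^ s.toReal ≤ (N : ℝ) * (C * ‖z‖) ^ s.toReal := by
    have h1 : j x = ∑ m ∈ S, θ m • j (d.u m z) := by simp [hx, map_sum]
    have h2 : ‖x‖ = ‖∑ m ∈ S, θ m • j (d.u m z)‖ := by rw [← h1, j.norm_map]
    rw [h2]
    refine hθ2.trans ?_
    calc ∑ k ∈ S, ‖j (d.u k z)‖ ^ s.toReal ≤ ∑ _k ∈ S, (C * ‖z‖) ^ s.toReal := by
          refine Finset.sum_le_sum fun k _ => ?_
          rw [j.norm_map]
          exact Real.rpow_le_rpow (norm_nonneg _) (d.norm_u_apply k z) hs0.le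
      _ = (N : ℝ) * (C * ‖z‖) ^ s.toReal := by rw [Finset.sum_const, hcard, nsmul_eq_mul]
  have hxn : ‖x‖ ≤ (N : ℝ) ^ (1 / s.toReal) * (C * ‖z‖) := by
    have h1 := Real.rpow_le_rpow (Real.rpow_nonneg (norm_nonneg _) _) hjx
      (one_div_nonneg.mpr hs0.le)
    rw [← Real.rpow_mul (norm_nonneg _), mul_one_div_cancel hs0.ne', Real.rpow_one,
      Real.mul_rpow hNpos.le (by positivity), ← Real.rpow_mul (by positivity),
      mul_one_div_cancel hs0.ne', Real.rpow_one] at h1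
    exact h1
  -- the operator
  set B : Y →L[ℂ] Y := ∑ n ∈ S, θ n • (d.P (rc f) * d.u (-n)) with hB
  have hBn : ‖B‖ ≤ C * (N : ℝ) ^ (1 - κ) := by
    have := d.E2 S θ f (fun n _ => hθn n) hf hsep
    rwa [hcard] at this
  have hBx : B x = (N : ℂ) • z := by
    obtain ⟨K, -, hK, hdis⟩ := hsep
    have hterm : ∀ n ∈ S, ∀ m ∈ S, d.P (rc f) (d.u (-n) (d.u m z)) = if n = m then z else 0 := by
      intro n hn m hm
      have h1 : d.u (-n) (d.u m z) = d.u (-n + m) z := by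
        rw [← mul_apply_eq_comp, ← d.u_add]
      have h2 : d.P (rc f) (d.u (-n + m) z) =
          d.P (rc f * tr h (-n + m) (rc D)) (d.u (-n + m) y) := by
        have h3 := d.comm (-n + m) (rc D)
        have h4 : d.u (-n + m) (d.P (rc D) y) = d.P (tr h (-n + m) (rc D)) (d.u (-n + m) y) := by
          rw [← mul_apply_eq_comp, h3, mul_apply_eq_comp]
        rw [hzy, h4, ← d.P_apply_mul]
      rw [h1]
      split_ifs with hnm
      · subst hnm
        rw [neg_add_cancel, d.u_zero, d.P_one_of_P hzy, hzy, ← d.P_apply_mul, ← map_mul, hfD]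
      · rw [h2]
        have h5 : rc f * tr h (-n + m) (rc D) = 0 := by
          ext a
          rw [ContinuousMap.mul_apply, tr_rc, rc_apply, rc_apply, tr_apply, ContinuousMap.zero_apply]
          by_contra hne
          have h6 : f a ≠ 0 := fun h => hne (by rw [h]; simp)
          have h7 : D ((h ^ (-(-n + m))) a) ≠ 0 := fun h => hne (by rw [h]; simp)
          have h8 : f ((h ^ (-(-n + m))) a) ≠ 0 := by
            intro h
            apply h7
            rw [← hfD, ContinuousMap.mul_apply, h, zero_mul]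
          have h9 : a ∈ K := by by_contra hk; exact h6 (hK _ hk)
          have h10 : (h ^ (-(-n + m))) a ∈ K := by by_contra hk; exact h8 (hK _ hk)
          have h11 := hdis hn hm hnm
          rw [Function.onFun, Set.disjoint_left] at h11
          refine h11 ⟨a, h9, rfl⟩ ⟨_, h10, ?_⟩
          rw [← Homeomorph.mul_apply, ← zpow_add]
          congr 2
          ring
        rw [h5, map_zero]
        rfl
    rw [hx, map_sum]
    have h1 : ∀ m ∈ S, B (θ m • d.u m z) = z := by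
      intro m hm
      rw [map_smul, hB]
      rw [_root_.sum_apply, Finset.sum_eq_single m]
      · rw [_root_.smul_apply, mul_apply_eq_comp, hterm m hm m hm, if_pos rfl, smul_smul, hθ3,
          one_smul]
      · intro n hn hnm
        rw [_root_.smul_apply, mul_apply_eq_comp, hterm n hn m hm, if_neg hnm, smul_zero]
      · intro hm'; exact absurd hm hm'
    rw [Finset.sum_congr rfl h1, Finset.sum_const, hcard, ← Nat.cast_smul_eq_nsmul ℂ]
  have h1 : (N : ℝ) * ‖z‖ ≤ C * (N : ℝ) ^ (1 - κ) * ((N : ℝ) ^ (1 / s.toReal) * (C * ‖z‖)) := by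
    calc (N : ℝ) * ‖z‖ = ‖B x‖ := by rw [hBx, norm_smul]; simp
      _ ≤ ‖B‖ * ‖x‖ := B.le_opNorm x
      _ ≤ C * (N : ℝ) ^ (1 - κ) * ((N : ℝ) ^ (1 / s.toReal) * (C * ‖z‖)) := by
          gcongr
  have h2 : C * (N : ℝ) ^ (1 - κ) * ((N : ℝ) ^ (1 / s.toReal) * (C * ‖z‖)) =
      (C * C * (N : ℝ) ^ (1 - κ + 1 / s.toReal)) * ‖z‖ := by
    rw [Real.rpow_add hNpos]; ring
  rw [h2] at h1
  rw [mul_one]
  exact le_of_mul_le_mul_right h1 hzpos

/-- Case (B): `s = 2` and `κ < 1 / 2`. -/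
lemma case_B (hC : 0 < C) (hfree : ∀ (x : X) (n : ℤ), (h ^ n) x = x → n = 0)
    (j : Y →ₗᵢ[ℂ] Ell ι 2) (hκ : κ < 1 / 2) : d.P 1 = 0 := by
  classical
  by_contra hP
  refine pow_contra (a := 1) (b := C ^ 4) (κ := 2 * κ) one_pos (by linarith) ?_
  intro N hN
  have hNpos : (0 : ℝ) < N := by exact_mod_cast hN
  obtain ⟨f, D, S, z, hcard, hf, hD, hfD, hsep, hz, y, hzy⟩ := d.exists_vec hfree hP N
  have hzpos : 0 < ‖z‖ := norm_pos_iff.mpr hz
  obtain ⟨θ, hθ, hθ2⟩ := exists_signs_ge S (fun m => j (d.u m z))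
  have hθn : ∀ n, ‖θ n‖ ≤ 1 := fun n => by rcases hθ n with h | h <;> simp [h]
  have hPz := d.P_one_of_P hzy
  set x : Y := ∑ m ∈ S, θ m • d.u m z with hx
  have hlow : (N : ℝ) * (‖z‖ / C) ^ 2 ≤ ‖x‖ ^ 2 := by
    have h1 : j x = ∑ m ∈ S, θ m • j (d.u m z) := by simp [hx, map_sum]
    have h2 : ‖x‖ = ‖∑ m ∈ S, θ m • j (d.u m z)‖ := by rw [← h1, j.norm_map]
    rw [h2]
    refine le_trans ?_ hθ2
    calc (N : ℝ) * (‖z‖ / C) ^ 2 = ∑ _k ∈ S, (‖z‖ / C) ^ 2 := by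
          rw [Finset.sum_const, hcard, nsmul_eq_mul]
      _ ≤ ∑ k ∈ S, ‖j (d.u k z)‖ ^ 2 := by
          refine Finset.sum_le_sum fun k _ => ?_
          rw [j.norm_map]
          refine pow_le_pow_left₀ (by positivity) ?_ 2
          rw [div_le_iff₀ hC, mul_comm]
          exact d.norm_le_u k hPz
  have hup : ‖x‖ ≤ C * (N : ℝ) ^ κ * ‖z‖ := by
    have h1 := d.E1 S θ f (fun n _ => hθn n) hf hsep
    rw [hcard] at h1
    have h2 : x = (∑ n ∈ S, θ n • (d.u n * d.P (rc f))) z := by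
      rw [hx, _root_.sum_apply]
      refine Finset.sum_congr rfl fun n _ => ?_
      rw [_root_.smul_apply, mul_apply_eq_comp]
      congr 2
      conv_lhs => rw [hzy, ← hfD]
      rw [map_mul, d.P_apply_mul, ← hzy]
    rw [h2]
    exact ContinuousLinearMap.le_of_opNorm_le _ h1 z
  have h1 : (N : ℝ) * (‖z‖ / C) ^ 2 ≤ (C * (N : ℝ) ^ κ * ‖z‖) ^ 2 :=
    hlow.trans (pow_le_pow_left₀ (norm_nonneg _) hup 2)
  have h2 : ((N : ℝ) ^ κ) ^ 2 = (N : ℝ) ^ (2 * κ) := by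
    rw [← Real.rpow_natCast, ← Real.rpow_mul hNpos.le]
    congr 1
    push_cast
    ring
  have h3 : (N : ℝ) * (‖z‖ / C) ^ 2 * C ^ 2 = N * ‖z‖ ^ 2 := by
    field_simp
  have h4 : (C * (N : ℝ) ^ κ * ‖z‖) ^ 2 * C ^ 2 = (C ^ 4 * (N : ℝ) ^ (2 * κ)) * ‖z‖ ^ 2 := by
    rw [← h2]; ring
  have h5 := mul_le_mul_of_nonneg_right h1 (sq_nonneg C)
  rw [h3, h4] at h5
  rw [mul_one]
  exact le_of_mul_le_mul_right h5 (by positivity)

/-- The images of the unit ball of `C(X)` are totally bounded. -/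
lemma totallyBounded_orbit (hC : 0 < C) (hs : s < 2) (j : Y →ₗᵢ[ℂ] Ell ι s) (y : Y) :
    TotallyBounded {z : Y | ∃ f : C(X, ℂ), ‖f‖ ≤ 1 ∧ z = d.P f y} := by
  classical
  have hTn : ∀ f, ‖d.T j y f‖ ≤ (C * ‖y‖) * ‖f‖ := by
    intro f
    change ‖j (d.P f y)‖ ≤ _
    rw [j.norm_map]
    calc ‖d.P f y‖ ≤ ‖d.P f‖ * ‖y‖ := (d.P f).le_opNorm y
      _ ≤ (C * ‖f‖) * ‖y‖ := by gcongr; exact d.P_norm f
      _ = (C * ‖y‖) * ‖f‖ := by ring
  rw [← totallyBounded_image_iff j.isometry.isUniformInducing, Metric.totallyBounded_iff]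
  intro ε hε
  obtain ⟨J, hJ⟩ := tail_small hs (d.T j y) (by positivity) hTn (η := ε / 3) (by positivity)
  -- the finite dimensional part
  let g : (J → ℂ) → Ell ι s := fun a => ∑ i : J, lp.single s (i : ι) (a i)
  have hg : Continuous g := by
    refine continuous_finsetSum _ fun i _ => ?_
    refine (lp.isometry_single (E := fun _ : ι => ℂ) (p := s) (i : ι)).continuous.comp ?_
    exact continuous_apply i
  have hcomp : IsCompact (g '' Metric.closedBall 0 (C * ‖y‖)) :=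
    (isCompact_closedBall _ _).image hg
  obtain ⟨t, htfin, ht⟩ := Metric.totallyBounded_iff.mp hcomp.totallyBounded (ε / 3)
    (by positivity)
  refine ⟨t, htfin, ?_⟩
  rintro _ ⟨_, ⟨f, hf, rfl⟩, rfl⟩
  have h1 := hJ f hf
  have h2 : trunc J (d.T j y f) ∈ g '' Metric.closedBall 0 (C * ‖y‖) := by
    refine ⟨fun i => d.T j y f i, ?_, ?_⟩
    · rw [mem_closedBall_zero_iff, pi_norm_le_iff_of_nonneg (by positivity)]
      intro i
      calc ‖d.T j y f i‖ ≤ ‖d.T j y f‖ := norm_apply_le _ _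
        _ ≤ (C * ‖y‖) * ‖f‖ := hTn f
        _ ≤ (C * ‖y‖) * 1 := by gcongr
        _ = C * ‖y‖ := mul_one _
    · rw [trunc_def]
      exact Finset.sum_coe_sort J (fun i => lp.single s i (d.T j y f i))
  have h3 := ht h2
  simp only [Set.mem_iUnion, exists_prop, Metric.mem_ball] at h3 ⊢
  obtain ⟨a, ha1, ha2⟩ := h3
  refine ⟨a, ha1, ?_⟩
  change dist (d.T j y f) a < ε
  calc dist (d.T j y f) a ≤ dist (d.T j y f) (trunc J (d.T j y f)) +
        dist (trunc J (d.T j y f)) a := dist_triangle _ _ _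
    _ < ε := by rw [dist_eq_norm (d.T j y f)]; linarith

/-- Case (C): `s < 2` and `κ < 1 / s`. -/
lemma case_C [CompleteSpace Y] (hC : 0 < C)
    (hfree : ∀ (x : X) (n : ℤ), (h ^ n) x = x → n = 0) (hs : s < 2)
    (j : Y →ₗᵢ[ℂ] Ell ι s) (hκ : κ < 1 / s.toReal) : d.P 1 = 0 := by
  classical
  by_contra hP
  have hstop : s ≠ ∞ := (hs.trans (by simp)).ne
  have hs1 := toReal_ge_one hstop
  have hs0 : 0 < s.toReal := zero_lt_one.trans_le hs1
  have hκ1 : κ < 1 := by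
    have : 1 / s.toReal ≤ 1 := by rw [div_le_one hs0]; exact hs1
    linarith
  obtain ⟨y, hyne, hPy⟩ : ∃ y, y ≠ 0 ∧ d.P 1 y = y := by
    by_contra hcon
    push Not at hcon
    refine hP (ContinuousLinearMap.ext fun y => ?_)
    by_contra hne
    refine hcon (d.P 1 y) (by simpa using hne) ?_
    rw [← d.P_apply_mul, one_mul]
  have hypos : 0 < ‖y‖ := norm_pos_iff.mpr hyne
  -- localisation
  have hTn : ∀ f, ‖d.T j y f‖ ≤ (C * ‖y‖) * ‖f‖ := by
    intro f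
    change ‖j (d.P f y)‖ ≤ _
    rw [j.norm_map]
    calc ‖d.P f y‖ ≤ ‖d.P f‖ * ‖y‖ := (d.P f).le_opNorm y
      _ ≤ (C * ‖f‖) * ‖y‖ := by gcongr; exact d.P_norm f
      _ = (C * ‖y‖) * ‖f‖ := by ring
  obtain ⟨c, hc, hloc⟩ := localization hs (d.T j y) hC (by positivity) hTn (by
      intro f g hf
      change ‖j (d.P (f * g) y)‖ ≤ C * ‖j (d.P g y)‖
      rw [j.norm_map, j.norm_map, d.P_apply_mul]
      exact d.norm_P_apply f hf hC.le _) (by
      change j (d.P 1 y) ≠ 0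
      rw [hPy]
      intro h0
      apply hyne
      have := j.norm_map y
      rw [h0, norm_zero] at this
      exact norm_eq_zero.mp this.symm)
  choose R hR hsep using fun N : ℕ => exists_sep_radius h hfree (Finset.Ico (0 : ℤ) N)
  choose x₀ D hD1 hD2 hD3 using fun N : ℕ => hloc (R N) (hR N)
  have hsepD : ∀ (N : ℕ) (S : Finset ℤ), S ⊆ Finset.Ico (0 : ℤ) N → Sep h S (D N) := by
    intro N S hS
    refine ⟨Metric.closedBall (x₀ N) (R N), Metric.isClosed_closedBall, fun x hx => ?_, ?_⟩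
    · rw [Metric.mem_closedBall, not_le] at hx
      exact hD2 N x hx.le
    · exact (hsep N (x₀ N)).subset (by exact_mod_cast hS)
  -- the limit vector
  have htb := d.totallyBounded_orbit hC hs j y
  have hcomp : IsCompact (closure {z : Y | ∃ f : C(X, ℂ), ‖f‖ ≤ 1 ∧ z = d.P f y}) :=
    htb.closure.isCompact_of_isClosed isClosed_closure
  obtain ⟨z, -, φ, hφ, hlim⟩ := hcomp.tendsto_subseq (x := fun N => d.P (rc (D N)) y)
    (fun N => subset_closure ⟨rc (D N), norm_rc_le zero_le_one fun x => by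
      rw [abs_of_nonneg (hD1 N x).1]; exact (hD1 N x).2, rfl⟩)
  have hzc : c ≤ ‖z‖ := by
    refine ge_of_tendsto hlim.norm (Eventually.of_forall fun N => ?_)
    have := hD3 (φ N)
    change c ≤ ‖j (d.P (rc (D (φ N))) y)‖ at this
    rwa [j.norm_map] at this
  have hPz : d.P 1 z = z := by
    refine tendsto_nhds_unique (((d.P 1).continuous.tendsto z).comp hlim) ?_
    refine hlim.congr fun N => ?_
    change _ = d.P 1 (d.P (rc (D (φ N))) y)
    rw [← d.P_apply_mul, one_mul]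
    rfl
  -- upper estimates
  have hup : ∀ (S : Finset ℕ) (ξ : ℕ → ℂ), (∀ n, ‖ξ n‖ ≤ 1) →
      ‖∑ n ∈ S, ξ n • d.u (n : ℤ) z‖ ≤ C * (S.card : ℝ) ^ κ * ‖y‖ := by
    intro S ξ hξ
    have hcont : Continuous fun w : Y => ∑ n ∈ S, ξ n • d.u (n : ℤ) w := by fun_prop
    refine le_of_tendsto (((hcont.tendsto z).comp hlim).norm) ?_
    obtain ⟨m, hm⟩ : ∃ m, ∀ n ∈ S, n < m := by
      refine ⟨S.sup id + 1, fun n hn => ?_⟩
      exact Nat.lt_succ_of_le (Finset.le_sup (f := id) hn)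
    filter_upwards [eventually_ge_atTop m] with N hN
    have hφN : m ≤ φ N := hN.trans (hφ.id_le N)
    let S' : Finset ℤ := S.map Nat.castEmbedding
    have hS' : S' ⊆ Finset.Ico (0 : ℤ) (φ N : ℕ) := by
      intro k hk
      obtain ⟨n, hn, rfl⟩ := Finset.mem_map.mp hk
      rw [Finset.mem_Ico]
      have := hm n hn
      simp only [Nat.castEmbedding_apply]
      omega
    have h1 := d.E1 S' (fun k => ξ k.toNat) (D (φ N)) (fun n _ => hξ _) (hD1 (φ N))
      (hsepD (φ N) S' hS')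
    rw [Finset.card_map, Finset.sum_map] at h1
    have h2 := ContinuousLinearMap.le_of_opNorm_le _ h1 y
    refine le_trans (le_of_eq ?_) h2
    simp only [Function.comp_apply]
    congr 1
    rw [_root_.sum_apply]
    refine Finset.sum_congr rfl fun n _ => ?_
    simp
  -- weak nullity
  set v : ℕ → Ell ι s := fun n => j (d.u (n : ℤ) z) with hv
  have hsum : ∀ (S : Finset ℕ) (ξ : ℕ → ℂ), (∀ n, ‖ξ n‖ ≤ 1) →
      ‖∑ n ∈ S, ξ n • v n‖ ≤ C * (S.card : ℝ) ^ κ * ‖y‖ := by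
    intro S ξ hξ
    have h1 : ∑ n ∈ S, ξ n • v n = j (∑ n ∈ S, ξ n • d.u (n : ℤ) z) := by
      simp [hv, map_sum]
    rw [h1, j.norm_map]
    exact hup S ξ hξ
  have hnull : ∀ i, Tendsto (fun n => v n i) atTop (𝓝 0) := by
    intro i
    by_contra hcon
    rw [Metric.tendsto_atTop] at hcon
    push Not at hcon
    obtain ⟨δ, hδ, hcon⟩ := hcon
    have hinf : {n : ℕ | δ ≤ ‖v n i‖}.Infinite := by
      rw [← Nat.frequently_atTop_iff_infinite, frequently_atTop]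
      intro a
      obtain ⟨n, hn1, hn2⟩ := hcon a
      exact ⟨n, hn1, by simpa using hn2⟩
    refine pow_contra (a := δ) (b := C * ‖y‖) (κ := κ) hδ hκ1 fun K _ => ?_
    obtain ⟨S, hS1, hS2⟩ := hinf.exists_subset_card_eq K
    have h1 := hsum S (fun n => ph (v n i)) (fun n => norm_ph_le _)
    have h2 : (∑ n ∈ S, ph (v n i) • v n) i = ((∑ n ∈ S, ‖v n i‖ : ℝ) : ℂ) := by
      rw [lp.coeFn_sum, Finset.sum_apply]
      push_cast
      refine Finset.sum_congr rfl fun n _ => ?_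
      rw [lp.coeFn_smul, Pi.smul_apply, smul_eq_mul, ph_mul]
    calc (K : ℝ) * δ = ∑ _n ∈ S, δ := by rw [Finset.sum_const, hS2, nsmul_eq_mul]
      _ ≤ ∑ n ∈ S, ‖v n i‖ := Finset.sum_le_sum fun n hn => hS1 hn
      _ = ‖(∑ n ∈ S, ph (v n i) • v n) i‖ := by
          rw [h2, Complex.norm_real,
            Real.norm_of_nonneg (Finset.sum_nonneg fun _ _ => norm_nonneg _)]
      _ ≤ ‖∑ n ∈ S, ph (v n i) • v n‖ := norm_apply_le _ _
      _ ≤ C * (S.card : ℝ) ^ κ * ‖y‖ := h1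
      _ = C * ‖y‖ * (K : ℝ) ^ κ := by rw [hS2]; ring
  -- lower estimates
  have hcC : 0 < c / C := by positivity
  have hlow : ∀ n, c / C ≤ ‖v n‖ := by
    intro n
    rw [hv, j.norm_map, div_le_iff₀ hC, mul_comm]
    exact hzc.trans (d.norm_le_u n hPz)
  refine pow_contra (a := (c / C) ^ s.toReal / 2) (b := (C * ‖y‖) ^ s.toReal)
    (κ := κ * s.toReal) (by positivity) ?_ fun K hK => ?_
  · rwa [lt_div_iff₀ hs0] at hκ
  · obtain ⟨S, hS1, hS2⟩ := exists_large_sum hstop v hnull hcC hlow K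
    have h1 := hsum S (fun _ => 1) (fun _ => by simp)
    simp only [one_smul] at h1
    have hKpos : (0 : ℝ) < K := by exact_mod_cast hK
    calc (K : ℝ) * ((c / C) ^ s.toReal / 2) ≤ ‖∑ n ∈ S, v n‖ ^ s.toReal := hS2
      _ ≤ (C * (S.card : ℝ) ^ κ * ‖y‖) ^ s.toReal :=
          Real.rpow_le_rpow (norm_nonneg _) h1 hs0.le
      _ = (C * ‖y‖) ^ s.toReal * (K : ℝ) ^ (κ * s.toReal) := by
          rw [hS1, show C * (K : ℝ) ^ κ * ‖y‖ = (C * ‖y‖) * (K : ℝ) ^ κ by ring,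
            Real.mul_rpow (by positivity) (by positivity), ← Real.rpow_mul hKpos.le]

/-- **Core theorem.** -/
theorem P_one_eq_zero [CompleteSpace Y] (hC : 0 < C)
    (hfree : ∀ (x : X) (n : ℤ), (h ^ n) x = x → n = 0) (hs : s ≤ 2)
    (j : Y →ₗᵢ[ℂ] Ell ι s) (hκ : κ ≠ 1 / s.toReal) : d.P 1 = 0 := by
  rcases lt_or_gt_of_ne hκ with h1 | h1
  · rcases lt_or_eq_of_le hs with h2 | h2
    · exact d.case_C hC hfree h2 j h1
    · subst h2
      refine d.case_B hC hfree j ?_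
      simpa using h1
  · exact d.case_A hC hfree hs j h1

end Cases

end Data

end Metric

end Pool.Agent.Lib.MP_5d4768_an
end
end
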