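import Mathlib

set_option autoImplicit false
set_option linter.unusedSectionVars false

/-!
# The full and the reduced `L^p` operator crossed product by a homeomorphism
-/

open scoped ENNReal
open MeasureTheory

namespace Pool.Agent.Lib.MP_5d4768_an

section Algebra

variable {X : Type*} [TopologicalSpace X]

/-- The group `ℤ`, written multiplicatively; the parameter `h` records how it acts on `C(X)`. -/
def ZAct (_h : X ≃ₜ X) : Type := Multiplicative ℤ

variable {h : X ≃ₜ X}

instance : CommGroup (ZAct h) := Multiplicative.commGroup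

/-- The integer underlying an element of `ZAct h`. -/
def ZAct.toInt (g : ZAct h) : ℤ := Multiplicative.toAdd g

/-- The element of `ZAct h` given by an integer. -/
def ZAct.ofInt (h : X ≃ₜ X) (n : ℤ) : ZAct h := Multiplicative.ofAdd n

/-- `α^n(f) = f ∘ h^{-n}`. -/
noncomputable def alpha (h : X ≃ₜ X) (n : ℤ) (f : C(X, ℂ)) : C(X, ℂ) :=
  ⟨fun x => f ((h ^ (-n)) x), f.continuous.comp (h ^ (-n)).continuous⟩

lemma alpha_apply (n : ℤ) (f : C(X, ℂ)) (x : X) : alpha h n f x = f ((h ^ (-n)) x) := rfl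

lemma alpha_zero (f : C(X, ℂ)) : alpha h 0 f = f := by
  ext x; simp [alpha]

lemma alpha_add (m n : ℤ) (f : C(X, ℂ)) : alpha h (m + n) f = alpha h m (alpha h n f) := by
  ext x
  change f ((h ^ (-(m + n))) x) = f ((h ^ (-n)) ((h ^ (-m)) x))
  rw [← Homeomorph.mul_apply, ← zpow_add]
  congr 3
  ring

lemma alpha_mul (n : ℤ) (f g : C(X, ℂ)) : alpha h n (f * g) = alpha h n f * alpha h n g := rfl

lemma alpha_one (n : ℤ) : alpha h n (1 : C(X, ℂ)) = 1 := rfl

lemma alpha_map_add (n : ℤ) (f g : C(X, ℂ)) : alpha h n (f + g) = alpha h n f + alpha h n g := rfl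

lemma alpha_map_zero (n : ℤ) : alpha h n (0 : C(X, ℂ)) = 0 := rfl

lemma alpha_smul (n : ℤ) (c : ℂ) (f : C(X, ℂ)) : alpha h n (c • f) = c • alpha h n f := rfl

lemma norm_alpha [CompactSpace X] (n : ℤ) (f : C(X, ℂ)) : ‖alpha h n f‖ = ‖f‖ := by
  have h1 : ∀ (m : ℤ) (g : C(X, ℂ)), ‖alpha h m g‖ ≤ ‖g‖ := by
    intro m g
    rw [ContinuousMap.norm_le _ (norm_nonneg _)]
    intro x
    exact ContinuousMap.norm_coe_le_norm g _
  refine le_antisymm (h1 n f) ?_
  calc ‖f‖ = ‖alpha h (-n) (alpha h n f)‖ := by rw [← alpha_add, neg_add_cancel, alpha_zero]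
    _ ≤ _ := h1 _ _

/-- The action `n • f = α^n(f) = f ∘ h^{-n}` of `ℤ` on `C(X)`. -/
noncomputable instance : MulSemiringAction (ZAct h) C(X, ℂ) where
  smul g f := alpha h g.toInt f
  one_smul f := alpha_zero f
  mul_smul g₁ g₂ f := alpha_add g₁.toInt g₂.toInt f
  smul_zero g := alpha_map_zero g.toInt
  smul_add g := alpha_map_add g.toInt
  smul_one g := alpha_one g.toInt
  smul_mul g := alpha_mul g.toInt

lemma smul_eq_alpha (g : ZAct h) (f : C(X, ℂ)) : g • f = alpha h g.toInt f := rfl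

/-- The algebra `C_c(ℤ, C(X), α)` of finitely supported functions `a : ℤ → C(X)`, with
`(f u_m) (g u_n) = (f * α^m(g)) u_{m+n}`, where `f u_m` is `SkewMonoidAlgebra.single m f`. -/
abbrev Cc (h : X ≃ₜ X) : Type _ := SkewMonoidAlgebra C(X, ℂ) (ZAct h)

end Algebra

section Representations

/-- A nondegenerate contractive homomorphism `C(X) → B(E)`. -/
structure Rep (X : Type*) [TopologicalSpace X] [CompactSpace X] (E : Type*)
    [NormedAddCommGroup E] [NormedSpace ℂ E] where
  /-- the homomorphism -/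
  π : C(X, ℂ) →ₙₐ[ℂ] (E →L[ℂ] E)
  contractive : ∀ f, ‖π f‖ ≤ ‖f‖
  nondegenerate : Dense (Submodule.span ℂ {ξ : E | ∃ f η, ξ = π f η} : Set E)

variable {X : Type*} [TopologicalSpace X] [CompactSpace X]

/-- A contractive covariant representation `(π, v)` of `(C(X), ℤ, α)` on `E`. -/
structure CovRep (h : X ≃ₜ X) (E : Type*) [NormedAddCommGroup E] [NormedSpace ℂ E] extends
    Rep X E where
  /-- the invertible isometry -/
  v : E ≃ₗᵢ[ℂ] E
  covariant : ∀ f ξ, v (π f (v.symm ξ)) = π (alpha h 1 f) ξ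

variable {h : X ≃ₜ X} {E : Type*} [NormedAddCommGroup E] [NormedSpace ℂ E]

/-- The powers of an invertible isometry, as operators. -/
noncomputable def vpow (v : E ≃ₗᵢ[ℂ] E) (n : ℤ) : E →L[ℂ] E :=
  ((v ^ n : E ≃ₗᵢ[ℂ] E).toContinuousLinearEquiv : E →L[ℂ] E)

/-- The integrated form `a ↦ ∑ π(a(n)) v^n`. -/
noncomputable def CovRep.integrated (ρ : CovRep h E) (a : Cc h) : E →L[ℂ] E :=
  a.sum fun n f => ρ.π f * vpow ρ.v n.toInt

lemma vpow_apply (v : E ≃ₗᵢ[ℂ] E) (n : ℤ) (ξ : E) : vpow v n ξ = (v ^ n) ξ := rfl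

lemma norm_vpow_apply (v : E ≃ₗᵢ[ℂ] E) (n : ℤ) (ξ : E) : ‖vpow v n ξ‖ = ‖ξ‖ :=
  (v ^ n).norm_map ξ

lemma norm_vpow_le (v : E ≃ₗᵢ[ℂ] E) (n : ℤ) : ‖vpow v n‖ ≤ 1 :=
  ContinuousLinearMap.opNorm_le_bound _ zero_le_one fun ξ => by rw [norm_vpow_apply, one_mul]

lemma vpow_zero (v : E ≃ₗᵢ[ℂ] E) : vpow v 0 = 1 := by
  ext ξ; simp [vpow_apply]

lemma vpow_add (v : E ≃ₗᵢ[ℂ] E) (m n : ℤ) : vpow v (m + n) = vpow v m * vpow v n := by
  ext ξ
  rw [mul_apply_eq_comp, vpow_apply, vpow_apply, vpow_apply, zpow_add]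
  rfl

lemma vpow_one (v : E ≃ₗᵢ[ℂ] E) (ξ : E) : vpow v 1 ξ = v ξ := by
  rw [vpow_apply, zpow_one]

lemma vpow_neg_one (v : E ≃ₗᵢ[ℂ] E) (ξ : E) : vpow v (-1) ξ = v.symm ξ := by
  rw [vpow_apply, zpow_neg_one]; rfl

/-- A nondegenerate homomorphism of the unital algebra `C(X)` is unital. -/
lemma Rep.π_one (ρ : Rep X E) : ρ.π 1 = 1 := by
  have h1 : ∀ ξ ∈ Submodule.span ℂ {ξ : E | ∃ f η, ξ = ρ.π f η}, ρ.π 1 ξ = ξ := by
    intro ξ hξ
    induction hξ using Submodule.span_induction with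
    | mem x hx =>
      obtain ⟨f, η, rfl⟩ := hx
      rw [← mul_apply_eq_comp, ← map_mul, one_mul]
    | zero => simp
    | add x y _ _ hx hy => rw [map_add, hx, hy]
    | smul c x _ hx => rw [map_smul, hx]
  refine ContinuousLinearMap.ext fun ξ => ?_
  have h2 : IsClosed {ξ : E | ρ.π 1 ξ = ξ} := isClosed_eq (ρ.π 1).continuous continuous_id
  have h3 := h2.closure_subset_iff.mpr (fun ξ hξ => h1 ξ hξ)
  exact h3 (ρ.nondegenerate ξ)

lemma CovRep.vpow_mul_π (ρ : CovRep h E) (n : ℤ) (f : C(X, ℂ)) :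
    vpow ρ.v n * ρ.π f = ρ.π (alpha h n f) * vpow ρ.v n := by
  have h1 : ∀ f, vpow ρ.v 1 * ρ.π f = ρ.π (alpha h 1 f) * vpow ρ.v 1 := by
    intro f
    ext ξ
    have := ρ.covariant f (ρ.v ξ)
    rw [ρ.v.symm_apply_apply] at this
    rw [mul_apply_eq_comp, mul_apply_eq_comp, vpow_one, vpow_one, this]
  have h2 : ∀ f, vpow ρ.v (-1) * ρ.π f = ρ.π (alpha h (-1) f) * vpow ρ.v (-1) := by
    intro f
    have h3 := h1 (alpha h (-1) f)
    rw [← alpha_add, add_neg_cancel, alpha_zero] at h3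
    calc vpow ρ.v (-1) * ρ.π f = vpow ρ.v (-1) * (ρ.π f * vpow ρ.v 1) * vpow ρ.v (-1) := by
          rw [mul_assoc, mul_assoc, ← vpow_add, add_neg_cancel, vpow_zero, mul_one]
      _ = vpow ρ.v (-1) * (vpow ρ.v 1 * ρ.π (alpha h (-1) f)) * vpow ρ.v (-1) := by rw [h3]
      _ = ρ.π (alpha h (-1) f) * vpow ρ.v (-1) := by
          rw [← mul_assoc, ← vpow_add, neg_add_cancel, vpow_zero, one_mul]
  induction n using Int.induction_on generalizing f with
  | zero => rw [vpow_zero, alpha_zero, one_mul, mul_one]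
  | succ n ih =>
    rw [vpow_add, mul_assoc, h1, ← mul_assoc, ih, mul_assoc, alpha_add]
  | pred n ih =>
    rw [sub_eq_add_neg, vpow_add, mul_assoc, h2, ← mul_assoc, ih, mul_assoc, alpha_add]

lemma CovRep.integrated_single (ρ : CovRep h E) (g : ZAct h) (f : C(X, ℂ)) :
    ρ.integrated (SkewMonoidAlgebra.single g f) = ρ.π f * vpow ρ.v g.toInt :=
  SkewMonoidAlgebra.sum_single_index (by rw [map_zero, zero_mul])

lemma CovRep.integrated_add (ρ : CovRep h E) (a b : Cc h) :
    ρ.integrated (a + b) = ρ.integrated a + ρ.integrated b :=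
  SkewMonoidAlgebra.sum_add_index' (fun _ => by rw [map_zero, zero_mul])
    (fun _ _ _ => by rw [map_add, add_mul])

lemma CovRep.integrated_zero (ρ : CovRep h E) : ρ.integrated 0 = 0 :=
  SkewMonoidAlgebra.sum_zero_index

lemma CovRep.integrated_smul (ρ : CovRep h E) (c : ℂ) (a : Cc h) :
    ρ.integrated (c • a) = c • ρ.integrated a := by
  induction a using SkewMonoidAlgebra.induction_on with
  | zero => rw [smul_zero, integrated_zero, smul_zero]
  | single g f =>
    rw [SkewMonoidAlgebra.smul_single, integrated_single, integrated_single, map_smul,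
      smul_mul_assoc]
  | add a b ha hb => rw [smul_add, integrated_add, integrated_add, ha, hb, smul_add]

lemma CovRep.integrated_neg (ρ : CovRep h E) (a : Cc h) :
    ρ.integrated (-a) = -ρ.integrated a := by
  have := ρ.integrated_smul (-1) a
  rwa [neg_one_smul, neg_one_smul] at this

lemma CovRep.integrated_mul (ρ : CovRep h E) (a b : Cc h) :
    ρ.integrated (a * b) = ρ.integrated a * ρ.integrated b := by
  induction a using SkewMonoidAlgebra.induction_on with
  | zero => rw [zero_mul, integrated_zero, zero_mul]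
  | add a a' ha ha' => rw [add_mul, integrated_add, integrated_add, ha, ha', add_mul]
  | single g f =>
    induction b using SkewMonoidAlgebra.induction_on with
    | zero => rw [mul_zero, integrated_zero, mul_zero]
    | add b b' hb hb' => rw [mul_add, integrated_add, integrated_add, hb, hb', mul_add]
    | single g' f' =>
      rw [SkewMonoidAlgebra.single_mul_single, integrated_single, integrated_single,
        integrated_single, smul_eq_alpha, map_mul]
      have h1 : ZAct.toInt (g * g') = g.toInt + g'.toInt := rfl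
      rw [h1, vpow_add]
      calc ρ.π f * ρ.π (alpha h g.toInt f') * (vpow ρ.v g.toInt * vpow ρ.v g'.toInt)
          = ρ.π f * (ρ.π (alpha h g.toInt f') * vpow ρ.v g.toInt) * vpow ρ.v g'.toInt := by
            simp only [mul_assoc]
        _ = _ := by rw [← ρ.vpow_mul_π]; simp only [mul_assoc]

/-- The `ℓ¹` norm on `C_c(ℤ, C(X), α)`. -/
noncomputable def l1norm (a : Cc h) : ℝ := a.sum fun _ f => ‖f‖

lemma CovRep.norm_integrated_le (ρ : CovRep h E) (a : Cc h) : ‖ρ.integrated a‖ ≤ l1norm a := by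
  unfold CovRep.integrated l1norm
  rw [SkewMonoidAlgebra.sum_def', SkewMonoidAlgebra.sum_def']
  refine (norm_sum_le _ _).trans (Finset.sum_le_sum fun n _ => ?_)
  calc ‖ρ.π (a.coeff n) * vpow ρ.v n.toInt‖ ≤ ‖ρ.π (a.coeff n)‖ * ‖vpow ρ.v n.toInt‖ :=
        norm_mul_le _ _
    _ ≤ ‖a.coeff n‖ * 1 := by
        gcongr
        · exact ρ.contractive _
        · exact norm_vpow_le _ _
    _ = _ := mul_one _

/-- The seminorm on `C_c(ℤ, C(X), α)` given by a covariant representation. -/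
noncomputable def CovRep.seminorm (ρ : CovRep h E) : RingSeminorm (Cc h) where
  toFun a := ‖ρ.integrated a‖
  map_zero' := by rw [ρ.integrated_zero, norm_zero]
  add_le' a b := by rw [ρ.integrated_add]; exact norm_add_le _ _
  neg' a := by rw [ρ.integrated_neg, norm_neg]
  mul_le' a b := by rw [ρ.integrated_mul]; exact norm_mul_le _ _

end Representations

section Supremum

/-- The pointwise supremum of a pointwise bounded family of ring seminorms. -/
noncomputable def supSeminorm {A : Type*} [Ring A] {ι : Sort*} (N : ι → RingSeminorm A)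
    (hN : ∀ a, BddAbove (Set.range fun i => N i a)) : RingSeminorm A where
  toFun a := ⨆ i, N i a
  map_zero' := by simp
  add_le' a b := by
    refine Real.iSup_le (fun i => ?_) (add_nonneg (Real.iSup_nonneg fun i => apply_nonneg _ _)
      (Real.iSup_nonneg fun i => apply_nonneg _ _))
    exact (map_add_le_add (N i) a b).trans (add_le_add (le_ciSup (hN a) i) (le_ciSup (hN b) i))
  neg' a := by simp [map_neg_eq_map]
  mul_le' a b := by
    refine Real.iSup_le (fun i => ?_) (mul_nonneg (Real.iSup_nonneg fun i => apply_nonneg _ _)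
      (Real.iSup_nonneg fun i => apply_nonneg _ _))
    exact (map_mul_le_mul (N i) a b).trans (mul_le_mul (le_ciSup (hN a) i) (le_ciSup (hN b) i)
      (apply_nonneg _ _) (Real.iSup_nonneg fun i => apply_nonneg _ _))

end Supremum

section Renorm

/-- The ring `A` equipped with the ring seminorm `N`. -/
structure Renorm {A : Type*} [Ring A] (N : RingSeminorm A) where
  /-- the underlying element of `A` -/
  val : A

variable {A : Type*} [Ring A] (N : RingSeminorm A)

/-- The identification of `Renorm N` with `A`. -/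
def Renorm.equiv : Renorm N ≃ A where
  toFun := Renorm.val
  invFun := Renorm.mk
  left_inv _ := rfl
  right_inv _ := rfl

instance : Ring (Renorm N) := (Renorm.equiv N).ring

/-- The seminorm `N` on `Renorm N`. -/
def Renorm.seminorm : RingSeminorm (Renorm N) where
  toFun a := N a.val
  map_zero' := map_zero N
  add_le' a b := map_add_le_add N a.val b.val
  neg' a := map_neg_eq_map N a.val
  mul_le' a b := map_mul_le_mul N a.val b.val

instance : SeminormedRing (Renorm N) := (Renorm.seminorm N).toSeminormedRing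

instance [Module ℂ A] : Module ℂ (Renorm N) := (Renorm.equiv N).module ℂ

lemma Renorm.norm_eq (a : Renorm N) : ‖a‖ = N a.val := rfl

lemma Renorm.mul_val (a b : Renorm N) : (a * b).val = a.val * b.val := rfl

lemma Renorm.add_val (a b : Renorm N) : (a + b).val = a.val + b.val := rfl

lemma Renorm.sub_val (a b : Renorm N) : (a - b).val = a.val - b.val := rfl

lemma Renorm.smul_val [Module ℂ A] (c : ℂ) (a : Renorm N) : (c • a).val = c • a.val := rfl

end Renorm

section Regular

/-- The space `ℓ^p(ℤ, E)`. -/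
abbrev LZ (E : Type*) [NormedAddCommGroup E] (p : ℝ≥0∞) : Type _ := lp (fun _ : ℤ => E) p

/-- For a space `V` of `E`-valued functions on `ℤ`, with `coord ξ n` the value of `ξ` at `n`:
the representation `ρ` on `V` is given by `(π(f) ξ)(n) = π₀(α^{-n}(f)) ξ(n)` and
`(v ξ)(n) = ξ(n - 1)`. -/
def RegularFormulas {X : Type*} [TopologicalSpace X] [CompactSpace X] {h : X ≃ₜ X}
    {E V : Type*} [NormedAddCommGroup E] [NormedSpace ℂ E] [NormedAddCommGroup V]
    [NormedSpace ℂ V] (coord : V → ℤ → E) (π₀ : Rep X E) (ρ : CovRep h V) : Prop :=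
  (∀ f ξ n, coord (ρ.π f ξ) n = π₀.π (alpha h (-n) f) (coord ξ n)) ∧
  (∀ ξ n, coord (ρ.v ξ) n = coord ξ (n - 1))

/-- `ρ` is the regular representation on `ℓ^p(ℤ, E)` given by the representation `π₀` of `C(X)`
on `E`: `(π(f) ξ)(n) = π₀(α^{-n}(f)) ξ(n)` and `(v ξ)(n) = ξ(n - 1)`. -/
def IsRegular {X : Type*} [TopologicalSpace X] [CompactSpace X] {h : X ≃ₜ X} {E : Type*}
    [NormedAddCommGroup E] [NormedSpace ℂ E] {p : ℝ≥0∞} [Fact (1 ≤ p)] (π₀ : Rep X E)
    (ρ : CovRep h (LZ E p)) : Prop :=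
  RegularFormulas (fun ξ n => ξ n) π₀ ρ

lemma IsRegular.π_apply {X : Type*} [TopologicalSpace X] [CompactSpace X] {h : X ≃ₜ X}
    {E : Type*} [NormedAddCommGroup E] [NormedSpace ℂ E] {p : ℝ≥0∞} [Fact (1 ≤ p)] {π₀ : Rep X E}
    {ρ : CovRep h (LZ E p)} (hρ : IsRegular π₀ ρ) (f : C(X, ℂ)) (ξ : LZ E p) (n : ℤ) :
    (ρ.π f ξ : LZ E p) n = π₀.π (alpha h (-n) f) (ξ n) := hρ.1 f ξ n

lemma IsRegular.v_apply {X : Type*} [TopologicalSpace X] [CompactSpace X] {h : X ≃ₜ X}
    {E : Type*} [NormedAddCommGroup E] [NormedSpace ℂ E] {p : ℝ≥0∞} [Fact (1 ≤ p)] {π₀ : Rep X E}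
    {ρ : CovRep h (LZ E p)} (hρ : IsRegular π₀ ρ) (ξ : LZ E p) (n : ℤ) :
    (ρ.v ξ : LZ E p) n = ξ (n - 1) := hρ.2 ξ n

end Regular

section Crossed

variable {X : Type*} [TopologicalSpace X] [CompactSpace X]

/-- The data of a contractive covariant representation of `(C(X), ℤ, α)` on the `L^p` space of a
`σ`-finite measure space. -/
structure FullIndex (p : ℝ≥0∞) [Fact (1 ≤ p)] (h : X ≃ₜ X) where
  /-- the underlying set -/
  Ω : Type
  /-- the `σ`-algebra -/
  mΩ : MeasurableSpace Ω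
  /-- the measure -/
  μ : Measure Ω
  sigmaFinite : SigmaFinite μ
  /-- the covariant representation -/
  ρ : CovRep h (Lp ℂ p μ)

/-- The data of a regular representation: a nondegenerate contractive representation `π₀` of
`C(X)` on the `L^p` space of a `σ`-finite measure space, and the regular representation `ρ` on
`ℓ^p(ℤ, L^p(Ω, μ))` it gives. -/
structure RedIndex (p : ℝ≥0∞) [Fact (1 ≤ p)] (h : X ≃ₜ X) where
  /-- the underlying set -/
  Ω : Type
  /-- the `σ`-algebra -/
  mΩ : MeasurableSpace Ω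
  /-- the measure -/
  μ : Measure Ω
  sigmaFinite : SigmaFinite μ
  /-- the representation of `C(X)` -/
  π₀ : Rep X (Lp ℂ p μ)
  /-- the regular representation -/
  ρ : CovRep h (LZ (Lp ℂ p μ) p)
  isRegular : IsRegular π₀ ρ

lemma bdd_of_le_l1 {h : X ≃ₜ X} {ι : Sort*} {N : ι → RingSeminorm (Cc h)}
    (hN : ∀ i a, N i a ≤ l1norm a) (a : Cc h) : BddAbove (Set.range fun i => N i a) := by
  refine ⟨l1norm a, ?_⟩
  rintro _ ⟨i, rfl⟩
  exact hN i a

/-- The norm of `F^p(ℤ, X, h)`: the supremum of `‖∑ π(a(n)) v^n‖` over all contractive covariant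
representations on `L^p` spaces of `σ`-finite measure spaces. -/
noncomputable def fullSeminorm (p : ℝ≥0∞) [Fact (1 ≤ p)] (h : X ≃ₜ X) : RingSeminorm (Cc h) :=
  supSeminorm (fun i : FullIndex p h => i.ρ.seminorm)
    (bdd_of_le_l1 fun i a => i.ρ.norm_integrated_le a)

/-- The norm of `F^p_r(ℤ, X, h)`: the supremum of `‖∑ π(a(n)) v^n‖` over all regular
representations on `ℓ^p(ℤ, L^p(Ω, μ))`, with `(Ω, μ)` `σ`-finite. -/
noncomputable def redSeminorm (p : ℝ≥0∞) [Fact (1 ≤ p)] (h : X ≃ₜ X) : RingSeminorm (Cc h) :=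
  supSeminorm (fun i : RedIndex p h => i.ρ.seminorm)
    (bdd_of_le_l1 fun i a => i.ρ.norm_integrated_le a)

lemma fullSeminorm_smul_le (p : ℝ≥0∞) [Fact (1 ≤ p)] (h : X ≃ₜ X) (c : ℂ) (a : Cc h) :
    fullSeminorm p h (c • a) ≤ ‖c‖ * fullSeminorm p h a := by
  refine Real.iSup_le (fun i => ?_) (mul_nonneg (norm_nonneg _) (apply_nonneg _ _))
  change ‖i.ρ.integrated (c • a)‖ ≤ _
  rw [CovRep.integrated_smul, norm_smul]
  gcongr
  exact le_ciSup (bdd_of_le_l1 (N := fun i : FullIndex p h => i.ρ.seminorm)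
    (fun i a => i.ρ.norm_integrated_le a) a) i

noncomputable instance (p : ℝ≥0∞) [Fact (1 ≤ p)] (h : X ≃ₜ X) :
    NormedSpace ℂ (Renorm (fullSeminorm p h)) where
  norm_smul_le c a := fullSeminorm_smul_le p h c a.val

lemma redSeminorm_smul_le (p : ℝ≥0∞) [Fact (1 ≤ p)] (h : X ≃ₜ X) (c : ℂ) (a : Cc h) :
    redSeminorm p h (c • a) ≤ ‖c‖ * redSeminorm p h a := by
  refine Real.iSup_le (fun i => ?_) (mul_nonneg (norm_nonneg _) (apply_nonneg _ _))
  change ‖i.ρ.integrated (c • a)‖ ≤ _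
  rw [CovRep.integrated_smul, norm_smul]
  gcongr
  exact le_ciSup (bdd_of_le_l1 (N := fun i : RedIndex p h => i.ρ.seminorm)
    (fun i a => i.ρ.norm_integrated_le a) a) i

noncomputable instance (p : ℝ≥0∞) [Fact (1 ≤ p)] (h : X ≃ₜ X) :
    NormedSpace ℂ (Renorm (redSeminorm p h)) where
  norm_smul_le c a := redSeminorm_smul_le p h c a.val

/-- The full crossed product `F^p(ℤ, X, h)`: the completion of `C_c(ℤ, C(X), α)` in the norm
`fullSeminorm p h`. -/
abbrev FullAlg (p : ℝ≥0∞) [Fact (1 ≤ p)] {X : Type*} [TopologicalSpace X] [CompactSpace X]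
    (h : X ≃ₜ X) : Type _ :=
  UniformSpace.Completion (Renorm (fullSeminorm p h))

/-- The reduced crossed product `F^p_r(ℤ, X, h)`: the completion of `C_c(ℤ, C(X), α)` in the norm
`redSeminorm p h`. -/
abbrev RedAlg (p : ℝ≥0∞) [Fact (1 ≤ p)] {X : Type*} [TopologicalSpace X] [CompactSpace X]
    (h : X ≃ₜ X) : Type _ :=
  UniformSpace.Completion (Renorm (redSeminorm p h))

/-- Minimality: every orbit is dense. -/
def IsMinimalHomeo (h : X ≃ₜ X) : Prop := ∀ x : X, Dense (Set.range fun n : ℤ => (h ^ n) x)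

/-- Every continuous algebra homomorphism `A → B` (not assumed unital) is zero. -/
def OnlyZeroHom (A B : Type*) [NormedRing A] [NormedSpace ℂ A] [NormedRing B] [NormedSpace ℂ B] :
    Prop :=
  ∀ φ : A →L[ℂ] B, (∀ a b, φ (a * b) = φ a * φ b) → φ = 0

end Crossed

end Pool.Agent.Lib.MP_5d4768_an
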