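import Mathlib
import Pool.Agent.Lib.MP_5d4768_an.Defs

section

set_option autoImplicit false
set_option linter.unusedSectionVars false

/-!
# Isometries of `L^p`, `p ≠ 2`, and additivity of the norm on disjoint spectral subspaces
-/

open scoped ENNReal Topology
open Filter MeasureTheory

namespace Pool.Agent.Lib.MP_5d4768_an

section Pointwise

lemma rpow_add_lt {t x y : ℝ} (ht1 : t < 1) (hx : 0 < x) (hy : 0 < y) :
    (x + y) ^ t < x ^ t + y ^ t := by
  have hxy : 0 < x + y := by positivity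
  have h1 : x < x ^ t * (x + y) ^ (1 - t) := by
    calc x = x ^ t * x ^ (1 - t) := by rw [← Real.rpow_add hx]; simp
      _ < x ^ t * (x + y) ^ (1 - t) := by
          have := Real.rpow_lt_rpow hx.le (by linarith : x < x + y) (by linarith : 0 < 1 - t)
          have h2 := Real.rpow_pos_of_pos hx t
          exact mul_lt_mul_of_pos_left this h2
  have h2 : y < y ^ t * (x + y) ^ (1 - t) := by
    calc y = y ^ t * y ^ (1 - t) := by rw [← Real.rpow_add hy]; simp
      _ < y ^ t * (x + y) ^ (1 - t) := by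
          have := Real.rpow_lt_rpow hy.le (by linarith : y < x + y) (by linarith : 0 < 1 - t)
          have h2 := Real.rpow_pos_of_pos hy t
          exact mul_lt_mul_of_pos_left this h2
  have h3 : (x + y) ^ t * (x + y) ^ (1 - t) = x + y := by rw [← Real.rpow_add hxy]; simp
  have h4 : 0 < (x + y) ^ (1 - t) := Real.rpow_pos_of_pos hxy _
  have h5 : (x + y) ^ t * (x + y) ^ (1 - t) < (x ^ t + y ^ t) * (x + y) ^ (1 - t) := by
    rw [h3, add_mul]; linarith
  exact lt_of_mul_lt_mul_right h5 h4.le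

lemma lt_rpow_add {t x y : ℝ} (ht1 : 1 < t) (hx : 0 < x) (hy : 0 < y) :
    x ^ t + y ^ t < (x + y) ^ t := by
  have hxy : 0 < x + y := by positivity
  have h1 : x ^ t * (x + y) ^ (1 - t) < x := by
    calc x ^ t * (x + y) ^ (1 - t) < x ^ t * x ^ (1 - t) := by
          have := Real.rpow_lt_rpow_of_neg hx (by linarith : x < x + y) (by linarith : 1 - t < 0)
          have h2 := Real.rpow_pos_of_pos hx t
          exact mul_lt_mul_of_pos_left this h2
      _ = x := by rw [← Real.rpow_add hx]; simp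
  have h2 : y ^ t * (x + y) ^ (1 - t) < y := by
    calc y ^ t * (x + y) ^ (1 - t) < y ^ t * y ^ (1 - t) := by
          have := Real.rpow_lt_rpow_of_neg hy (by linarith : y < x + y) (by linarith : 1 - t < 0)
          have h2 := Real.rpow_pos_of_pos hy t
          exact mul_lt_mul_of_pos_left this h2
      _ = y := by rw [← Real.rpow_add hy]; simp
  have h3 : (x + y) ^ t * (x + y) ^ (1 - t) = x + y := by rw [← Real.rpow_add hxy]; simp
  have h4 : 0 < (x + y) ^ (1 - t) := Real.rpow_pos_of_pos hxy _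
  have h5 : (x ^ t + y ^ t) * (x + y) ^ (1 - t) < (x + y) ^ t * (x + y) ^ (1 - t) := by
    rw [h3, add_mul]; linarith
  exact lt_of_mul_lt_mul_right h5 h4.le

/-- The defect in Clarkson's inequality. -/
noncomputable def gap (s : ℝ) (a b : ℂ) : ℝ :=
  2 * (‖a‖ ^ s + ‖b‖ ^ s) - (‖a + b‖ ^ s + ‖a - b‖ ^ s)

lemma gap_eq_zero {s : ℝ} (hs : 0 < s) {a b : ℂ} (h : a = 0 ∨ b = 0) : gap s a b = 0 := by
  unfold gap
  rcases h with rfl | rfl
  · simp [Real.zero_rpow hs.ne']; ring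
  · simp [Real.zero_rpow hs.ne']; ring

lemma rpow_half_sq {s : ℝ} (x : ℝ) (hx : 0 ≤ x) : x ^ s = (x ^ 2) ^ (s / 2) := by
  rw [← Real.rpow_natCast, ← Real.rpow_mul hx]
  congr 1
  push_cast; ring

lemma gap_of_lt {s : ℝ} (hs0 : 0 < s) (hs2 : s < 2) (a b : ℂ) :
    0 ≤ gap s a b ∧ (gap s a b = 0 → a = 0 ∨ b = 0) := by
  by_cases hab : a = 0 ∨ b = 0
  · exact ⟨(gap_eq_zero hs0 hab).ge, fun _ => hab⟩
  push Not at hab
  have hpar : ‖a + b‖ ^ 2 + ‖a - b‖ ^ 2 = 2 * (‖a‖ ^ 2 + ‖b‖ ^ 2) := by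
    have := parallelogram_law_with_norm ℝ a b
    nlinarith
  have ht0 : 0 < s / 2 := by positivity
  have ht1 : s / 2 < 1 := by linarith
  have ha : 0 < ‖a‖ ^ 2 := by have := norm_pos_iff.mpr hab.1; positivity
  have hb : 0 < ‖b‖ ^ 2 := by have := norm_pos_iff.mpr hab.2; positivity
  have hA : (‖a + b‖ ^ 2 : ℝ) ∈ Set.Ici (0 : ℝ) := Set.mem_Ici.mpr (by positivity)
  have hB : (‖a - b‖ ^ 2 : ℝ) ∈ Set.Ici (0 : ℝ) := Set.mem_Ici.mpr (by positivity)
  have hh : (0 : ℝ) ≤ 1 / 2 := by norm_num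
  have hh1 : (1 / 2 : ℝ) + 1 / 2 = 1 := by norm_num
  have hconc := (Real.concaveOn_rpow ht0.le ht1.le).2 hA hB hh hh hh1
  simp only [smul_eq_mul] at hconc
  have h1 : 1 / 2 * ‖a + b‖ ^ 2 + 1 / 2 * ‖a - b‖ ^ 2 = ‖a‖ ^ 2 + ‖b‖ ^ 2 := by linarith
  rw [h1] at hconc
  have h2 := rpow_add_lt ht1 ha hb
  have h3 : 0 < gap s a b := by
    unfold gap
    rw [rpow_half_sq _ (norm_nonneg a), rpow_half_sq _ (norm_nonneg b),
      rpow_half_sq _ (norm_nonneg (a + b)), rpow_half_sq _ (norm_nonneg (a - b))]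
    linarith
  exact ⟨h3.le, fun h => absurd h h3.ne'⟩

lemma gap_of_gt {s : ℝ} (hs2 : 2 < s) (a b : ℂ) :
    gap s a b ≤ 0 ∧ (gap s a b = 0 → a = 0 ∨ b = 0) := by
  have hs0 : 0 < s := by linarith
  by_cases hab : a = 0 ∨ b = 0
  · exact ⟨(gap_eq_zero hs0 hab).le, fun _ => hab⟩
  push Not at hab
  have hpar : ‖a + b‖ ^ 2 + ‖a - b‖ ^ 2 = 2 * (‖a‖ ^ 2 + ‖b‖ ^ 2) := by
    have := parallelogram_law_with_norm ℝ a b
    nlinarith
  have ht1 : 1 < s / 2 := by linarith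
  have ha : 0 < ‖a‖ ^ 2 := by have := norm_pos_iff.mpr hab.1; positivity
  have hb : 0 < ‖b‖ ^ 2 := by have := norm_pos_iff.mpr hab.2; positivity
  have hA : (‖a + b‖ ^ 2 : ℝ) ∈ Set.Ici (0 : ℝ) := Set.mem_Ici.mpr (by positivity)
  have hB : (‖a - b‖ ^ 2 : ℝ) ∈ Set.Ici (0 : ℝ) := Set.mem_Ici.mpr (by positivity)
  have hh : (0 : ℝ) ≤ 1 / 2 := by norm_num
  have hh1 : (1 / 2 : ℝ) + 1 / 2 = 1 := by norm_num
  have hconc := (convexOn_rpow ht1.le).2 hA hB hh hh hh1
  simp only [smul_eq_mul] at hconc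
  have h1 : 1 / 2 * ‖a + b‖ ^ 2 + 1 / 2 * ‖a - b‖ ^ 2 = ‖a‖ ^ 2 + ‖b‖ ^ 2 := by linarith
  rw [h1] at hconc
  have h2 := lt_rpow_add ht1 ha hb
  have h3 : gap s a b < 0 := by
    unfold gap
    rw [rpow_half_sq _ (norm_nonneg a), rpow_half_sq _ (norm_nonneg b),
      rpow_half_sq _ (norm_nonneg (a + b)), rpow_half_sq _ (norm_nonneg (a - b))]
    linarith
  exact ⟨h3.le, fun h => absurd h h3.ne⟩

/-- If rotating `a` by a small angle in both directions does not change `‖a + b‖` then `a` or `b`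
vanishes. -/
lemma eq_zero_of_rot {a b : ℂ}
    (h1 : ‖Complex.exp (((1 / 2 : ℝ) : ℂ) * Complex.I) * a + b‖ = ‖a + b‖)
    (h2 : ‖Complex.exp (((-(1 / 2) : ℝ) : ℂ) * Complex.I) * a + b‖ = ‖a + b‖) :
    a = 0 ∨ b = 0 := by
  have key : ∀ t : ℝ, ‖Complex.exp ((t : ℂ) * Complex.I) * a + b‖ ^ 2 = ‖a‖ ^ 2 + ‖b‖ ^ 2 +
      2 * (Real.cos t * (a.re * b.re + a.im * b.im) -
        Real.sin t * (a.im * b.re - a.re * b.im)) := by
    intro t
    rw [Complex.exp_mul_I, ← Complex.ofReal_cos, ← Complex.ofReal_sin]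
    rw [← Complex.normSq_eq_norm_sq, ← Complex.normSq_eq_norm_sq, ← Complex.normSq_eq_norm_sq,
      Complex.normSq_apply, Complex.normSq_apply, Complex.normSq_apply]
    simp only [Complex.add_re, Complex.mul_re, Complex.ofReal_re, Complex.I_re, Complex.ofReal_im,
      Complex.I_im, Complex.add_im, Complex.mul_im]
    have := Real.sin_sq_add_cos_sq t
    ring_nf
    have h3 : Real.sin t ^ 2 = 1 - Real.cos t ^ 2 := by linarith
    rw [h3]
    ring
  have k0 := key 0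
  have k1 := key (1 / 2)
  have k2 := key (-(1 / 2))
  rw [h1] at k1
  rw [h2] at k2
  simp only [Complex.ofReal_zero, zero_mul, Complex.exp_zero, one_mul, Real.cos_zero,
    Real.sin_zero, sub_zero] at k0
  rw [Real.cos_neg, Real.sin_neg] at k2
  set P := a.re * b.re + a.im * b.im with hP
  set Q := a.im * b.re - a.re * b.im with hQ
  have hsin : 0 < Real.sin (1 / 2) := Real.sin_pos_of_pos_of_lt_pi (by norm_num)
    (by linarith [Real.pi_gt_three])
  have hcos : Real.cos (1 / 2) < 1 := by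
    have hh : Real.cos (1 / 2) < Real.cos 0 :=
      Real.cos_lt_cos_of_nonneg_of_le_pi le_rfl (by linarith [Real.pi_gt_three]) (by norm_num)
    rwa [Real.cos_zero] at hh
  have hQ0 : Q = 0 := by
    have : Real.sin (1 / 2) * Q = 0 := by linarith
    rcases mul_eq_zero.mp this with h | h
    · exact absurd h hsin.ne'
    · exact h
  have hP0 : P = 0 := by
    have : (1 - Real.cos (1 / 2)) * P = 0 := by rw [hQ0] at k1; linarith
    rcases mul_eq_zero.mp this with h | h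
    · linarith
    · exact h
  have h3 : a * (starRingEnd ℂ) b = 0 := by
    apply Complex.ext
    · simp [← hP0, hP]
    · simp only [Complex.mul_im, Complex.conj_re, Complex.conj_im, Complex.zero_im]
      rw [← hQ0, hQ]; ring
  rcases mul_eq_zero.mp h3 with h | h
  · exact Or.inl h
  · exact Or.inr (by simpa using h)

end Pointwise

section Lp

variable {Ω : Type*} [MeasurableSpace Ω] {μ : Measure Ω} {p : ℝ≥0∞} [Fact (1 ≤ p)]

lemma toReal_pos' (hp : p ≠ ∞) : 0 < p.toReal :=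
  ENNReal.toReal_pos (zero_lt_one.trans_le (Fact.out (p := 1 ≤ p))).ne' hp

lemma norm_rpow_eq_integral (hp : p ≠ ∞) (f : Lp ℂ p μ) :
    ‖f‖ ^ p.toReal = ∫ x, ‖f x‖ ^ p.toReal ∂μ := by
  have hp0 := toReal_pos' hp
  have hpne : p ≠ 0 := (zero_lt_one.trans_le (Fact.out (p := 1 ≤ p))).ne'
  have hI : 0 ≤ ∫ x, ‖f x‖ ^ p.toReal ∂μ :=
    integral_nonneg fun x => Real.rpow_nonneg (norm_nonneg _) _
  rw [Lp.norm_def, MemLp.eLpNorm_eq_integral_rpow_norm hpne hp (Lp.memLp f),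
    ENNReal.toReal_ofReal (Real.rpow_nonneg hI _), ← Real.rpow_mul hI,
    inv_mul_cancel₀ hp0.ne', Real.rpow_one]

lemma integrable_rpow (hp : p ≠ ∞) (f : Lp ℂ p μ) :
    Integrable (fun x => ‖f x‖ ^ p.toReal) μ :=
  (Lp.memLp f).integrable_norm_rpow (zero_lt_one.trans_le (Fact.out (p := 1 ≤ p))).ne' hp

/-- Disjointness of elements of `L^p`. -/
def Disj (f g : Lp ℂ p μ) : Prop := ∀ᵐ x ∂μ, f x = 0 ∨ g x = 0

lemma Disj.symm {f g : Lp ℂ p μ} (h : Disj f g) : Disj g f := h.mono fun _ hx => hx.symm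

lemma gap_integral (hp : p ≠ ∞) (f g : Lp ℂ p μ) :
    Integrable (fun x => gap p.toReal (f x) (g x)) μ ∧
    ∫ x, gap p.toReal (f x) (g x) ∂μ =
      2 * (‖f‖ ^ p.toReal + ‖g‖ ^ p.toReal) - (‖f + g‖ ^ p.toReal + ‖f - g‖ ^ p.toReal) := by
  have i1 := integrable_rpow hp f
  have i2 := integrable_rpow hp g
  have i3 : Integrable (fun x => ‖f x + g x‖ ^ p.toReal) μ :=
    (integrable_rpow hp (f + g)).congr ((Lp.coeFn_add f g).mono fun x hx => by
      simp only [hx, Pi.add_apply])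
  have i4 : Integrable (fun x => ‖f x - g x‖ ^ p.toReal) μ :=
    (integrable_rpow hp (f - g)).congr ((Lp.coeFn_sub f g).mono fun x hx => by
      simp only [hx, Pi.sub_apply])
  have e3 : ∫ x, ‖f x + g x‖ ^ p.toReal ∂μ = ‖f + g‖ ^ p.toReal := by
    rw [norm_rpow_eq_integral hp]
    exact integral_congr_ae ((Lp.coeFn_add f g).mono fun x hx => by
      simp only [hx, Pi.add_apply])
  have e4 : ∫ x, ‖f x - g x‖ ^ p.toReal ∂μ = ‖f - g‖ ^ p.toReal := by
    rw [norm_rpow_eq_integral hp]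
    exact integral_congr_ae ((Lp.coeFn_sub f g).mono fun x hx => by
      simp only [hx, Pi.sub_apply])
  have i5 : Integrable (fun x => 2 * (‖f x‖ ^ p.toReal + ‖g x‖ ^ p.toReal)) μ :=
    (i1.add i2).const_mul 2
  have i6 : Integrable (fun x => ‖f x + g x‖ ^ p.toReal + ‖f x - g x‖ ^ p.toReal) μ := i3.add i4
  unfold gap
  refine ⟨i5.sub i6, ?_⟩
  rw [integral_sub i5 i6, integral_const_mul,
    integral_add i1 i2, integral_add i3 i4, e3, e4, norm_rpow_eq_integral hp f,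
    norm_rpow_eq_integral hp g]

lemma disj_iff (hp : p ≠ ∞) (hp2 : p ≠ 2) (f g : Lp ℂ p μ) :
    Disj f g ↔ ‖f + g‖ ^ p.toReal + ‖f - g‖ ^ p.toReal =
      2 * (‖f‖ ^ p.toReal + ‖g‖ ^ p.toReal) := by
  obtain ⟨hint, heq⟩ := gap_integral hp f g
  have hp0 := toReal_pos' hp
  constructor
  · intro h
    have h1 : ∫ x, gap p.toReal (f x) (g x) ∂μ = 0 := by
      rw [← integral_zero Ω ℝ (μ := μ)]
      exact integral_congr_ae (h.mono fun x hx => gap_eq_zero hp0 hx)
    linarith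
  · intro h
    have h0 : ∫ x, gap p.toReal (f x) (g x) ∂μ = 0 := by rw [heq]; linarith
    have hne : p.toReal ≠ 2 := by
      intro h2
      apply hp2
      rw [← ENNReal.ofReal_toReal hp, h2]
      simp
    rcases lt_or_gt_of_ne hne with h2 | h2
    · have h3 := (integral_eq_zero_iff_of_nonneg (fun x => (gap_of_lt hp0 h2 (f x) (g x)).1)
        hint).mp h0
      exact h3.mono fun x hx => (gap_of_lt hp0 h2 (f x) (g x)).2 hx
    · have h4 : ∫ x, -gap p.toReal (f x) (g x) ∂μ = 0 := by rw [integral_neg, h0, neg_zero]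
      have h3 := (integral_eq_zero_iff_of_nonneg
        (fun x => neg_nonneg.mpr (gap_of_gt h2 (f x) (g x)).1) hint.neg).mp h4
      exact h3.mono fun x hx => (gap_of_gt h2 (f x) (g x)).2 (neg_eq_zero.mp hx)

/-- Isometries preserve disjointness. -/
lemma Disj.map (hp : p ≠ ∞) (hp2 : p ≠ 2) {V : Lp ℂ p μ →L[ℂ] Lp ℂ p μ}
    (hV : ∀ z, ‖V z‖ = ‖z‖) {f g : Lp ℂ p μ} (h : Disj f g) : Disj (V f) (V g) := by
  rw [disj_iff hp hp2] at h ⊢
  rw [← map_add, ← map_sub, hV, hV, hV, hV]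
  exact h

/-- Restriction of an `L^p` function to a measurable set. -/
noncomputable def ind (A : Set Ω) (hA : MeasurableSet A) (z : Lp ℂ p μ) : Lp ℂ p μ :=
  ((Lp.memLp z).indicator hA).toLp _

lemma ind_coe (A : Set Ω) (hA : MeasurableSet A) (z : Lp ℂ p μ) :
    ind A hA z =ᵐ[μ] A.indicator z := MemLp.coeFn_toLp _

lemma disj_of_disj (hp : p ≠ ∞) (hp2 : p ≠ 2) {V : Lp ℂ p μ →L[ℂ] Lp ℂ p μ}
    (hV : ∀ z, ‖V z‖ = ‖z‖) (hV1 : ∀ b, b ≠ 0 → ‖V b - b‖ < ‖b‖) {z b : Lp ℂ p μ}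
    (h : Disj z b) : Disj (V z) b := by
  classical
  set B : Set Ω := {x | V z x ≠ 0} with hB
  have hBm : MeasurableSet B :=
    (Lp.stronglyMeasurable (V z)).measurable (measurableSet_singleton (0 : ℂ)).compl
  have h1 := ind_coe B hBm b
  have h2 : Disj z (ind B hBm b) := by
    filter_upwards [h, h1] with x hx hx1
    rcases hx with hx | hx
    · exact Or.inl hx
    · right
      rw [hx1, Set.indicator_apply]
      split_ifs
      · exact hx
      · rfl
  have h3 := h2.map hp hp2 hV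
  have h4 : ind B hBm b = 0 := by
    by_contra hne
    refine absurd (hV1 _ hne) (not_lt.mpr ?_)
    refine Lp.norm_le_norm_of_ae_le ?_
    filter_upwards [h3, h1, Lp.coeFn_sub (V (ind B hBm b)) (ind B hBm b)] with x hx hx1 hx2
    rw [hx2, Pi.sub_apply]
    by_cases hxB : x ∈ B
    · rcases hx with hx | hx
      · exact absurd hx hxB
      · rw [hx, zero_sub, norm_neg]
    · rw [hx1, Set.indicator_of_notMem hxB]
      simp
  have h5 : ind B hBm b =ᵐ[μ] 0 := by rw [h4]; exact Lp.coeFn_zero ℂ p μ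
  filter_upwards [h1, h5] with x hx1 hx2
  by_cases hxB : x ∈ B
  · right
    rw [hx1, Set.indicator_of_mem hxB] at hx2
    simpa using hx2
  · left
    simpa [hB] using hxB

/-- A small isometry does not change the modulus. -/
lemma norm_eq_ae (hp : p ≠ ∞) (hp2 : p ≠ 2) {V : Lp ℂ p μ →L[ℂ] Lp ℂ p μ}
    (hV : ∀ z, ‖V z‖ = ‖z‖) (hV1 : ∀ b, b ≠ 0 → ‖V b - b‖ < ‖b‖) (z : Lp ℂ p μ) :
    ∀ᵐ x ∂μ, ‖V z x‖ = ‖z x‖ := by
  classical
  have hp0 := toReal_pos' hp
  -- locality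
  have hloc : ∀ (A : Set Ω) (hA : MeasurableSet A) (y : Lp ℂ p μ),
      ∀ᵐ x ∂μ, x ∈ A → V (ind Aᶜ hA.compl y) x = 0 := by
    intro A hA y
    have h1 : Disj (ind Aᶜ hA.compl y) (ind A hA (V (ind Aᶜ hA.compl y))) := by
      filter_upwards [ind_coe Aᶜ hA.compl y, ind_coe A hA (V (ind Aᶜ hA.compl y))] with x h1 h2
      by_cases hx : x ∈ A
      · left; rw [h1, Set.indicator_of_notMem (by simpa using hx)]
      · right; rw [h2, Set.indicator_of_notMem hx]
    have h2 := disj_of_disj hp hp2 hV hV1 h1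
    filter_upwards [h2, ind_coe A hA (V (ind Aᶜ hA.compl y))] with x h3 h4 hx
    rcases h3 with h3 | h3
    · exact h3
    · rw [h4, Set.indicator_of_mem hx] at h3
      exact h3
  have hset : ∀ (A : Set Ω), MeasurableSet A →
      ∫ x in A, ‖V z x‖ ^ p.toReal ∂μ = ∫ x in A, ‖z x‖ ^ p.toReal ∂μ := by
    intro A hA
    have hsplit : z = ind A hA z + ind Aᶜ hA.compl z := by
      refine Lp.ext ?_
      filter_upwards [ind_coe A hA z, ind_coe Aᶜ hA.compl z,
        Lp.coeFn_add (ind A hA z) (ind Aᶜ hA.compl z)] with x h1 h2 h3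
      rw [h3, Pi.add_apply, h1, h2]
      by_cases hx : x ∈ A
      · rw [Set.indicator_of_mem hx, Set.indicator_of_notMem (by simpa using hx), add_zero]
      · rw [Set.indicator_of_notMem hx, Set.indicator_of_mem (by simpa using hx), zero_add]
    have h1 : ∀ᵐ x ∂μ, V z x = V (ind A hA z) x + V (ind Aᶜ hA.compl z) x := by
      have : V z = V (ind A hA z) + V (ind Aᶜ hA.compl z) := by rw [← map_add, ← hsplit]
      rw [this]
      exact Lp.coeFn_add _ _
    have hAcc : Aᶜᶜ = A := compl_compl A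
    have h2 : ∀ᵐ x ∂μ, x ∉ A → V (ind A hA z) x = 0 := by
      have := hloc Aᶜ hA.compl z
      have e : ind Aᶜᶜ hA.compl.compl z = ind A hA z := by
        congr 1
      rw [e] at this
      filter_upwards [this] with x hx hxA using hx hxA
    have h3 := hloc A hA z
    have h4 : ∫ x in A, ‖V z x‖ ^ p.toReal ∂μ = ‖V (ind A hA z)‖ ^ p.toReal := by
      rw [norm_rpow_eq_integral hp, ← integral_indicator hA]
      refine integral_congr_ae ?_
      filter_upwards [h1, h2, h3] with x g1 g2 g3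
      by_cases hx : x ∈ A
      · rw [Set.indicator_of_mem hx, g1, g3 hx, add_zero]
      · rw [Set.indicator_of_notMem hx, g2 hx, norm_zero, Real.zero_rpow hp0.ne']
    have h5 : ∫ x in A, ‖z x‖ ^ p.toReal ∂μ = ‖ind A hA z‖ ^ p.toReal := by
      rw [norm_rpow_eq_integral hp, ← integral_indicator hA]
      refine integral_congr_ae ?_
      filter_upwards [ind_coe A hA z] with x g1
      rw [g1]
      by_cases hx : x ∈ A
      · rw [Set.indicator_of_mem hx, Set.indicator_of_mem hx]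
      · rw [Set.indicator_of_notMem hx, Set.indicator_of_notMem hx, norm_zero,
          Real.zero_rpow hp0.ne']
    rw [h4, h5, hV]
  have hae : (fun x => ‖V z x‖ ^ p.toReal) =ᵐ[μ] fun x => ‖z x‖ ^ p.toReal :=
    Integrable.ae_eq_of_forall_setIntegral_eq _ _ (integrable_rpow hp _) (integrable_rpow hp _)
      fun A hA _ => hset A hA
  filter_upwards [hae] with x hx
  exact (Real.rpow_left_inj (norm_nonneg _) (norm_nonneg _) hp0.ne').mp hx

/-- **Additivity of the norm.** -/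
theorem norm_add_rpow_of_isom (hp : p ≠ ∞) (V : ℝ → (Lp ℂ p μ →L[ℂ] Lp ℂ p μ))
    (hV : ∀ t z, ‖V t z‖ = ‖z‖) (hV1 : ∀ t, |t| ≤ 1 / 2 → ∀ b, b ≠ 0 → ‖V t b - b‖ < ‖b‖)
    {w₁ w₂ : Lp ℂ p μ} (hw₁ : ∀ t : ℝ, V t w₁ = Complex.exp ((t : ℂ) * Complex.I) • w₁)
    (hw₂ : ∀ t, V t w₂ = w₂) :
    ‖w₁ + w₂‖ ^ p.toReal = ‖w₁‖ ^ p.toReal + ‖w₂‖ ^ p.toReal := by
  by_cases hp2 : p = 2
  · subst hp2
    have h1 : ‖w₁ + w₂‖ = ‖w₁ - w₂‖ := by
      have := hV Real.pi (w₁ + w₂)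
      rw [map_add, hw₁, hw₂, Complex.exp_pi_mul_I, neg_one_smul] at this
      rw [← this, ← norm_neg, neg_add, neg_neg, ← sub_eq_add_neg]
    have hpar := parallelogram_law_with_norm ℂ w₁ w₂
    rw [← h1] at hpar
    simp only [ENNReal.toReal_ofNat, Real.rpow_ofNat]
    nlinarith
  · have hp0 := toReal_pos' hp
    have h1 : ∀ t : ℝ, |t| ≤ 1 / 2 → ∀ᵐ x ∂μ,
        ‖Complex.exp ((t : ℂ) * Complex.I) * w₁ x + w₂ x‖ = ‖w₁ x + w₂ x‖ := by
      intro t ht
      have h2 := norm_eq_ae hp hp2 (hV t) (hV1 t ht) (w₁ + w₂)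
      rw [map_add, hw₁, hw₂] at h2
      filter_upwards [h2, Lp.coeFn_add w₁ w₂,
        Lp.coeFn_add (Complex.exp ((t : ℂ) * Complex.I) • w₁) w₂,
        Lp.coeFn_smul (Complex.exp ((t : ℂ) * Complex.I)) w₁] with x g1 g2 g3 g4
      rw [g2, g3, Pi.add_apply, Pi.add_apply, g4, Pi.smul_apply, smul_eq_mul] at g1
      exact g1
    have h2 : Disj w₁ w₂ := by
      filter_upwards [h1 (1 / 2) (by norm_num), h1 (-(1 / 2)) (by norm_num)] with x g1 g2
      exact eq_zero_of_rot g1 g2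
    rw [norm_rpow_eq_integral hp, norm_rpow_eq_integral hp, norm_rpow_eq_integral hp,
      ← integral_add (integrable_rpow hp _) (integrable_rpow hp _)]
    refine integral_congr_ae ?_
    filter_upwards [h2, Lp.coeFn_add w₁ w₂] with x g1 g2
    rw [g2, Pi.add_apply]
    rcases g1 with g1 | g1
    · simp [g1, Real.zero_rpow hp0.ne']
    · simp [g1, Real.zero_rpow hp0.ne']

end Lp

end Pool.Agent.Lib.MP_5d4768_an
end

section

section

set_option autoImplicit false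
set_option linter.unusedSectionVars false

/-!
# Construction of the regular representations
-/

open scoped ENNReal
open MeasureTheory

namespace Pool.Agent.Lib.MP_5d4768_an

section Regular

variable {E : Type*} [NormedAddCommGroup E] [NormedSpace ℂ E] {p : ℝ≥0∞} [Fact (1 ≤ p)]

lemma memℓp_comp (σ : ℤ ≃ ℤ) {ξ : ℤ → E} (hξ : Memℓp ξ p) : Memℓp (fun n => ξ (σ n)) p := by
  have hp1 : (1 : ℝ≥0∞) ≤ p := Fact.out
  rcases eq_or_ne p ∞ with rfl | hp
  · refine memℓp_infty ?_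
    have h1 := hξ.bddAbove
    refine h1.mono ?_
    rintro _ ⟨n, rfl⟩
    exact ⟨σ n, rfl⟩
  · have hp0 : 0 < p.toReal := ENNReal.toReal_pos (zero_lt_one.trans_le hp1).ne' hp
    refine memℓp_gen ?_
    have h1 := hξ.summable hp0
    exact (Equiv.summable_iff σ).mpr h1

lemma norm_comp_eq (σ : ℤ ≃ ℤ) (ξ η : LZ E p) (h : ∀ n, η n = ξ (σ n)) : ‖η‖ = ‖ξ‖ := by
  have hp1 : (1 : ℝ≥0∞) ≤ p := Fact.out
  rcases eq_or_ne p ∞ with rfl | hp
  · rw [lp.norm_eq_ciSup, lp.norm_eq_ciSup]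
    simp only [h]
    exact σ.iSup_congr fun _ => rfl
  · have hp0 : 0 < p.toReal := ENNReal.toReal_pos (zero_lt_one.trans_le hp1).ne' hp
    rw [lp.norm_eq_tsum_rpow hp0, lp.norm_eq_tsum_rpow hp0]
    simp only [h]
    rw [σ.tsum_eq (fun n => ‖ξ n‖ ^ p.toReal)]

/-- The map `ξ ↦ (n ↦ ξ (σ n))` on `ℓ^p(ℤ, E)`. -/
noncomputable def reindex (σ : ℤ ≃ ℤ) : LZ E p ≃ₗᵢ[ℂ] LZ E p where
  toFun ξ := ⟨fun n => ξ (σ n), memℓp_comp σ (lp.memℓp ξ)⟩
  invFun ξ := ⟨fun n => ξ (σ.symm n), memℓp_comp σ.symm (lp.memℓp ξ)⟩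
  map_add' _ _ := rfl
  map_smul' _ _ := rfl
  left_inv ξ := by
    apply lp.ext
    funext n
    change ξ (σ (σ.symm n)) = ξ n
    rw [σ.apply_symm_apply]
  right_inv ξ := by
    apply lp.ext
    funext n
    change ξ (σ.symm (σ n)) = ξ n
    rw [σ.symm_apply_apply]
  norm_map' ξ := norm_comp_eq σ ξ _ fun _ => rfl

/-- The shift `(v ξ)(n) = ξ (n - 1)` on `ℓ^p(ℤ, E)`. -/
noncomputable def shift : LZ E p ≃ₗᵢ[ℂ] LZ E p := reindex (Equiv.subRight 1)

lemma shift_apply (ξ : LZ E p) (n : ℤ) : (shift ξ : LZ E p) n = ξ (n - 1) := rfl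

lemma shift_symm_apply (ξ : LZ E p) (n : ℤ) : (shift.symm ξ : LZ E p) n = ξ (n + 1) := rfl

lemma norm_diag_le (T : ℤ → E →L[ℂ] E) (C : ℝ) (hT : ∀ n, ‖T n‖ ≤ C) (ξ : LZ E p) (n : ℤ) :
    ‖T n (ξ n)‖ ≤ ‖((C : ℂ) • ξ) n‖ := by
  have hC : 0 ≤ C := (norm_nonneg _).trans (hT 0)
  rw [lp.coeFn_smul, Pi.smul_apply, norm_smul, Complex.norm_real, Real.norm_of_nonneg hC]
  exact (T n).le_of_opNorm_le (hT n) _

/-- The diagonal operator `ξ ↦ (n ↦ T n (ξ n))` on `ℓ^p(ℤ, E)`. -/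
noncomputable def diag (T : ℤ → E →L[ℂ] E) (C : ℝ) (hT : ∀ n, ‖T n‖ ≤ C) :
    LZ E p →L[ℂ] LZ E p :=
  LinearMap.mkContinuous
    { toFun := fun ξ => ⟨fun n => T n (ξ n),
        (lp.memℓp ((C : ℂ) • ξ)).mono' (norm_diag_le T C hT ξ)⟩
      map_add' := fun ξ η => lp.ext (funext fun n => map_add (T n) (ξ n) (η n))
      map_smul' := fun c ξ => lp.ext (funext fun n => map_smul (T n) c (ξ n)) } C
    (fun ξ => by
      have hC : 0 ≤ C := (norm_nonneg _).trans (hT 0)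
      have hp1 : (1 : ℝ≥0∞) ≤ p := Fact.out
      have h1 := lp.norm_mono (zero_lt_one.trans_le hp1).ne'
        (x := ⟨fun n => T n (ξ n), (lp.memℓp ((C : ℂ) • ξ)).mono' (norm_diag_le T C hT ξ)⟩)
        (norm_diag_le T C hT ξ)
      rwa [norm_smul, Complex.norm_real, Real.norm_of_nonneg hC] at h1)

lemma diag_apply (T : ℤ → E →L[ℂ] E) (C : ℝ) (hT : ∀ n, ‖T n‖ ≤ C) (ξ : LZ E p) (n : ℤ) :
    (diag T C hT ξ : LZ E p) n = T n (ξ n) := rfl

lemma norm_diag_opNorm (T : ℤ → E →L[ℂ] E) (C : ℝ) (hT : ∀ n, ‖T n‖ ≤ C) :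
    ‖(diag T C hT : LZ E p →L[ℂ] LZ E p)‖ ≤ C :=
  LinearMap.mkContinuous_norm_le _ ((norm_nonneg _).trans (hT 0)) _

variable {X : Type*} [TopologicalSpace X] [CompactSpace X]

lemma Rep.norm_π_alpha (π₀ : Rep X E) (h : X ≃ₜ X) (f : C(X, ℂ)) (n : ℤ) :
    ‖π₀.π (alpha h (-n) f)‖ ≤ ‖f‖ :=
  (π₀.contractive _).trans (norm_alpha _ _).le

variable (p) in
/-- The diagonal operator `(π(f) ξ)(n) = π₀(α^{-n}(f)) ξ(n)`. -/
noncomputable def regOp (h : X ≃ₜ X) (π₀ : Rep X E) (f : C(X, ℂ)) : LZ E p →L[ℂ] LZ E p :=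
  diag (fun n => π₀.π (alpha h (-n) f)) ‖f‖ (π₀.norm_π_alpha h f)

lemma regOp_apply (h : X ≃ₜ X) (π₀ : Rep X E) (f : C(X, ℂ)) (ξ : LZ E p) (n : ℤ) :
    (regOp p h π₀ f ξ : LZ E p) n = π₀.π (alpha h (-n) f) (ξ n) := rfl

lemma regOp_add (h : X ≃ₜ X) (π₀ : Rep X E) (f g : C(X, ℂ)) :
    regOp p h π₀ (f + g) = regOp p h π₀ f + regOp p h π₀ g := by
  ext ξ n
  change π₀.π (alpha h (-n) (f + g)) (ξ n) =
    π₀.π (alpha h (-n) f) (ξ n) + π₀.π (alpha h (-n) g) (ξ n)
  rw [alpha_map_add, map_add]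
  rfl

lemma regOp_zero (h : X ≃ₜ X) (π₀ : Rep X E) : regOp p h π₀ 0 = 0 := by
  ext ξ n
  change π₀.π (alpha h (-n) 0) (ξ n) = 0
  rw [alpha_map_zero, map_zero]
  rfl

lemma regOp_smul (h : X ≃ₜ X) (π₀ : Rep X E) (c : ℂ) (f : C(X, ℂ)) :
    regOp p h π₀ (c • f) = c • regOp p h π₀ f := by
  ext ξ n
  change π₀.π (alpha h (-n) (c • f)) (ξ n) = c • π₀.π (alpha h (-n) f) (ξ n)
  rw [alpha_smul, map_smul]
  rfl

lemma regOp_mul (h : X ≃ₜ X) (π₀ : Rep X E) (f g : C(X, ℂ)) :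
    regOp p h π₀ (f * g) = regOp p h π₀ f * regOp p h π₀ g := by
  ext ξ n
  change π₀.π (alpha h (-n) (f * g)) (ξ n) =
    π₀.π (alpha h (-n) f) (π₀.π (alpha h (-n) g) (ξ n))
  rw [alpha_mul, map_mul]
  rfl

lemma norm_regOp_le (h : X ≃ₜ X) (π₀ : Rep X E) (f : C(X, ℂ)) :
    ‖(regOp p h π₀ f : LZ E p →L[ℂ] LZ E p)‖ ≤ ‖f‖ := norm_diag_opNorm _ _ _

lemma regOp_one (h : X ≃ₜ X) (π₀ : Rep X E) (ξ : LZ E p) : regOp p h π₀ 1 ξ = ξ := by
  ext n
  rw [regOp_apply, alpha_one, π₀.π_one]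
  rfl

lemma regOp_nondegenerate (h : X ≃ₜ X) (π₀ : Rep X E) :
    Dense (Submodule.span ℂ {ξ : LZ E p | ∃ f η, ξ = regOp p h π₀ f η} : Set (LZ E p)) :=
  dense_univ.mono fun ξ _ => Submodule.subset_span ⟨1, ξ, (regOp_one h π₀ ξ).symm⟩

lemma regOp_covariant (h : X ≃ₜ X) (π₀ : Rep X E) (f : C(X, ℂ)) (ξ : LZ E p) :
    shift (regOp p h π₀ f (shift.symm ξ)) = regOp p h π₀ (alpha h 1 f) ξ := by
  ext n
  change π₀.π (alpha h (-(n - 1)) f) (ξ ((n - 1) + 1)) = π₀.π (alpha h (-n) (alpha h 1 f)) (ξ n)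
  rw [← alpha_add, sub_add_cancel, neg_sub, sub_eq_add_neg, add_comm]

/-- The regular representation on `ℓ^p(ℤ, E)` given by a representation `π₀` of `C(X)` on `E`:
`(π(f) ξ)(n) = π₀(α^{-n}(f)) ξ(n)` and `(v ξ)(n) = ξ(n - 1)`. -/
noncomputable def regular (p : ℝ≥0∞) [Fact (1 ≤ p)] (h : X ≃ₜ X) (π₀ : Rep X E) :
    CovRep h (LZ E p) where
  π :=
    { toFun := regOp p h π₀
      map_smul' := regOp_smul h π₀
      map_zero' := regOp_zero h π₀
      map_add' := regOp_add h π₀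
      map_mul' := regOp_mul h π₀ }
  contractive := norm_regOp_le h π₀
  nondegenerate := regOp_nondegenerate h π₀
  v := shift
  covariant := regOp_covariant h π₀

lemma isRegular_regular (p : ℝ≥0∞) [Fact (1 ≤ p)] (h : X ≃ₜ X) (π₀ : Rep X E) :
    IsRegular π₀ (regular p h π₀) :=
  ⟨fun _ _ _ => rfl, fun _ _ => rfl⟩

end Regular

end Pool.Agent.Lib.MP_5d4768_an
end

section

set_option autoImplicit false
set_option linter.unusedSectionVars false

/-!
# `ℓ^p(ℤ)` as the `L^p` space of the counting measure, and conjugation of representations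
-/

open scoped ENNReal Topology
open Filter MeasureTheory

namespace Pool.Agent.Lib.MP_5d4768_an

section Count

variable {p : ℝ≥0∞} [Fact (1 ≤ p)]

lemma ofReal_norm_rpow (x : ℂ) {s : ℝ} (hs : 0 ≤ s) :
    ENNReal.ofReal (‖x‖ ^ s) = ‖x‖ₑ ^ s := by
  rw [← ENNReal.ofReal_rpow_of_nonneg (norm_nonneg _) hs, ofReal_norm]

lemma tsum_lt_top_iff (hp : p ≠ ∞) (ξ : ℤ → ℂ) :
    ∑' n, ‖ξ n‖ₑ ^ p.toReal < ∞ ↔ Summable fun n => ‖ξ n‖ ^ p.toReal := by
  have hp0 := toReal_pos' hp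
  simp only [← ofReal_norm_rpow _ hp0.le]
  constructor
  · intro h
    have h1 := ENNReal.summable_toReal h.ne
    refine h1.congr fun n => ?_
    rw [ENNReal.toReal_ofReal (Real.rpow_nonneg (norm_nonneg _) _)]
  · intro h
    exact h.tsum_ofReal_lt_top

lemma memLp_count_iff (hp : p ≠ ∞) (ξ : ℤ → ℂ) :
    MemLp ξ p (Measure.count : Measure ℤ) ↔ Memℓp ξ p := by
  have hp0 := toReal_pos' hp
  have hpne : p ≠ 0 := (zero_lt_one.trans_le (Fact.out (p := 1 ≤ p))).ne'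
  have hm : AEStronglyMeasurable ξ (Measure.count : Measure ℤ) :=
    (measurable_of_countable ξ).aestronglyMeasurable
  rw [memℓp_gen_iff hp0, ← tsum_lt_top_iff hp, ← lintegral_count,
    ← eLpNorm_lt_top_iff_lintegral_rpow_enorm_lt_top hpne hp]
  exact ⟨fun h => h.2, fun h => ⟨hm, h⟩⟩

lemma norm_toLp_count (hp : p ≠ ∞) (ξ : LZ ℂ p) :
    ‖((memLp_count_iff hp _).mpr (lp.memℓp ξ)).toLp ξ‖ = ‖ξ‖ := by
  have hp0 := toReal_pos' hp
  have hpne : p ≠ 0 := (zero_lt_one.trans_le (Fact.out (p := 1 ≤ p))).ne'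
  rw [Lp.norm_toLp, eLpNorm_eq_lintegral_rpow_enorm_toReal hpne hp, lintegral_count,
    lp.norm_eq_tsum_rpow hp0, ← ENNReal.toReal_rpow, ENNReal.tsum_toReal_eq]
  · congr 1
    refine tsum_congr fun n => ?_
    rw [← ofReal_norm_rpow _ hp0.le, ENNReal.toReal_ofReal (Real.rpow_nonneg (norm_nonneg _) _)]
  · intro n
    exact ENNReal.rpow_ne_top_of_nonneg hp0.le enorm_ne_top

/-- `ℓ^p(ℤ) ≃ L^p(counting measure)`. -/
noncomputable def countEquiv (hp : p ≠ ∞) : LZ ℂ p ≃ₗᵢ[ℂ] Lp ℂ p (Measure.count : Measure ℤ) :=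
  LinearIsometryEquiv.ofSurjective
    { toFun := fun ξ => ((memLp_count_iff hp _).mpr (lp.memℓp ξ)).toLp ξ
      map_add' := fun _ _ => rfl
      map_smul' := fun _ _ => rfl
      norm_map' := norm_toLp_count hp } (by
    intro f
    refine ⟨⟨fun n => f n, (memLp_count_iff hp _).mp (Lp.memLp f)⟩, ?_⟩
    exact Lp.toLp_coeFn f (Lp.memLp f))

end Count

section Conj

variable {X : Type*} [TopologicalSpace X] [CompactSpace X] {h : X ≃ₜ X}
variable {E F : Type*} [NormedAddCommGroup E] [NormedSpace ℂ E] [NormedAddCommGroup F]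
  [NormedSpace ℂ F]

/-- Conjugation of operators by an invertible isometry. -/
noncomputable def conjOp (Φ : E ≃ₗᵢ[ℂ] F) (T : E →L[ℂ] E) : F →L[ℂ] F :=
  (Φ.toContinuousLinearEquiv : E →L[ℂ] F).comp (T.comp
    (Φ.symm.toContinuousLinearEquiv : F →L[ℂ] E))

lemma conjOp_apply (Φ : E ≃ₗᵢ[ℂ] F) (T : E →L[ℂ] E) (ξ : F) :
    conjOp Φ T ξ = Φ (T (Φ.symm ξ)) := rfl

lemma norm_conjOp_le (Φ : E ≃ₗᵢ[ℂ] F) (T : E →L[ℂ] E) : ‖conjOp Φ T‖ ≤ ‖T‖ := by
  refine ContinuousLinearMap.opNorm_le_bound _ (norm_nonneg _) fun ξ => ?_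
  rw [conjOp_apply, Φ.norm_map]
  refine (T.le_opNorm _).trans ?_
  rw [Φ.symm.norm_map]

lemma norm_conjOp (Φ : E ≃ₗᵢ[ℂ] F) (T : E →L[ℂ] E) : ‖conjOp Φ T‖ = ‖T‖ := by
  refine le_antisymm (norm_conjOp_le Φ T) ?_
  have h1 : conjOp Φ.symm (conjOp Φ T) = T := by
    ext ξ
    simp [conjOp_apply]
  calc ‖T‖ = ‖conjOp Φ.symm (conjOp Φ T)‖ := by rw [h1]
    _ ≤ _ := norm_conjOp_le _ _

/-- Conjugation of a covariant representation by an invertible isometry. -/
noncomputable def CovRep.conj (Φ : E ≃ₗᵢ[ℂ] F) (ρ : CovRep h E) : CovRep h F where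
  π :=
    { toFun := fun f => conjOp Φ (ρ.π f)
      map_smul' := fun c f => by ext ξ; simp [conjOp_apply]
      map_zero' := by ext ξ; simp [conjOp_apply]
      map_add' := fun f g => by ext ξ; simp [conjOp_apply]
      map_mul' := fun f g => by ext ξ; simp [conjOp_apply] }
  contractive f := (norm_conjOp_le Φ _).trans (ρ.contractive f)
  nondegenerate := by
    refine dense_univ.mono fun ξ _ => Submodule.subset_span ⟨1, ξ, ?_⟩
    change ξ = Φ (ρ.π 1 (Φ.symm ξ))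
    rw [ρ.π_one]
    simp
  v := (Φ.symm.trans ρ.v).trans Φ
  covariant f ξ := by
    change Φ (ρ.v (Φ.symm (Φ (ρ.π f (Φ.symm (Φ (ρ.v.symm (Φ.symm ξ)))))))) =
      Φ (ρ.π (alpha h 1 f) (Φ.symm ξ))
    rw [Φ.symm_apply_apply, Φ.symm_apply_apply, ρ.covariant]

lemma CovRep.conj_π (Φ : E ≃ₗᵢ[ℂ] F) (ρ : CovRep h E) (f : C(X, ℂ)) :
    (ρ.conj Φ).π f = conjOp Φ (ρ.π f) := rfl

lemma CovRep.conj_vpow (Φ : E ≃ₗᵢ[ℂ] F) (ρ : CovRep h E) (n : ℤ) :
    vpow (ρ.conj Φ).v n = conjOp Φ (vpow ρ.v n) := by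
  have h1 : ∀ ξ, vpow (ρ.conj Φ).v 1 ξ = conjOp Φ (vpow ρ.v 1) ξ := by
    intro ξ
    rw [vpow_one, conjOp_apply, vpow_one]
    rfl
  have h2 : ∀ ξ, vpow (ρ.conj Φ).v (-1) ξ = conjOp Φ (vpow ρ.v (-1)) ξ := by
    intro ξ
    rw [vpow_neg_one, conjOp_apply, vpow_neg_one]
    rfl
  induction n using Int.induction_on with
  | zero => ext ξ; rw [vpow_zero, vpow_zero, conjOp_apply]; simp
  | succ n ih =>
    ext ξ
    rw [vpow_add, mul_apply_eq_comp, ih, h1, vpow_add, conjOp_apply, conjOp_apply, conjOp_apply,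
      mul_apply_eq_comp, Φ.symm_apply_apply]
  | pred n ih =>
    ext ξ
    rw [sub_eq_add_neg, vpow_add, mul_apply_eq_comp, ih, h2, vpow_add, conjOp_apply, conjOp_apply,
      conjOp_apply, mul_apply_eq_comp, Φ.symm_apply_apply]

lemma CovRep.conj_integrated (Φ : E ≃ₗᵢ[ℂ] F) (ρ : CovRep h E) (a : Cc h) :
    (ρ.conj Φ).integrated a = conjOp Φ (ρ.integrated a) := by
  induction a using SkewMonoidAlgebra.induction_on with
  | zero => rw [integrated_zero, integrated_zero]; ext ξ; simp [conjOp_apply]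
  | single g f =>
    rw [integrated_single, integrated_single, conj_vpow]
    ext ξ
    rw [mul_apply_eq_comp, conj_π, conjOp_apply, conjOp_apply, conjOp_apply, mul_apply_eq_comp,
      Φ.symm_apply_apply]
  | add a b ha hb =>
    rw [integrated_add, integrated_add, ha, hb]
    ext ξ
    simp [conjOp_apply]

lemma CovRep.norm_conj_integrated (Φ : E ≃ₗᵢ[ℂ] F) (ρ : CovRep h E) (a : Cc h) :
    ‖(ρ.conj Φ).integrated a‖ = ‖ρ.integrated a‖ := by
  rw [conj_integrated, norm_conjOp]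

end Conj

end Pool.Agent.Lib.MP_5d4768_an
end

section

set_option autoImplicit false
set_option linter.unusedSectionVars false

/-!
# The orbit representations on `ℓ^p(ℤ)` and the coefficients of elements of the crossed products
-/

open scoped ENNReal Topology
open Filter MeasureTheory

namespace Pool.Agent.Lib.MP_5d4768_an

section Eval

variable {X : Type*} [TopologicalSpace X] [CompactSpace X] {h : X ≃ₜ X}

/-- Evaluation at a point, as a representation on any Banach space. -/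
noncomputable def evalRep (E : Type*) [NormedAddCommGroup E] [NormedSpace ℂ E] (x : X) :
    Rep X E where
  π :=
    { toFun := fun f => f x • (1 : E →L[ℂ] E)
      map_smul' := fun c f => by rw [ContinuousMap.smul_apply, smul_assoc]; rfl
      map_zero' := by simp
      map_add' := fun f g => by rw [ContinuousMap.add_apply, add_smul]
      map_mul' := fun f g => by
        ext ξ
        change (f x * g x) • ξ = f x • g x • ξ
        rw [mul_smul] }
  contractive f := by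
    refine ContinuousLinearMap.opNorm_le_bound _ (norm_nonneg _) fun ξ => ?_
    change ‖f x • ξ‖ ≤ _
    rw [norm_smul]
    gcongr
    exact ContinuousMap.norm_coe_le_norm f x
  nondegenerate := by
    refine dense_univ.mono fun ξ _ => Submodule.subset_span ⟨1, ξ, ?_⟩
    change ξ = (1 : C(X, ℂ)) x • ξ
    rw [ContinuousMap.one_apply, one_smul]

lemma evalRep_apply (E : Type*) [NormedAddCommGroup E] [NormedSpace ℂ E] (x : X) (f : C(X, ℂ))
    (ξ : E) : (evalRep E x).π f ξ = f x • ξ := rfl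

variable {E : Type*} [NormedAddCommGroup E] [NormedSpace ℂ E] {p : ℝ≥0∞} [Fact (1 ≤ p)]

lemma vpow_shift {v : LZ E p ≃ₗᵢ[ℂ] LZ E p} (hv : ∀ ξ n, (v ξ : LZ E p) n = ξ (n - 1)) (n : ℤ)
    (ξ : LZ E p) (m : ℤ) : (vpow v n ξ : LZ E p) m = ξ (m - n) := by
  have hv' : ∀ (ξ : LZ E p) n, (v.symm ξ : LZ E p) n = ξ (n + 1) := by
    intro ξ n
    have h1 := hv (v.symm ξ) (n + 1)
    rw [v.apply_symm_apply, add_sub_cancel_right] at h1
    exact h1.symm
  induction n using Int.induction_on generalizing ξ m with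
  | zero => rw [vpow_zero, sub_zero]; rfl
  | succ n ih =>
    rw [vpow_add, mul_apply_eq_comp, ih, vpow_one, hv, sub_sub]
  | pred n ih =>
    have e1 : m - -(n : ℤ) + 1 = m - (-(n : ℤ) - 1) := by ring
    rw [sub_eq_add_neg (-(n : ℤ)), vpow_add, mul_apply_eq_comp, ih, vpow_neg_one,
      hv', e1, sub_eq_add_neg (-(n : ℤ))]

lemma IsRegular.single {π₀ : Rep X E} {ρ : CovRep h (LZ E p)} (hρ : IsRegular π₀ ρ) (g : ZAct h)
    (f : C(X, ℂ)) (ξ : LZ E p) (m : ℤ) :
    (ρ.integrated (SkewMonoidAlgebra.single g f) ξ : LZ E p) m =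
      π₀.π (alpha h (-m) f) (ξ (m - g.toInt)) := by
  rw [CovRep.integrated_single, mul_apply_eq_comp, hρ.π_apply, vpow_shift hρ.v_apply]

lemma regular_single (π₀ : Rep X E) (g : ZAct h) (f : C(X, ℂ)) (ξ : LZ E p) (m : ℤ) :
    ((regular p h π₀).integrated (SkewMonoidAlgebra.single g f) ξ : LZ E p) m =
      π₀.π (alpha h (-m) f) (ξ (m - g.toInt)) :=
  (isRegular_regular p h π₀).single g f ξ m

/-- The isometric embedding `ξ ↦ (n ↦ ξ(n) e)`. -/
noncomputable def embed (e : E) (he : ‖e‖ = 1) : LZ ℂ p →ₗᵢ[ℂ] LZ E p where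
  toFun ξ := ⟨fun n => ξ n • e, (lp.memℓp ξ).mono' fun n => by rw [norm_smul, he, mul_one]⟩
  map_add' ξ η := lp.ext (funext fun n => add_smul (ξ n) (η n) e)
  map_smul' c ξ := lp.ext (funext fun n => mul_smul c (ξ n) e)
  norm_map' ξ := by
    have hpne : p ≠ 0 := (zero_lt_one.trans_le (Fact.out (p := 1 ≤ p))).ne'
    refine le_antisymm (lp.norm_mono hpne fun n => ?_) (lp.norm_mono hpne fun n => ?_)
    · change ‖ξ n • e‖ ≤ _
      rw [norm_smul, he, mul_one]
    · change _ ≤ ‖ξ n • e‖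
      rw [norm_smul, he, mul_one]

lemma embed_apply (e : E) (he : ‖e‖ = 1) (ξ : LZ ℂ p) (n : ℤ) :
    (embed e he ξ : LZ E p) n = ξ n • e := rfl

lemma embed_intertwines (e : E) (he : ‖e‖ = 1) (x : X) (a : Cc h) (ξ : LZ ℂ p) :
    (regular p h (evalRep E x)).integrated a (embed e he ξ) =
      embed e he ((regular p h (evalRep ℂ x)).integrated a ξ) := by
  induction a using SkewMonoidAlgebra.induction_on with
  | zero => rw [CovRep.integrated_zero, CovRep.integrated_zero]; simp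
  | single g f =>
    ext m
    rw [regular_single, embed_apply, embed_apply, regular_single, evalRep_apply, evalRep_apply,
      smul_assoc]
  | add a b ha hb =>
    rw [CovRep.integrated_add, CovRep.integrated_add, _root_.add_apply, _root_.add_apply, ha, hb,
      map_add]

/-- The orbit representation on `ℓ^p(ℤ)` at the point `x`. -/
noncomputable def lam (p : ℝ≥0∞) [Fact (1 ≤ p)] (h : X ≃ₜ X) (x : X) : CovRep h (LZ ℂ p) :=
  regular p h (evalRep ℂ x)

lemma norm_lam_le (e : E) (he : ‖e‖ = 1) (x : X) (a : Cc h) :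
    ‖(lam p h x).integrated a‖ ≤ ‖(regular p h (evalRep E x)).integrated a‖ := by
  refine ContinuousLinearMap.opNorm_le_bound _ (norm_nonneg _) fun ξ => ?_
  calc ‖(lam p h x).integrated a ξ‖ = ‖embed e he ((lam p h x).integrated a ξ)‖ :=
        ((embed e he).norm_map _).symm
    _ = ‖(regular p h (evalRep E x)).integrated a (embed e he ξ)‖ := by
        rw [embed_intertwines]; rfl
    _ ≤ ‖(regular p h (evalRep E x)).integrated a‖ * ‖embed e he ξ‖ :=
        ContinuousLinearMap.le_opNorm _ _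
    _ = _ := by rw [(embed e he).norm_map]

lemma lam_le_red (hp : p ≠ ∞) (x : X) (a : Cc h) :
    ‖(lam p h x).integrated a‖ ≤ redSeminorm p h a := by
  have hpne : p ≠ 0 := (zero_lt_one.trans_le (Fact.out (p := 1 ≤ p))).ne'
  have hfin : (Measure.dirac () : Measure Unit) Set.univ ≠ ∞ := by simp
  let e : Lp ℂ p (Measure.dirac () : Measure Unit) :=
    indicatorConstLp p MeasurableSet.univ hfin 1
  have he : ‖e‖ = 1 := by
    rw [norm_indicatorConstLp hpne hp]
    simp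
  let i : RedIndex p h :=
    { Ω := Unit
      mΩ := inferInstance
      μ := Measure.dirac ()
      sigmaFinite := inferInstance
      π₀ := evalRep _ x
      ρ := regular p h (evalRep _ x)
      isRegular := isRegular_regular p h _ }
  refine (norm_lam_le e he x a).trans ?_
  exact le_ciSup (bdd_of_le_l1 (N := fun i : RedIndex p h => i.ρ.seminorm)
    (fun i a => i.ρ.norm_integrated_le a) a) i

lemma lam_le_full (hp : p ≠ ∞) (x : X) (a : Cc h) :
    ‖(lam p h x).integrated a‖ ≤ fullSeminorm p h a := by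
  let i : FullIndex p h :=
    { Ω := ℤ
      mΩ := inferInstance
      μ := Measure.count
      sigmaFinite := inferInstance
      ρ := (lam p h x).conj (countEquiv hp) }
  rw [← CovRep.norm_conj_integrated (countEquiv hp)]
  exact le_ciSup (bdd_of_le_l1 (N := fun i : FullIndex p h => i.ρ.seminorm)
    (fun i a => i.ρ.norm_integrated_le a) a) i

/-- The coefficient formula. -/
lemma lam_coeff (x : X) (a : Cc h) (m : ℤ) :
    ((lam p h x).integrated a (lp.single p 0 1) : LZ ℂ p) m =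
      a.coeff (ZAct.ofInt h m) ((h ^ m) x) := by
  classical
  induction a using SkewMonoidAlgebra.induction_on with
  | zero => rw [CovRep.integrated_zero]; simp
  | single g f =>
    rw [lam, regular_single, evalRep_apply, lp.single_apply, SkewMonoidAlgebra.coeff_single,
      Finsupp.single_apply, smul_eq_mul, alpha_apply, neg_neg]
    by_cases hg : g = ZAct.ofInt h m
    · rw [if_pos hg]
      have : m - g.toInt = 0 := by rw [hg]; exact sub_self m
      rw [this]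
      simp
    · rw [if_neg hg]
      have : m - g.toInt ≠ 0 := by
        intro h0
        apply hg
        have h1 : m = g.toInt := by omega
        rw [h1]
        rfl
      simp [this]
  | add a b ha hb =>
    rw [CovRep.integrated_add, _root_.add_apply, lp.coeFn_add, Pi.add_apply, ha, hb,
      SkewMonoidAlgebra.coeff_add]
    rfl

lemma norm_coeff_le (a : Cc h) (m : ℤ) {M : ℝ}
    (hM : ∀ x, ‖(lam p h x).integrated a‖ ≤ M) (hM0 : 0 ≤ M) :
    ‖a.coeff (ZAct.ofInt h m)‖ ≤ M := by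
  rw [ContinuousMap.norm_le _ hM0]
  intro y
  have h1 := lam_coeff (p := p) ((h ^ (-m)) y) a m
  rw [← Homeomorph.mul_apply, ← zpow_add, add_neg_cancel, zpow_zero, Homeomorph.one_apply] at h1
  rw [← h1]
  have hpne : 0 < p := zero_lt_one.trans_le (Fact.out (p := 1 ≤ p))
  calc _ ≤ ‖(lam p h ((h ^ (-m)) y)).integrated a (lp.single p 0 1)‖ :=
        lp.norm_apply_le_norm hpne.ne' _ _
    _ ≤ ‖(lam p h ((h ^ (-m)) y)).integrated a‖ * ‖(lp.single p 0 1 : LZ ℂ p)‖ :=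
        ContinuousLinearMap.le_opNorm _ _
    _ ≤ M * 1 := by
        gcongr
        · exact hM _
        · rw [lp.norm_single hpne]; simp
    _ = M := mul_one M

end Eval

end Pool.Agent.Lib.MP_5d4768_an
end
end
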