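import Pool.Agent.Lib.MP_5d4768_an.Lam
import Pool.Agent.Lib.MP_5d4768_an.Core
import Pool.Agent.Lib.MP_5d4768_an.Defs

section

set_option autoImplicit false
set_option linter.unusedSectionVars false

/-!
# Fejér means in the crossed products
-/

open scoped ENNReal Topology
open Filter MeasureTheory

namespace Pool.Agent.Lib.MP_5d4768_an

section RootsOfUnity

/-- Averages of characters over the `M`-th roots of unity. -/
lemma sum_roots (M : ℕ) (hM : 0 < M) (m : ℤ) (hm : |m| < M) :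
    ∑ l ∈ Finset.range M, (Complex.exp (2 * Real.pi * Complex.I / M)) ^ ((l : ℤ) * m) =
      if m = 0 then (M : ℂ) else 0 := by
  have hζ := Complex.isPrimitiveRoot_exp M hM.ne'
  set ζ := Complex.exp (2 * Real.pi * Complex.I / M) with hζdef
  split_ifs with h0
  · simp [h0]
  · have h1 : ζ ^ m ≠ 1 := by
      intro h
      have h2 := (hζ.zpow_eq_one_iff_dvd m).mp h
      have h3 := Int.le_of_dvd (abs_pos.mpr h0) ((dvd_abs _ _).mpr h2)
      omega
    have h2 : ∑ l ∈ Finset.range M, ζ ^ ((l : ℤ) * m) = ∑ l ∈ Finset.range M, (ζ ^ m) ^ l := by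
      refine Finset.sum_congr rfl fun l _ => ?_
      rw [mul_comm, zpow_mul, zpow_natCast]
    rw [h2, geom_sum_eq h1]
    have h3 : (ζ ^ m) ^ M = 1 := by
      rw [← zpow_natCast, ← zpow_mul, mul_comm, zpow_mul, zpow_natCast, hζ.pow_eq_one, one_zpow]
    rw [h3, sub_self, zero_div]

/-- The Fejér weights. -/
noncomputable def fej (N : ℕ) (n : ℤ) : ℂ :=
  (1 / N : ℂ) * ∑ q ∈ Finset.range N ×ˢ Finset.range N, if n + (q.1 : ℤ) - (q.2 : ℤ) = 0 then 1 else 0

lemma fej_eq_zero (N : ℕ) (n : ℤ) (hn : (N : ℤ) ≤ |n|) : fej N n = 0 := by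
  unfold fej
  rw [Finset.sum_eq_zero, mul_zero]
  intro q hq
  rw [Finset.mem_product, Finset.mem_range, Finset.mem_range] at hq
  rw [if_neg]
  intro h
  have : n = (q.2 : ℤ) - q.1 := by omega
  rw [this, le_abs] at hn
  omega

lemma norm_one_sub_fej_le (N : ℕ) (hN : 0 < N) (n : ℤ) :
    ‖1 - fej N n‖ ≤ |(n : ℝ)| / N := by
  classical
  have hNpos : (0 : ℝ) < N := by exact_mod_cast hN
  -- rewrite the sum as a sum over the first coordinate
  have h1 : ∑ q ∈ Finset.range N ×ˢ Finset.range N,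
      (if n + (q.1 : ℤ) - (q.2 : ℤ) = 0 then (1 : ℂ) else 0) =
      ∑ j ∈ Finset.range N, if 0 ≤ n + (j : ℤ) ∧ n + (j : ℤ) < N then (1 : ℂ) else 0 := by
    rw [Finset.sum_product]
    refine Finset.sum_congr rfl fun j _ => ?_
    split_ifs with h
    · rw [Finset.sum_eq_single (n + (j : ℤ)).toNat]
      · rw [if_pos]
        rw [Int.toNat_of_nonneg h.1]; ring
      · intro k _ hk
        rw [if_neg]
        intro h2
        apply hk
        omega
      · intro h2
        exfalso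
        apply h2
        rw [Finset.mem_range]
        omega
    · refine Finset.sum_eq_zero fun k hk => ?_
      rw [Finset.mem_range] at hk
      rw [if_neg]
      intro h2
      apply h
      omega
  have h2 : 1 - fej N n = (1 / N : ℂ) * ∑ j ∈ Finset.range N,
      if 0 ≤ n + (j : ℤ) ∧ n + (j : ℤ) < N then (0 : ℂ) else 1 := by
    have h3 : (1 : ℂ) = (1 / N : ℂ) * ∑ _j ∈ Finset.range N, (1 : ℂ) := by
      rw [Finset.sum_const, Finset.card_range, nsmul_eq_mul, mul_one, one_div_mul_cancel]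
      exact_mod_cast hN.ne'
    have h3' : 1 - fej N n = (1 / N : ℂ) * ∑ _j ∈ Finset.range N, (1 : ℂ) - fej N n := by
      rw [← h3]
    rw [h3']
    unfold fej
    rw [h1, ← mul_sub, ← Finset.sum_sub_distrib]
    congr 1
    refine Finset.sum_congr rfl fun j _ => ?_
    split_ifs <;> simp
  rw [h2, norm_mul]
  have h4 : ‖∑ j ∈ Finset.range N, if 0 ≤ n + (j : ℤ) ∧ n + (j : ℤ) < N then (0 : ℂ) else 1‖ ≤
      |(n : ℝ)| := by
    have h5 : ∑ j ∈ Finset.range N, (if 0 ≤ n + (j : ℤ) ∧ n + (j : ℤ) < N then (0 : ℂ) else 1) =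
        (((Finset.range N).filter fun j : ℕ => ¬ (0 ≤ n + (j : ℤ) ∧ n + (j : ℤ) < N)).card : ℂ) := by
      rw [Finset.card_filter]
      push_cast
      refine Finset.sum_congr rfl fun j _ => ?_
      split_ifs <;> simp_all
    rw [h5, Complex.norm_natCast]
    have h6 : ((Finset.range N).filter fun j : ℕ =>
        ¬ (0 ≤ n + (j : ℤ) ∧ n + (j : ℤ) < N)).card ≤ n.natAbs := by
      by_cases hn : 0 ≤ n
      · refine (Finset.card_le_card (t := Finset.Ico (N - n.natAbs) N) ?_).trans ?_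
        · intro j hj
          rw [Finset.mem_filter, Finset.mem_range] at hj
          rw [Finset.mem_Ico]
          omega
        · rw [Nat.card_Ico]; omega
      · refine (Finset.card_le_card (t := Finset.range n.natAbs) ?_).trans ?_
        · intro j hj
          rw [Finset.mem_filter, Finset.mem_range] at hj
          rw [Finset.mem_range]
          omega
        · rw [Finset.card_range]
    calc (((Finset.range N).filter fun j : ℕ =>
        ¬ (0 ≤ n + (j : ℤ) ∧ n + (j : ℤ) < N)).card : ℝ) ≤ (n.natAbs : ℝ) := by exact_mod_cast h6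
      _ = |(n : ℝ)| := by rw [Nat.cast_natAbs, Int.cast_abs]
  have h7 : ‖(1 / N : ℂ)‖ = 1 / N := by
    rw [norm_div, norm_one, Complex.norm_natCast]
  rw [h7, one_div, inv_mul_eq_div]
  gcongr

/-- The Fejér weights are averages of characters. -/
lemma exists_average (N : ℕ) (hN : 0 < N) (B : ℕ) : ∃ (M : ℕ) (z : ℕ → ℂ) (c : ℕ → ℝ),
    (∀ l, ‖z l‖ = 1) ∧ (∀ l, 0 ≤ c l) ∧ ∑ l ∈ Finset.range M, c l = 1 ∧
    ∀ n : ℤ, |n| ≤ B → fej N n = ∑ l ∈ Finset.range M, (c l : ℂ) * (z l) ^ n := by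
  set M : ℕ := N + B + 1 with hM
  have hMpos : 0 < M := by omega
  have hNpos : (0 : ℝ) < N := by exact_mod_cast hN
  have hMR : (0 : ℝ) < M := by exact_mod_cast hMpos
  set ζ := Complex.exp (2 * Real.pi * Complex.I / M) with hζdef
  have hζn : ‖ζ‖ = 1 := by
    have h1 : ζ = Complex.exp (((2 * Real.pi / M : ℝ) : ℂ) * Complex.I) := by
      rw [hζdef]; congr 1; push_cast; ring
    rw [h1, Complex.norm_exp_ofReal_mul_I]
  have hζ0 : ζ ≠ 0 := by
    intro h; rw [h, norm_zero] at hζn; exact zero_ne_one hζn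
  have key : ∀ n : ℤ, |n| ≤ B → fej N n = ∑ l ∈ Finset.range M,
      (((1 / (M * N)) * ‖∑ j ∈ Finset.range N, (ζ ^ l) ^ j‖ ^ 2 : ℝ) : ℂ) * (ζ ^ l) ^ n := by
    intro n hn
    have h1 : ∀ l : ℕ, (((1 / (M * N)) * ‖∑ j ∈ Finset.range N, (ζ ^ l) ^ j‖ ^ 2 : ℝ) : ℂ) *
        (ζ ^ l) ^ n = (1 / (M * N) : ℂ) * ∑ q ∈ Finset.range N ×ˢ Finset.range N,
          ζ ^ ((l : ℤ) * (n + (q.1 : ℤ) - (q.2 : ℤ))) := by
      intro l
      have h2 : ((‖∑ j ∈ Finset.range N, (ζ ^ l) ^ j‖ ^ 2 : ℝ) : ℂ) =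
          (∑ j ∈ Finset.range N, (ζ ^ l) ^ j) * (∑ k ∈ Finset.range N, ((ζ ^ l) ^ k)⁻¹) := by
        rw [← Complex.normSq_eq_norm_sq, ← Complex.mul_conj, map_sum]
        congr 1
        refine Finset.sum_congr rfl fun k _ => ?_
        rw [Complex.inv_def]
        have : Complex.normSq ((ζ ^ l) ^ k) = 1 := by
          rw [Complex.normSq_eq_norm_sq, norm_pow, norm_pow, hζn]; simp
        rw [this]; simp
      push_cast at h2 ⊢
      rw [h2, Finset.sum_product, Finset.sum_mul_sum, mul_assoc, Finset.sum_mul]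
      congr 1
      refine Finset.sum_congr rfl fun j _ => ?_
      rw [Finset.sum_mul]
      refine Finset.sum_congr rfl fun k _ => ?_
      rw [← zpow_natCast, ← zpow_natCast, ← zpow_natCast, ← zpow_mul, ← zpow_mul, ← zpow_mul,
        ← zpow_neg, ← zpow_add₀ hζ0, ← zpow_add₀ hζ0]
      congr 1
      ring
    simp only [h1]
    rw [← Finset.mul_sum, Finset.sum_comm]
    unfold fej
    have h3 : ∀ q ∈ Finset.range N ×ˢ Finset.range N,
        ∑ l ∈ Finset.range M, ζ ^ ((l : ℤ) * (n + (q.1 : ℤ) - (q.2 : ℤ))) =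
        (M : ℂ) * (if n + (q.1 : ℤ) - (q.2 : ℤ) = 0 then 1 else 0) := by
      intro q hq
      rw [Finset.mem_product, Finset.mem_range, Finset.mem_range] at hq
      rw [sum_roots M hMpos]
      · split_ifs <;> simp
      · rw [abs_le] at hn
        rw [abs_lt]
        omega
    rw [Finset.sum_congr rfl h3, ← Finset.mul_sum, ← mul_assoc]
    congr 1
    have hMC : (M : ℂ) ≠ 0 := by exact_mod_cast hMpos.ne'
    have hNC : (N : ℂ) ≠ 0 := by exact_mod_cast hN.ne'
    field_simp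
  refine ⟨M, fun l => ζ ^ l, fun l => (1 / (M * N)) * ‖∑ j ∈ Finset.range N, (ζ ^ l) ^ j‖ ^ 2,
    fun l => by rw [norm_pow, hζn, one_pow], fun l => by positivity, ?_, key⟩
  have h1 := key 0 (by simp)
  have h2 : fej N 0 = 1 := by
    have h3 := norm_one_sub_fej_le N hN 0
    simp only [Int.cast_zero, abs_zero, zero_div] at h3
    have h4 := norm_le_zero_iff.mp h3
    exact (sub_eq_zero.mp h4).symm
  rw [h2] at h1
  simp only [zpow_zero, mul_one] at h1
  exact_mod_cast h1.symm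

end RootsOfUnity

section Multipliers

variable {X : Type*} [TopologicalSpace X] [CompactSpace X] {h : X ≃ₜ X}

/-- The multiplier `a ↦ (n ↦ w(n) a(n))`. -/
noncomputable def wmul (w : ℤ → ℂ) (a : Cc h) : Cc h :=
  a.sum fun g f => SkewMonoidAlgebra.single g (w g.toInt • f)

lemma wmul_zero (w : ℤ → ℂ) : wmul w (0 : Cc h) = 0 := SkewMonoidAlgebra.sum_zero_index

lemma wmul_single (w : ℤ → ℂ) (g : ZAct h) (f : C(X, ℂ)) :
    wmul w (SkewMonoidAlgebra.single g f : Cc h) = SkewMonoidAlgebra.single g (w g.toInt • f) :=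
  SkewMonoidAlgebra.sum_single_index (by rw [smul_zero, SkewMonoidAlgebra.single_zero])

lemma wmul_add (w : ℤ → ℂ) (a b : Cc h) : wmul w (a + b) = wmul w a + wmul w b :=
  SkewMonoidAlgebra.sum_add_index' (fun _ => by rw [smul_zero, SkewMonoidAlgebra.single_zero])
    (fun _ _ _ => by rw [smul_add, SkewMonoidAlgebra.single_add])

lemma wmul_sub (w : ℤ → ℂ) (a b : Cc h) : wmul w (a - b) = wmul w a - wmul w b := by
  have := wmul_add w (a - b) b
  rw [sub_add_cancel] at this
  rw [this, add_sub_cancel_right]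

lemma wmul_eq_sum (w : ℤ → ℂ) (a : Cc h) : wmul w a =
    ∑ g ∈ a.support, SkewMonoidAlgebra.single g (w g.toInt • a.coeff g) :=
  SkewMonoidAlgebra.sum_def' _ _

lemma wmul_sum (M : ℕ) (z : ℕ → ℂ) (c : ℕ → ℂ) (w : ℤ → ℂ) (a : Cc h)
    (hw : ∀ g ∈ a.support, w g.toInt = ∑ l ∈ Finset.range M, c l * (z l) ^ g.toInt) :
    wmul w a = ∑ l ∈ Finset.range M, c l • wmul (fun n => (z l) ^ n) a := by
  simp only [wmul_eq_sum]
  simp only [Finset.smul_sum]
  rw [Finset.sum_comm]
  refine Finset.sum_congr rfl fun g hg => ?_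
  rw [hw g hg, Finset.sum_smul]
  have h1 : ∀ (s : Finset ℕ) (F : ℕ → C(X, ℂ)), (SkewMonoidAlgebra.single g (∑ l ∈ s, F l) : Cc h) =
      ∑ l ∈ s, SkewMonoidAlgebra.single g (F l) := by
    intro s F
    exact map_sum (SkewMonoidAlgebra.singleAddHom g) F s
  rw [h1]
  refine Finset.sum_congr rfl fun l _ => ?_
  rw [SkewMonoidAlgebra.smul_single, smul_smul]

lemma sub_wmul (w : ℤ → ℂ) (a : Cc h) : a - wmul w a = wmul (fun n => 1 - w n) a := by
  induction a using SkewMonoidAlgebra.induction_on with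
  | zero => rw [wmul_zero, wmul_zero, sub_zero]
  | single g f =>
    rw [wmul_single, wmul_single, sub_smul, one_smul]
    ext g'
    simp [SkewMonoidAlgebra.coeff_sub, SkewMonoidAlgebra.coeff_single, Finsupp.single_sub]
  | add a b ha hb => rw [wmul_add, wmul_add, ← ha, ← hb]; abel

lemma l1norm_single (g : ZAct h) (f : C(X, ℂ)) :
    l1norm (SkewMonoidAlgebra.single g f : Cc h) = ‖f‖ :=
  SkewMonoidAlgebra.sum_single_index norm_zero

/-- The properties of the seminorms used below. -/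
structure GoodSeminorm (N : Cc h → ℝ) : Prop where
  zero : N 0 = 0
  add_le : ∀ a b, N (a + b) ≤ N a + N b
  smul_le : ∀ (c : ℂ) a, N (c • a) ≤ ‖c‖ * N a
  nonneg : ∀ a, 0 ≤ N a
  le_l1 : ∀ a, N a ≤ l1norm a
  rot : ∀ (z : ℂ), ‖z‖ = 1 → ∀ a, N (wmul (fun n => z ^ n) a) ≤ N a

namespace GoodSeminorm

variable {N : Cc h → ℝ} (hN : GoodSeminorm N)
include hN

lemma neg_le (a : Cc h) : N (-a) ≤ N a := by
  have := hN.smul_le (-1) a
  rwa [neg_one_smul, norm_neg, norm_one, one_mul] at this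

lemma sub_le (a b : Cc h) : N (a - b) ≤ N a + N b := by
  rw [sub_eq_add_neg]
  have h1 := hN.add_le a (-b)
  have h2 := hN.neg_le b
  linarith

lemma sum_le {ι : Type*} (s : Finset ι) (F : ι → Cc h) : N (∑ i ∈ s, F i) ≤ ∑ i ∈ s, N (F i) := by
  classical
  induction s using Finset.induction_on with
  | empty => simp [hN.zero]
  | insert i s hi ih =>
    rw [Finset.sum_insert hi, Finset.sum_insert hi]
    have := hN.add_le (F i) (∑ x ∈ s, F x)
    linarith

lemma wmul_le_sum (w : ℤ → ℂ) (a : Cc h) :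
    N (wmul w a) ≤ ∑ g ∈ a.support, ‖w g.toInt‖ * ‖a.coeff g‖ := by
  rw [wmul_eq_sum]
  refine (hN.sum_le _ _).trans (Finset.sum_le_sum fun g _ => ?_)
  refine (hN.le_l1 _).trans ?_
  rw [l1norm_single, norm_smul]

lemma fejer_le (K : ℕ) (hK : 0 < K) (a : Cc h) : N (wmul (fej K) a) ≤ N a := by
  obtain ⟨B, hB⟩ : ∃ B : ℕ, ∀ g ∈ a.support, |g.toInt| ≤ B := by
    refine ⟨a.support.sup fun g => g.toInt.natAbs, fun g hg => ?_⟩
    have := Finset.le_sup (f := fun g : ZAct h => g.toInt.natAbs) hg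
    rw [Int.abs_eq_natAbs]
    exact_mod_cast this
  obtain ⟨M, z, c, hz, hc, hc1, hfej⟩ := exists_average K hK B
  rw [wmul_sum M z (fun l => (c l : ℂ)) (fej K) a (fun g hg => hfej _ (hB g hg))]
  refine (hN.sum_le _ _).trans ?_
  calc ∑ l ∈ Finset.range M, N ((c l : ℂ) • wmul (fun n => z l ^ n) a)
      ≤ ∑ l ∈ Finset.range M, c l * N a := by
        refine Finset.sum_le_sum fun l _ => ?_
        refine (hN.smul_le _ _).trans ?_
        rw [Complex.norm_real, Real.norm_of_nonneg (hc l)]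
        exact mul_le_mul_of_nonneg_left (hN.rot _ (hz l) a) (hc l)
    _ = N a := by rw [← Finset.sum_mul, hc1, one_mul]

lemma tendsto_fejer (a : Cc h) : Tendsto (fun K : ℕ => N (a - wmul (fej K) a)) atTop (𝓝 0) := by
  have h1 : Tendsto (fun K : ℕ => ∑ g ∈ a.support, (|(g.toInt : ℝ)| / K) * ‖a.coeff g‖) atTop
      (𝓝 (∑ _g ∈ a.support, 0)) := by
    refine tendsto_finsetSum _ fun g _ => ?_
    have h2 : Tendsto (fun K : ℕ => |(g.toInt : ℝ)| / (K : ℝ)) atTop (𝓝 0) :=
      tendsto_const_div_atTop_nhds_zero_nat _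
    simpa using h2.mul_const ‖a.coeff g‖
  rw [Finset.sum_const_zero] at h1
  refine squeeze_zero' (Eventually.of_forall fun K => hN.nonneg _) ?_ h1
  filter_upwards [eventually_gt_atTop 0] with K hK
  rw [sub_wmul]
  refine (hN.wmul_le_sum _ a).trans (Finset.sum_le_sum fun g _ => ?_)
  gcongr
  exact norm_one_sub_fej_le K hK _

/-- A Cauchy sequence whose coefficients tend to zero is a null sequence. -/
theorem null_of_coeff (a : ℕ → Cc h)
    (hcau : ∀ ε > 0, ∃ k, ∀ l ≥ k, N (a k - a l) ≤ ε)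
    (hco : ∀ m : ℤ, Tendsto (fun l => ‖(a l).coeff (ZAct.ofInt h m)‖) atTop (𝓝 0)) :
    Tendsto (fun l => N (a l)) atTop (𝓝 0) := by
  rw [Metric.tendsto_atTop]
  intro ε hε
  obtain ⟨k, hk⟩ := hcau (ε / 8) (by positivity)
  obtain ⟨K, hK1, hK2⟩ := (((hN.tendsto_fejer (a k)).eventually
    (gt_mem_nhds (show (0 : ℝ) < ε / 8 by positivity))).and (eventually_gt_atTop 0)).exists
  -- the Fejér means tend to zero
  have h1 : Tendsto (fun l => ∑ m ∈ Finset.Ioo (-(K : ℤ)) K,
      ‖fej K m‖ * ‖(a l).coeff (ZAct.ofInt h m)‖) atTop (𝓝 (∑ _m ∈ Finset.Ioo (-(K : ℤ)) K, 0)) := by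
    refine tendsto_finsetSum _ fun m _ => ?_
    simpa using (hco m).const_mul ‖fej K m‖
  rw [Finset.sum_const_zero] at h1
  have h2 : ∀ l, N (wmul (fej K) (a l)) ≤ ∑ m ∈ Finset.Ioo (-(K : ℤ)) K,
      ‖fej K m‖ * ‖(a l).coeff (ZAct.ofInt h m)‖ := by
    intro l
    refine (hN.wmul_le_sum _ _).trans ?_
    have h3 : ∑ g ∈ (a l).support, ‖fej K g.toInt‖ * ‖(a l).coeff g‖ =
        ∑ m ∈ (a l).support.image ZAct.toInt, ‖fej K m‖ * ‖(a l).coeff (ZAct.ofInt h m)‖ := by
      rw [Finset.sum_image]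
      · rfl
      · intro g _ g' _ hgg'; exact hgg'
    rw [h3]
    have h4 : ∑ m ∈ (a l).support.image ZAct.toInt, ‖fej K m‖ * ‖(a l).coeff (ZAct.ofInt h m)‖ =
        ∑ m ∈ ((a l).support.image ZAct.toInt).filter (fun m => m ∈ Finset.Ioo (-(K : ℤ)) K),
          ‖fej K m‖ * ‖(a l).coeff (ZAct.ofInt h m)‖ := by
      rw [Finset.sum_filter_of_ne]
      intro m _ hm
      by_contra hcon
      apply hm
      rw [fej_eq_zero, norm_zero, zero_mul]
      rw [Finset.mem_Ioo] at hcon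
      rw [le_abs]
      omega
    rw [h4]
    refine Finset.sum_le_sum_of_subset_of_nonneg ?_ fun m _ _ => by positivity
    intro m hm
    exact (Finset.mem_filter.mp hm).2
  have h3 := h1.eventually (gt_mem_nhds (show (0 : ℝ) < ε / 8 by positivity))
  obtain ⟨L, hL⟩ := eventually_atTop.mp h3
  refine ⟨max k L, fun l hl => ?_⟩
  have hlk : k ≤ l := (le_max_left _ _).trans hl
  have hlL : L ≤ l := (le_max_right _ _).trans hl
  rw [Real.dist_eq, sub_zero, abs_of_nonneg (hN.nonneg _)]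
  have e1 : a l = (a k - wmul (fej K) (a k)) + wmul (fej K) (a k - a l) + wmul (fej K) (a l) -
      (a k - a l) := by
    rw [wmul_sub]; abel
  have e2 := hN.sub_le ((a k - wmul (fej K) (a k)) + wmul (fej K) (a k - a l) +
    wmul (fej K) (a l)) (a k - a l)
  rw [← e1] at e2
  have e3 := hN.add_le ((a k - wmul (fej K) (a k)) + wmul (fej K) (a k - a l))
    (wmul (fej K) (a l))
  have e4 := hN.add_le (a k - wmul (fej K) (a k)) (wmul (fej K) (a k - a l))
  have e5 := hN.fejer_le K hK2 (a k - a l)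
  have e6 := hk l hlk
  have e7 := h2 l
  have e8 := hL l hlL
  linarith

end GoodSeminorm

end Multipliers

end Pool.Agent.Lib.MP_5d4768_an
end

section

set_option autoImplicit false
set_option linter.unusedSectionVars false

/-!
# The dual of `ℓ^p(ℤ)` embeds isometrically into `ℓ^q(ℤ)`
-/

open scoped ENNReal Topology
open Filter MeasureTheory

namespace Pool.Agent.Lib.MP_5d4768_an

variable {p q : ℝ≥0∞} [Fact (1 ≤ p)] [Fact (1 ≤ q)]

/-- The coordinates of a functional. -/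
noncomputable def co (b : LZ ℂ p →L[ℂ] ℂ) (n : ℤ) : ℂ := b (lp.single p n 1)

lemma co_sum_le (hpq : p.toReal.HolderConjugate q.toReal) (b : LZ ℂ p →L[ℂ] ℂ)
    (S : Finset ℤ) : ∑ n ∈ S, ‖co b n‖ ^ q.toReal ≤ ‖b‖ ^ q.toReal := by
  classical
  have hp0 : 0 < p.toReal := hpq.pos
  have hq0 : 0 < q.toReal := hpq.symm.pos
  set A : ℝ := ∑ n ∈ S, ‖co b n‖ ^ q.toReal with hA
  have hA0 : 0 ≤ A := Finset.sum_nonneg fun _ _ => Real.rpow_nonneg (norm_nonneg _) _
  rcases hA0.eq_or_lt with hA1 | hA1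
  · rw [← hA1]; exact Real.rpow_nonneg (norm_nonneg _) _
  let c : ℤ → ℂ := fun n => ph (co b n) * ((‖co b n‖ ^ (q.toReal - 1) : ℝ) : ℂ)
  let a : LZ ℂ p := ∑ n ∈ S, lp.single p n (c n)
  have hb : b a = (A : ℂ) := by
    simp only [a, map_sum]
    rw [hA]
    push_cast
    refine Finset.sum_congr rfl fun n _ => ?_
    have h1 : (lp.single p n (c n) : LZ ℂ p) = c n • lp.single p n 1 := by
      rw [← lp.single_smul, smul_eq_mul, mul_one]
    rw [h1, map_smul, smul_eq_mul]
    change ph (co b n) * ((‖co b n‖ ^ (q.toReal - 1) : ℝ) : ℂ) * co b n = _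
    rw [mul_right_comm, ph_mul, ← Complex.ofReal_mul]
    by_cases h0 : ‖co b n‖ = 0
    · rw [h0, zero_mul, Real.zero_rpow hq0.ne']
    · rw [← Real.rpow_one_add' (norm_nonneg _) (by linarith [hq0]), add_sub_cancel]
  have ha : ‖a‖ ^ p.toReal ≤ A := by
    rw [lp.norm_sum_single hp0]
    refine Finset.sum_le_sum fun n _ => ?_
    have h1 : ‖c n‖ ≤ ‖co b n‖ ^ (q.toReal - 1) := by
      change ‖ph (co b n) * ((‖co b n‖ ^ (q.toReal - 1) : ℝ) : ℂ)‖ ≤ _
      rw [norm_mul, Complex.norm_real, Real.norm_of_nonneg (Real.rpow_nonneg (norm_nonneg _) _)]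
      have := norm_ph_le (co b n)
      nlinarith [Real.rpow_nonneg (norm_nonneg (co b n)) (q.toReal - 1)]
    calc ‖c n‖ ^ p.toReal ≤ (‖co b n‖ ^ (q.toReal - 1)) ^ p.toReal :=
          Real.rpow_le_rpow (norm_nonneg _) h1 hp0.le
      _ = ‖co b n‖ ^ q.toReal := by
          rw [← Real.rpow_mul (norm_nonneg _)]
          congr 1
          have := hpq.symm.sub_one_mul_conj
          linarith
  have ha' : ‖a‖ ≤ A ^ (1 / p.toReal) := by
    have h1 := Real.rpow_le_rpow (Real.rpow_nonneg (norm_nonneg _) _) ha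
      (one_div_nonneg.mpr hp0.le)
    rwa [← Real.rpow_mul (norm_nonneg _), mul_one_div_cancel hp0.ne', Real.rpow_one] at h1
  have h1 : A ≤ ‖b‖ * A ^ (1 / p.toReal) := by
    calc A = ‖b a‖ := by rw [hb, Complex.norm_real, Real.norm_of_nonneg hA0]
      _ ≤ ‖b‖ * ‖a‖ := b.le_opNorm a
      _ ≤ _ := by gcongr
  have h2 : A ^ (1 / q.toReal) ≤ ‖b‖ := by
    have h3 : A = A ^ (1 / q.toReal) * A ^ (1 / p.toReal) := by
      rw [← Real.rpow_add hA1]
      have : 1 / q.toReal + 1 / p.toReal = 1 := by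
        have := hpq.symm.inv_add_inv_eq_one
        simpa [one_div] using this
      rw [this, Real.rpow_one]
    have h4 : 0 < A ^ (1 / p.toReal) := Real.rpow_pos_of_pos hA1 _
    rw [h3] at h1
    have h5 : A ^ (1 / q.toReal) * A ^ (1 / p.toReal) ≤ ‖b‖ * A ^ (1 / p.toReal) := by
      calc _ ≤ ‖b‖ * (A ^ (1 / q.toReal) * A ^ (1 / p.toReal)) ^ (1 / p.toReal) := h1
        _ = ‖b‖ * A ^ (1 / p.toReal) := by rw [← h3]
    exact le_of_mul_le_mul_right h5 h4
  have h3 := Real.rpow_le_rpow (Real.rpow_nonneg hA0 _) h2 hq0.le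
  rwa [← Real.rpow_mul hA0, one_div_mul_cancel hq0.ne', Real.rpow_one] at h3

lemma co_mem (hpq : p.toReal.HolderConjugate q.toReal) (b : LZ ℂ p →L[ℂ] ℂ) :
    Memℓp (co b) q := memℓp_gen' (C := ‖b‖ ^ q.toReal) (co_sum_le hpq b)

/-- The isometric embedding of the dual of `ℓ^p(ℤ)` into `ℓ^q(ℤ)`. -/
noncomputable def dualEmb (hp : p ≠ ∞) (hpq : p.toReal.HolderConjugate q.toReal) :
    (LZ ℂ p →L[ℂ] ℂ) →ₗᵢ[ℂ] Ell ℤ q where
  toFun b := ⟨co b, co_mem hpq b⟩
  map_add' b b' := lp.ext (funext fun n => rfl)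
  map_smul' c b := lp.ext (funext fun n => rfl)
  norm_map' b := by
    have hq0 : 0 < q.toReal := hpq.symm.pos
    refine le_antisymm ?_ ?_
    · exact lp.norm_le_of_forall_sum_le hq0 (norm_nonneg _) (co_sum_le hpq b)
    · refine ContinuousLinearMap.opNorm_le_bound _ (norm_nonneg _) fun a => ?_
      have h1 := lp.hasSum_single hp a
      have h2 : HasSum (fun n => a n * co b n) (b a) := by
        have h3 := h1.mapL b
        have h4 : (fun n => b (lp.single p n (a n))) = fun n => a n * co b n := by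
          funext n
          have h5 : (lp.single p n (a n) : LZ ℂ p) = a n • lp.single p n 1 := by
            rw [← lp.single_smul, smul_eq_mul, mul_one]
          rw [h5, map_smul, smul_eq_mul]
          rfl
        rwa [h4] at h3
      obtain ⟨hs, hle⟩ := lp.tsum_mul_le_mul_norm hpq a (⟨co b, co_mem hpq b⟩ : Ell ℤ q)
      rw [← h2.tsum_eq]
      have hs' : Summable fun n => ‖a n * co b n‖ := by
        refine hs.congr fun n => ?_
        rw [norm_mul]
      refine (norm_tsum_le_tsum_norm hs').trans ?_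
      have h6 : ∑' n, ‖a n * co b n‖ = ∑' n, ‖a n‖ * ‖co b n‖ :=
        tsum_congr fun n => norm_mul _ _
      rw [h6, mul_comm]
      exact hle

end Pool.Agent.Lib.MP_5d4768_an
end

section

set_option autoImplicit false
set_option linter.unusedSectionVars false

/-!
# Rotation invariance of the norms of the crossed products
-/

open scoped ENNReal Topology
open Filter MeasureTheory

namespace Pool.Agent.Lib.MP_5d4768_an

variable {X : Type*} [TopologicalSpace X] [CompactSpace X] {h : X ≃ₜ X}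
variable {E : Type*} [NormedAddCommGroup E] [NormedSpace ℂ E]

lemma ne_zero_of_norm_one {z : ℂ} (hz : ‖z‖ = 1) : z ≠ 0 := by
  intro h; rw [h, norm_zero] at hz; exact zero_ne_one hz

/-- Multiplication by a unimodular scalar. -/
noncomputable def unitSmul (E : Type*) [NormedAddCommGroup E] [NormedSpace ℂ E] (z : ℂ)
    (hz : ‖z‖ = 1) : E ≃ₗᵢ[ℂ] E where
  toFun ξ := z • ξ
  invFun ξ := z⁻¹ • ξ
  map_add' ξ η := smul_add z ξ η
  map_smul' c ξ := smul_comm z c ξ
  left_inv ξ := by simp [smul_smul, inv_mul_cancel₀ (ne_zero_of_norm_one hz)]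
  right_inv ξ := by simp [smul_smul, mul_inv_cancel₀ (ne_zero_of_norm_one hz)]
  norm_map' ξ := by
    change ‖z • ξ‖ = ‖ξ‖
    rw [norm_smul, hz, one_mul]

/-- The covariant representation `(π, z v)`. -/
noncomputable def CovRep.twist (ρ : CovRep h E) (z : ℂ) (hz : ‖z‖ = 1) : CovRep h E where
  toRep := ρ.toRep
  v := ρ.v.trans (unitSmul E z hz)
  covariant f ξ := by
    change z • ρ.v (ρ.π f (ρ.v.symm (z⁻¹ • ξ))) = ρ.π (alpha h 1 f) ξ
    rw [map_smul, map_smul, map_smul, smul_smul, mul_inv_cancel₀ (ne_zero_of_norm_one hz),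
      one_smul, ρ.covariant]

lemma CovRep.twist_vpow (ρ : CovRep h E) (z : ℂ) (hz : ‖z‖ = 1) (n : ℤ) :
    vpow (ρ.twist z hz).v n = z ^ n • vpow ρ.v n := by
  have hz0 := ne_zero_of_norm_one hz
  have h1 : ∀ ξ, vpow (ρ.twist z hz).v 1 ξ = z • vpow ρ.v 1 ξ := by
    intro ξ
    rw [vpow_one, vpow_one]
    rfl
  have h2 : ∀ ξ, vpow (ρ.twist z hz).v (-1) ξ = z⁻¹ • vpow ρ.v (-1) ξ := by
    intro ξ
    rw [vpow_neg_one, vpow_neg_one]
    change ρ.v.symm (z⁻¹ • ξ) = _
    rw [map_smul]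
  induction n using Int.induction_on with
  | zero => rw [vpow_zero, vpow_zero, zpow_zero, one_smul]
  | succ n ih =>
    ext ξ
    rw [vpow_add, mul_apply_eq_comp, ih, h1, vpow_add, _root_.smul_apply, map_smul, smul_smul,
      zpow_add₀ hz0, zpow_one]
    rfl
  | pred n ih =>
    ext ξ
    rw [sub_eq_add_neg, vpow_add, mul_apply_eq_comp, ih, h2, vpow_add, _root_.smul_apply,
      map_smul, smul_smul, zpow_add₀ hz0, zpow_neg_one]
    rfl

lemma CovRep.twist_integrated (ρ : CovRep h E) (z : ℂ) (hz : ‖z‖ = 1) (a : Cc h) :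
    (ρ.twist z hz).integrated a = ρ.integrated (wmul (fun n => z ^ n) a) := by
  induction a using SkewMonoidAlgebra.induction_on with
  | zero => rw [wmul_zero, integrated_zero, integrated_zero]
  | single g f =>
    rw [wmul_single, integrated_single, integrated_single, twist_vpow, map_smul, smul_mul_assoc,
      mul_smul_comm]
    rfl
  | add a b ha hb => rw [wmul_add, integrated_add, integrated_add, ha, hb]

variable {p : ℝ≥0∞} [Fact (1 ≤ p)]

lemma le_full (i : FullIndex p h) (a : Cc h) : ‖i.ρ.integrated a‖ ≤ fullSeminorm p h a :=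
  le_ciSup (bdd_of_le_l1 (N := fun i : FullIndex p h => i.ρ.seminorm)
    (fun i a => i.ρ.norm_integrated_le a) a) i

lemma le_red (i : RedIndex p h) (a : Cc h) :
    ‖i.ρ.integrated a‖ ≤ redSeminorm p h a :=
  le_ciSup (bdd_of_le_l1 (N := fun i : RedIndex p h => i.ρ.seminorm)
    (fun i a => i.ρ.norm_integrated_le a) a) i

lemma l1norm_nonneg (a : Cc h) : 0 ≤ l1norm a := by
  unfold l1norm
  rw [SkewMonoidAlgebra.sum_def']
  exact Finset.sum_nonneg fun _ _ => norm_nonneg _

lemma good_full : GoodSeminorm (h := h) (fun a => fullSeminorm p h a) where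
  zero := map_zero _
  add_le a b := map_add_le_add _ a b
  smul_le := fullSeminorm_smul_le p h
  nonneg a := apply_nonneg _ a
  le_l1 a := Real.iSup_le (fun i => i.ρ.norm_integrated_le a) (l1norm_nonneg a)
  rot z hz a := by
    refine Real.iSup_le (fun i => ?_) (apply_nonneg _ _)
    change ‖i.ρ.integrated (wmul (fun n => z ^ n) a)‖ ≤ _
    rw [← i.ρ.twist_integrated z hz]
    let _ := i.mΩ
    exact le_full (p := p) (h := h)
      { Ω := i.Ω
        mΩ := i.mΩ
        μ := i.μ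
        sigmaFinite := i.sigmaFinite
        ρ := i.ρ.twist z hz } a

/-- The diagonal isometry `ξ ↦ (n ↦ z^n ξ(n))`. -/
noncomputable def diagZ (z : ℂ) (hz : ‖z‖ = 1) : LZ E p ≃ₗᵢ[ℂ] LZ E p where
  toFun ξ := ⟨fun n => z ^ n • ξ n, (lp.memℓp ξ).mono' fun n => by
    rw [norm_smul, norm_zpow, hz, one_zpow, one_mul]⟩
  invFun ξ := ⟨fun n => (z ^ n)⁻¹ • ξ n, (lp.memℓp ξ).mono' fun n => by
    rw [norm_smul, norm_inv, norm_zpow, hz, one_zpow, inv_one, one_mul]⟩
  map_add' ξ η := lp.ext (funext fun n => smul_add (z ^ n) (ξ n) (η n))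
  map_smul' c ξ := lp.ext (funext fun n => smul_comm (z ^ n) c (ξ n))
  left_inv ξ := by
    apply lp.ext
    funext n
    change (z ^ n)⁻¹ • z ^ n • ξ n = ξ n
    rw [smul_smul, inv_mul_cancel₀ (zpow_ne_zero n (ne_zero_of_norm_one hz)), one_smul]
  right_inv ξ := by
    apply lp.ext
    funext n
    change z ^ n • (z ^ n)⁻¹ • ξ n = ξ n
    rw [smul_smul, mul_inv_cancel₀ (zpow_ne_zero n (ne_zero_of_norm_one hz)), one_smul]
  norm_map' ξ := by
    have hpne : p ≠ 0 := (zero_lt_one.trans_le (Fact.out (p := 1 ≤ p))).ne'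
    refine le_antisymm (lp.norm_mono hpne fun n => ?_) (lp.norm_mono hpne fun n => ?_)
    · change ‖z ^ n • ξ n‖ ≤ _
      rw [norm_smul, norm_zpow, hz, one_zpow, one_mul]
    · change _ ≤ ‖z ^ n • ξ n‖
      rw [norm_smul, norm_zpow, hz, one_zpow, one_mul]

lemma diagZ_apply (z : ℂ) (hz : ‖z‖ = 1) (ξ : LZ E p) (n : ℤ) :
    (diagZ z hz ξ : LZ E p) n = z ^ n • ξ n := rfl

lemma diagZ_symm_apply (z : ℂ) (hz : ‖z‖ = 1) (ξ : LZ E p) (n : ℤ) :
    ((diagZ z hz).symm ξ : LZ E p) n = (z ^ n)⁻¹ • ξ n := rfl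

lemma IsRegular.rot {π₀ : Rep X E} {ρ : CovRep h (LZ E p)} (hρ : IsRegular π₀ ρ) (z : ℂ)
    (hz : ‖z‖ = 1) (a : Cc h) :
    ρ.integrated (wmul (fun n => z ^ n) a) = conjOp (diagZ z hz) (ρ.integrated a) := by
  have hz0 := ne_zero_of_norm_one hz
  induction a using SkewMonoidAlgebra.induction_on with
  | zero =>
    rw [wmul_zero, CovRep.integrated_zero]
    ext ξ
    simp [conjOp_apply]
  | single g f =>
    ext ξ m
    rw [wmul_single, hρ.single, conjOp_apply, diagZ_apply, hρ.single, diagZ_symm_apply,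
      alpha_smul, map_smul, map_smul, smul_smul, ← zpow_neg, ← zpow_add₀ hz0]
    have : m + -(m - g.toInt) = g.toInt := by ring
    rw [this]
    rfl
  | add a b ha hb =>
    rw [wmul_add, CovRep.integrated_add, CovRep.integrated_add, ha, hb]
    ext ξ
    simp [conjOp_apply]

lemma good_red : GoodSeminorm (h := h) (fun a => redSeminorm p h a) where
  zero := map_zero _
  add_le a b := map_add_le_add _ a b
  smul_le := redSeminorm_smul_le p h
  nonneg a := apply_nonneg _ a
  le_l1 a := Real.iSup_le (fun i => i.ρ.norm_integrated_le a) (l1norm_nonneg a)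
  rot z hz a := by
    refine Real.iSup_le (fun i => ?_) (apply_nonneg _ _)
    change ‖i.ρ.integrated (wmul (fun n => z ^ n) a)‖ ≤ _
    rw [i.isRegular.rot z hz, norm_conjOp]
    exact le_red i a

end Pool.Agent.Lib.MP_5d4768_an
end

section

set_option autoImplicit false
set_option linter.unusedSectionVars false

/-!
# Representations of the completed crossed products
-/

open scoped ENNReal Topology
open Filter MeasureTheory UniformSpace

namespace Pool.Agent.Lib.MP_5d4768_an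

section Extension

variable {A : Type*} [SeminormedRing A] [NormedSpace ℂ A]
variable {B : Type*} [NormedRing B] [NormedSpace ℂ B] [CompleteSpace B]

/-- Extension of a bounded linear map to the completion. -/
noncomputable def extHom (θ : A →L[ℂ] B) : Completion A →L[ℂ] B :=
  θ.extend (Completion.toComplL : A →L[ℂ] Completion A)

lemma extHom_coe (θ : A →L[ℂ] B) (a : A) : extHom θ (a : Completion A) = θ a :=
  θ.extend_eq (e := Completion.toComplL) (Completion.denseRange_coe)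
    (Completion.isUniformInducing_coe A) a

lemma extHom_mul (θ : A →L[ℂ] B) (hθ : ∀ a b, θ (a * b) = θ a * θ b) (a b : Completion A) :
    extHom θ (a * b) = extHom θ a * extHom θ b := by
  induction a, b using Completion.induction_on₂ with
  | hp => exact isClosed_eq (by fun_prop) (by fun_prop)
  | ih a b => rw [← Completion.coe_mul, extHom_coe, extHom_coe, extHom_coe, hθ]

lemma norm_extHom_le (θ : A →L[ℂ] B) (hθ : ∀ a, ‖θ a‖ ≤ ‖a‖) (a : Completion A) :
    ‖extHom θ a‖ ≤ ‖a‖ := by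
  induction a using Completion.induction_on with
  | hp => exact isClosed_le (by fun_prop) (by fun_prop)
  | ih a => rw [extHom_coe, Completion.norm_coe]; exact hθ a

end Extension

section Null

variable {X : Type*} [TopologicalSpace X] [CompactSpace X] {h : X ≃ₜ X}

lemma eq_zero_of_coeff {A : Type*} [SeminormedAddCommGroup A] {N : Cc h → ℝ}
    (hN : GoodSeminorm N) (e : A → Cc h) (he : ∀ a b, e (a - b) = e a - e b)
    (hnorm : ∀ a, ‖a‖ = N (e a)) (b : Completion A)
    (hb : ∀ (a : A) (m : ℤ), ‖(e a).coeff (ZAct.ofInt h m)‖ ≤ ‖(a : Completion A) - b‖) :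
    b = 0 := by
  obtain ⟨u, hu1, hu2⟩ := mem_closure_iff_seq_limit.mp
    ((Completion.denseRange_coe (α := A)) b)
  choose a ha using hu1
  have hlim : Tendsto (fun l => ‖(a l : Completion A) - b‖) atTop (𝓝 0) := by
    have h1 : Tendsto (fun l => (a l : Completion A)) atTop (𝓝 b) := by
      simpa only [ha] using hu2
    have h2 := (h1.sub_const b).norm
    simpa using h2
  have hnull := hN.null_of_coeff (fun l => e (a l)) (by
    intro ε hε
    obtain ⟨k, hk⟩ := (Metric.tendsto_atTop.mp hlim) (ε / 2) (by positivity)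
    refine ⟨k, fun l hl => ?_⟩
    rw [← he, ← hnorm, ← Completion.norm_coe, Completion.coe_sub]
    have h1 := hk k le_rfl
    have h2 := hk l hl
    rw [Real.dist_eq, sub_zero, abs_of_nonneg (norm_nonneg _)] at h1 h2
    have h3 : (a k : Completion A) - (a l : Completion A) =
        ((a k : Completion A) - b) - ((a l : Completion A) - b) := by abel
    rw [h3]
    refine (norm_sub_le _ _).trans ?_
    linarith) (by
    intro m
    exact squeeze_zero (fun _ => norm_nonneg _) (fun l => hb (a l) m) hlim)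
  have h1 : Tendsto (fun l => ‖(a l : Completion A)‖) atTop (𝓝 0) := by
    refine hnull.congr fun l => ?_
    rw [← hnorm, Completion.norm_coe]
  have h2 : Tendsto (fun l => (a l : Completion A)) atTop (𝓝 0) :=
    tendsto_zero_iff_norm_tendsto_zero.mpr h1
  have h3 : Tendsto (fun l => (a l : Completion A)) atTop (𝓝 b) := by
    simpa only [ha] using hu2
  exact tendsto_nhds_unique h3 h2

end Null

section Lam

variable {X : Type*} [TopologicalSpace X] [CompactSpace X] {h : X ≃ₜ X}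
variable {p : ℝ≥0∞} [Fact (1 ≤ p)]

/-- The orbit representation as a linear map on `C_c(ℤ, C(X), α)` with the full norm. -/
noncomputable def lamFull (p : ℝ≥0∞) [Fact (1 ≤ p)] (h : X ≃ₜ X) (hp : p ≠ ∞) (x : X) :
    Renorm (fullSeminorm p h) →L[ℂ] (LZ ℂ p →L[ℂ] LZ ℂ p) :=
  LinearMap.mkContinuous
    { toFun := fun a => (lam p h x).integrated a.val
      map_add' := fun a b => (lam p h x).integrated_add a.val b.val
      map_smul' := fun c a => (lam p h x).integrated_smul c a.val } 1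
    (fun a => by rw [one_mul]; exact lam_le_full hp x a.val)

/-- The orbit representation as a linear map on `C_c(ℤ, C(X), α)` with the reduced norm. -/
noncomputable def lamRed (p : ℝ≥0∞) [Fact (1 ≤ p)] (h : X ≃ₜ X) (hp : p ≠ ∞) (x : X) :
    Renorm (redSeminorm p h) →L[ℂ] (LZ ℂ p →L[ℂ] LZ ℂ p) :=
  LinearMap.mkContinuous
    { toFun := fun a => (lam p h x).integrated a.val
      map_add' := fun a b => (lam p h x).integrated_add a.val b.val
      map_smul' := fun c a => (lam p h x).integrated_smul c a.val } 1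
    (fun a => by rw [one_mul]; exact lam_le_red hp x a.val)

lemma lamFull_mul (hp : p ≠ ∞) (x : X) (a b : Renorm (fullSeminorm p h)) :
    lamFull p h hp x (a * b) = lamFull p h hp x a * lamFull p h hp x b :=
  (lam p h x).integrated_mul a.val b.val

lemma lamRed_mul (hp : p ≠ ∞) (x : X) (a b : Renorm (redSeminorm p h)) :
    lamRed p h hp x (a * b) = lamRed p h hp x a * lamRed p h hp x b :=
  (lam p h x).integrated_mul a.val b.val

/-- The orbit representations separate the points of the full crossed product. -/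
theorem full_eq_zero (hp : p ≠ ∞) (b : FullAlg p h)
    (hb : ∀ x, extHom (lamFull p h hp x) b = 0) : b = 0 := by
  refine eq_zero_of_coeff (good_full (p := p) (h := h))
    (fun a : Renorm (fullSeminorm p h) => a.val)
    (fun _ _ => rfl) (fun _ => rfl) b fun a m => ?_
  refine norm_coeff_le (p := p) a.val m (fun x => ?_) (norm_nonneg _)
  have h1 : (lam p h x).integrated a.val =
      extHom (lamFull p h hp x) ((a : FullAlg p h) - b) := by
    rw [map_sub, hb x, sub_zero, extHom_coe]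
    rfl
  rw [h1]
  exact norm_extHom_le _ (fun a => lam_le_full hp x a.val) _

/-- The orbit representations separate the points of the reduced crossed product. -/
theorem red_eq_zero (hp : p ≠ ∞) (b : RedAlg p h)
    (hb : ∀ x, extHom (lamRed p h hp x) b = 0) : b = 0 := by
  refine eq_zero_of_coeff (good_red (p := p) (h := h))
    (fun a : Renorm (redSeminorm p h) => a.val)
    (fun _ _ => rfl) (fun _ => rfl) b fun a m => ?_
  refine norm_coeff_le (p := p) a.val m (fun x => ?_) (norm_nonneg _)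
  have h1 : (lam p h x).integrated a.val =
      extHom (lamRed p h hp x) ((a : RedAlg p h) - b) := by
    rw [map_sub, hb x, sub_zero, extHom_coe]
    rfl
  rw [h1]
  exact norm_extHom_le _ (fun a => lam_le_red hp x a.val) _

end Lam

end Pool.Agent.Lib.MP_5d4768_an
end

section

set_option autoImplicit false
set_option linter.unusedSectionVars false

/-!
# The two estimates in the full crossed product
-/

open scoped ENNReal Topology
open Filter MeasureTheory

namespace Pool.Agent.Lib.MP_5d4768_an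

section Unimodular

variable {X : Type*} [TopologicalSpace X] [CompactSpace X]

/-- The function `exp(i t G)`. -/
noncomputable def expI (G : C(X, ℝ)) (t : ℝ) : C(X, ℂ) :=
  ⟨fun x => Complex.exp (((t * G x : ℝ) : ℂ) * Complex.I), by fun_prop⟩

lemma expI_apply (G : C(X, ℝ)) (t : ℝ) (x : X) :
    expI G t x = Complex.exp (((t * G x : ℝ) : ℂ) * Complex.I) := rfl

lemma norm_expI_le (G : C(X, ℝ)) (t : ℝ) : ‖expI G t‖ ≤ 1 := by
  rw [ContinuousMap.norm_le _ zero_le_one]
  intro x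
  rw [expI_apply, Complex.norm_exp_ofReal_mul_I]

lemma expI_mul_neg (G : C(X, ℝ)) (t : ℝ) : expI G (-t) * expI G t = 1 := by
  ext x
  rw [ContinuousMap.mul_apply, expI_apply, expI_apply, ← Complex.exp_add, ContinuousMap.one_apply]
  rw [← Complex.exp_zero]
  congr 1
  push_cast
  ring

lemma norm_expI_sub_one_le (G : C(X, ℝ)) (hG : ∀ x, 0 ≤ G x ∧ G x ≤ 1) (t : ℝ) :
    ‖expI G t - 1‖ ≤ |t| := by
  rw [ContinuousMap.norm_le _ (abs_nonneg _)]
  intro x
  rw [ContinuousMap.sub_apply, expI_apply, ContinuousMap.one_apply, mul_comm]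
  refine (Real.norm_exp_I_mul_ofReal_sub_one_le).trans ?_
  rw [Real.norm_eq_abs, abs_mul]
  have := hG x
  rw [abs_of_nonneg this.1]
  nlinarith [abs_nonneg t, this.2]

end Unimodular

section LpReps

variable {X : Type*} [MetricSpace X] [CompactSpace X]
variable {Ω : Type*} [MeasurableSpace Ω] {μ : Measure Ω} {p : ℝ≥0∞} [Fact (1 ≤ p)]

lemma Rep.norm_π_apply_le (ρ : Rep X (Lp ℂ p μ)) (f : C(X, ℂ)) (hf : ‖f‖ ≤ 1) (z : Lp ℂ p μ) :
    ‖ρ.π f z‖ ≤ ‖z‖ := by
  have h1 := (ρ.π f).le_of_opNorm_le ((ρ.contractive f).trans hf) z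
  rwa [one_mul] at h1

lemma Rep.norm_π_expI (ρ : Rep X (Lp ℂ p μ)) (G : C(X, ℝ)) (t : ℝ) (z : Lp ℂ p μ) :
    ‖ρ.π (expI G t) z‖ = ‖z‖ := by
  refine le_antisymm (ρ.norm_π_apply_le _ (norm_expI_le G t) z) ?_
  have h1 : ρ.π (expI G (-t)) (ρ.π (expI G t) z) = z := by
    rw [← mul_apply_eq_comp, ← map_mul, expI_mul_neg, ρ.π_one]
    rfl
  calc ‖z‖ = ‖ρ.π (expI G (-t)) (ρ.π (expI G t) z)‖ := by rw [h1]
    _ ≤ ‖ρ.π (expI G t) z‖ := ρ.norm_π_apply_le _ (norm_expI_le G (-t)) _

lemma Rep.norm_π_expI_sub (ρ : Rep X (Lp ℂ p μ)) (G : C(X, ℝ)) (hG : ∀ x, 0 ≤ G x ∧ G x ≤ 1)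
    (t : ℝ) (ht : |t| ≤ 1 / 2) (z : Lp ℂ p μ) (hz : z ≠ 0) : ‖ρ.π (expI G t) z - z‖ < ‖z‖ := by
  have h1 : ρ.π (expI G t) z - z = ρ.π (expI G t - 1) z := by
    rw [map_sub, ρ.π_one]
    rfl
  rw [h1]
  have h2 := (ρ.π (expI G t - 1)).le_of_opNorm_le
    ((ρ.contractive _).trans (norm_expI_sub_one_le G hG t)) z
  have hzpos : 0 < ‖z‖ := norm_pos_iff.mpr hz
  nlinarith

/-- Additivity of the `p`-th power of the norm on vectors supported in disjoint closed sets. -/
theorem Rep.norm_sum_rpow (hp : p ≠ ∞) (ρ : Rep X (Lp ℂ p μ)) (K : ℤ → Set X)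
    (hK : ∀ n, IsClosed (K n)) (S : Finset ℤ) (hS : (S : Set ℤ).PairwiseDisjoint K)
    (g : ℤ → C(X, ℂ)) (hg : ∀ n ∈ S, ∀ x, x ∉ K n → g n x = 0) (ζ : ℤ → Lp ℂ p μ) :
    ‖∑ n ∈ S, ρ.π (g n) (ζ n)‖ ^ p.toReal = ∑ n ∈ S, ‖ρ.π (g n) (ζ n)‖ ^ p.toReal := by
  classical
  have hp0 := toReal_pos' hp
  induction S using Finset.induction_on with
  | empty => simp [Real.zero_rpow hp0.ne']
  | insert n S hn ih =>
    rw [Finset.sum_insert hn, Finset.sum_insert hn]
    have hS' : (S : Set ℤ).PairwiseDisjoint K := hS.subset (by simp)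
    rw [← ih hS' (fun m hm => hg m (Finset.mem_insert_of_mem hm))]
    -- a separating function
    have hdis : Disjoint (⋃ m ∈ S, K m) (K n) := by
      rw [Set.disjoint_iUnion₂_left]
      intro m hm
      have hne : m ≠ n := fun h => hn (h ▸ hm)
      exact hS (by simp [hm]) (by simp) hne
    obtain ⟨G, hG0, hG1, hG2⟩ := exists_continuous_zero_one_of_isClosed
      (isClosed_biUnion_finset (fun m _ => hK m)) (hK n) hdis
    have hG3 : ∀ x, 0 ≤ G x ∧ G x ≤ 1 := fun x => hG2 x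
    refine norm_add_rpow_of_isom hp (fun t => ρ.π (expI G t)) (ρ.norm_π_expI G)
      (fun t ht z hz => ρ.norm_π_expI_sub G hG3 t ht z hz) ?_ ?_
    · intro t
      have h1 : expI G t * g n = Complex.exp ((t : ℂ) * Complex.I) • g n := by
        ext x
        rw [ContinuousMap.mul_apply, expI_apply, ContinuousMap.smul_apply, smul_eq_mul]
        by_cases hx : x ∈ K n
        · have := hG1 hx
          rw [Pi.one_apply] at this
          rw [this, mul_one]
        · rw [hg n (Finset.mem_insert_self _ _) x hx, mul_zero, mul_zero]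
      rw [← mul_apply_eq_comp, ← map_mul, h1, map_smul]
      rfl
    · intro t
      rw [map_sum]
      refine Finset.sum_congr rfl fun m hm => ?_
      have h1 : expI G t * g m = g m := by
        ext x
        rw [ContinuousMap.mul_apply, expI_apply]
        by_cases hx : x ∈ K m
        · have h2 : x ∈ ⋃ m ∈ S, K m := Set.mem_biUnion (by exact_mod_cast hm) hx
          have := hG0 h2
          rw [Pi.zero_apply] at this
          rw [this, mul_zero]
          simp
        · rw [hg m (Finset.mem_insert_of_mem hm) x hx, mul_zero]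
      rw [← mul_apply_eq_comp, ← map_mul, h1]

end LpReps

section Estimates

variable {X : Type*} [MetricSpace X] [CompactSpace X] {h : X ≃ₜ X}
variable {Ω : Type*} [MeasurableSpace Ω] {μ : Measure Ω} {p : ℝ≥0∞} [Fact (1 ≤ p)]

lemma alpha_eq_zero {K : Set X} {f : C(X, ℝ)} (hf : ∀ x, x ∉ K → f x = 0) (n : ℤ) (x : X)
    (hx : x ∉ (h ^ n) '' K) : alpha h n (rc f) x = 0 := by
  rw [alpha_apply, rc_apply, hf, Complex.ofReal_zero]
  intro hK
  refine hx ⟨_, hK, ?_⟩
  rw [← Homeomorph.mul_apply, ← zpow_add, add_neg_cancel, zpow_zero, Homeomorph.one_apply]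

lemma norm_alpha_rc_le {f : C(X, ℝ)} (hf : ∀ x, 0 ≤ f x ∧ f x ≤ 1) (n : ℤ) :
    ‖alpha h n (rc f)‖ ≤ 1 := by
  rw [norm_alpha]
  exact norm_rc_le zero_le_one fun x => by rw [abs_of_nonneg (hf x).1]; exact (hf x).2

/-- First estimate in a covariant representation. -/
theorem CovRep.est1 (hp : p ≠ ∞) (ρ : CovRep h (Lp ℂ p μ)) (S : Finset ℤ) (ξ : ℤ → ℂ)
    (f : C(X, ℝ)) (hξ : ∀ n ∈ S, ‖ξ n‖ ≤ 1) (hf : ∀ x, 0 ≤ f x ∧ f x ≤ 1) (hsep : Sep h S f) :
    ‖∑ n ∈ S, ξ n • (vpow ρ.v n * ρ.π (rc f))‖ ≤ (S.card : ℝ) ^ (1 / p.toReal) := by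
  have hp0 := toReal_pos' hp
  obtain ⟨K, hK, hfK, hdis⟩ := hsep
  refine ContinuousLinearMap.opNorm_le_bound _ (by positivity) fun z => ?_
  have h1 : (∑ n ∈ S, ξ n • (vpow ρ.v n * ρ.π (rc f))) z =
      ∑ n ∈ S, ρ.π (alpha h n (rc f)) (ξ n • vpow ρ.v n z) := by
    rw [_root_.sum_apply]
    refine Finset.sum_congr rfl fun n _ => ?_
    rw [ρ.vpow_mul_π, _root_.smul_apply, mul_apply_eq_comp, map_smul]
  have h2 := ρ.toRep.norm_sum_rpow hp (fun n => (h ^ n) '' K)
    (fun n => (h ^ n).isClosedMap _ hK) S hdis (fun n => alpha h n (rc f))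
    (fun n _ x hx => alpha_eq_zero hfK n x hx) (fun n => ξ n • vpow ρ.v n z)
  rw [← h1] at h2
  have h3 : ‖(∑ n ∈ S, ξ n • (vpow ρ.v n * ρ.π (rc f))) z‖ ^ p.toReal ≤
      (S.card : ℝ) * ‖z‖ ^ p.toReal := by
    rw [h2]
    calc _ ≤ ∑ _n ∈ S, ‖z‖ ^ p.toReal := by
          refine Finset.sum_le_sum fun n hn => ?_
          refine Real.rpow_le_rpow (norm_nonneg _) ?_ hp0.le
          refine (ρ.toRep.norm_π_apply_le _ (norm_alpha_rc_le hf n) _).trans ?_
          rw [norm_smul, norm_vpow_apply]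
          have := hξ n hn
          nlinarith [norm_nonneg z]
      _ = _ := by rw [Finset.sum_const, nsmul_eq_mul]
  have h4 := Real.rpow_le_rpow (Real.rpow_nonneg (norm_nonneg _) _) h3
    (one_div_nonneg.mpr hp0.le)
  rw [← Real.rpow_mul (norm_nonneg _), mul_one_div_cancel hp0.ne', Real.rpow_one,
    Real.mul_rpow (by positivity) (by positivity), ← Real.rpow_mul (norm_nonneg _),
    mul_one_div_cancel hp0.ne', Real.rpow_one] at h4
  exact h4

/-- Second estimate in a covariant representation. -/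
theorem CovRep.est2 (hp : p ≠ ∞) (ρ : CovRep h (Lp ℂ p μ)) (S : Finset ℤ) (ξ : ℤ → ℂ)
    (f : C(X, ℝ)) (hξ : ∀ n ∈ S, ‖ξ n‖ ≤ 1) (hf : ∀ x, 0 ≤ f x ∧ f x ≤ 1) (hsep : Sep h S f) :
    ‖∑ n ∈ S, ξ n • (ρ.π (rc f) * vpow ρ.v (-n))‖ ≤ (S.card : ℝ) ^ (1 - 1 / p.toReal) := by
  classical
  have hp0 := toReal_pos' hp
  have hp1 : 1 ≤ p.toReal := toReal_ge_one hp
  obtain ⟨K, hK, hfK, hdis⟩ := hsep
  refine ContinuousLinearMap.opNorm_le_bound _ (by positivity) fun z => ?_
  set a : ℤ → ℝ := fun n => ‖ρ.π (alpha h n (rc f)) z‖ with ha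
  have h1 : ‖(∑ n ∈ S, ξ n • (ρ.π (rc f) * vpow ρ.v (-n))) z‖ ≤ ∑ n ∈ S, a n := by
    rw [_root_.sum_apply]
    refine (norm_sum_le _ _).trans (Finset.sum_le_sum fun n hn => ?_)
    have h2 : ρ.π (rc f) * vpow ρ.v (-n) = vpow ρ.v (-n) * ρ.π (alpha h n (rc f)) := by
      rw [ρ.vpow_mul_π, ← alpha_add, neg_add_cancel, alpha_zero]
    rw [_root_.smul_apply, h2, mul_apply_eq_comp, norm_smul, norm_vpow_apply]
    have := hξ n hn
    have h3 : 0 ≤ a n := norm_nonneg _
    change ‖ξ n‖ * a n ≤ a n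
    nlinarith
  have h2 := ρ.toRep.norm_sum_rpow hp (fun n => (h ^ n) '' K)
    (fun n => (h ^ n).isClosedMap _ hK) S hdis (fun n => alpha h n (rc f))
    (fun n _ x hx => alpha_eq_zero hfK n x hx) (fun _ => z)
  have h3 : ‖∑ n ∈ S, alpha h n (rc f)‖ ≤ 1 := by
    rw [ContinuousMap.norm_le _ zero_le_one]
    intro x
    rw [ContinuousMap.coe_sum, Finset.sum_apply]
    by_cases hall : ∀ n ∈ S, alpha h n (rc f) x = 0
    · rw [Finset.sum_eq_zero hall, norm_zero]; exact zero_le_one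
    · push Not at hall
      obtain ⟨n, hn, hne⟩ := hall
      rw [Finset.sum_eq_single_of_mem n hn]
      · exact (ContinuousMap.norm_coe_le_norm _ x).trans (norm_alpha_rc_le hf n)
      · intro m hm hmn
        have hxn : x ∈ (h ^ n) '' K := by
          by_contra hx
          exact hne (alpha_eq_zero hfK n x hx)
        refine alpha_eq_zero hfK m x fun hxm => ?_
        exact Set.disjoint_left.mp (hdis hm hn hmn) hxm hxn
  have h4 : ∑ n ∈ S, a n ^ p.toReal ≤ ‖z‖ ^ p.toReal := by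
    rw [ha]
    simp only
    rw [← h2]
    have h5 : ∑ n ∈ S, ρ.π (alpha h n (rc f)) z = ρ.π (∑ n ∈ S, alpha h n (rc f)) z := by
      rw [map_sum, _root_.sum_apply]
    rw [h5]
    exact Real.rpow_le_rpow (norm_nonneg _) (ρ.toRep.norm_π_apply_le _ h3 z) hp0.le
  have h5 := Real.rpow_sum_le_const_mul_sum_rpow S a hp1
  have h6 : (∑ n ∈ S, a n) ^ p.toReal ≤ (S.card : ℝ) ^ (p.toReal - 1) * ‖z‖ ^ p.toReal := by
    have e1 : ∑ n ∈ S, |a n| = ∑ n ∈ S, a n :=
      Finset.sum_congr rfl fun n _ => abs_of_nonneg (norm_nonneg _)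
    have e2 : ∑ n ∈ S, |a n| ^ p.toReal = ∑ n ∈ S, a n ^ p.toReal :=
      Finset.sum_congr rfl fun n _ => by rw [abs_of_nonneg (norm_nonneg _ : 0 ≤ a n)]
    rw [e1, e2] at h5
    refine h5.trans ?_
    gcongr
  have h7 := Real.rpow_le_rpow (Real.rpow_nonneg (Finset.sum_nonneg fun n _ => norm_nonneg _) _)
    h6 (one_div_nonneg.mpr hp0.le)
  rw [← Real.rpow_mul (Finset.sum_nonneg fun n _ => norm_nonneg _), mul_one_div_cancel hp0.ne',
    Real.rpow_one, Real.mul_rpow (by positivity) (by positivity),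
    ← Real.rpow_mul (norm_nonneg _), mul_one_div_cancel hp0.ne', Real.rpow_one,
    ← Real.rpow_mul (by positivity)] at h7
  have h8 : (p.toReal - 1) * (1 / p.toReal) = 1 - 1 / p.toReal := by field_simp
  rw [h8] at h7
  exact h1.trans h7

end Estimates

end Pool.Agent.Lib.MP_5d4768_an
end

section

set_option autoImplicit false
set_option linter.unusedSectionVars false

/-!
# Homomorphisms from the full crossed product give the data of the core theorem
-/

open scoped ENNReal Topology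
open Filter MeasureTheory

namespace Pool.Agent.Lib.MP_5d4768_an

section El

variable {X : Type*} [TopologicalSpace X] {h : X ≃ₜ X}

/-- The element `f u_n` of `C_c(ℤ, C(X), α)`. -/
noncomputable def el (h : X ≃ₜ X) (n : ℤ) (f : C(X, ℂ)) : Cc h :=
  SkewMonoidAlgebra.single (ZAct.ofInt h n) f

lemma el_mul (m n : ℤ) (f g : C(X, ℂ)) :
    el h m f * el h n g = el h (m + n) (f * alpha h m g) :=
  SkewMonoidAlgebra.single_mul_single

lemma el_add (n : ℤ) (f g : C(X, ℂ)) : el h n (f + g) = el h n f + el h n g :=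
  SkewMonoidAlgebra.single_add _ _ _

lemma el_smul (n : ℤ) (c : ℂ) (f : C(X, ℂ)) : el h n (c • f) = c • el h n f :=
  (SkewMonoidAlgebra.smul_single c _ f).symm

lemma el_zero_one : el h 0 1 = 1 := rfl

end El

variable {X : Type*} [MetricSpace X] [CompactSpace X] {h : X ≃ₜ X} {p : ℝ≥0∞} [Fact (1 ≤ p)]

lemma full_el_le (n : ℤ) (f : C(X, ℂ)) : fullSeminorm p h (el h n f) ≤ ‖f‖ := by
  refine (good_full (p := p) (h := h)).le_l1 _ |>.trans ?_
  rw [el, l1norm_single]

lemma integrated_sum {E : Type*} [NormedAddCommGroup E] [NormedSpace ℂ E] (ρ : CovRep h E)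
    {ι : Type*} (S : Finset ι) (F : ι → Cc h) :
    ρ.integrated (∑ n ∈ S, F n) = ∑ n ∈ S, ρ.integrated (F n) := by
  classical
  induction S using Finset.induction_on with
  | empty => simp [ρ.integrated_zero]
  | insert n S hn ih => rw [Finset.sum_insert hn, Finset.sum_insert hn, ρ.integrated_add, ih]

lemma full_est1 (hp : p ≠ ∞) (S : Finset ℤ) (ξ : ℤ → ℂ) (f : C(X, ℝ))
    (hξ : ∀ n ∈ S, ‖ξ n‖ ≤ 1) (hf : ∀ x, 0 ≤ f x ∧ f x ≤ 1) (hsep : Sep h S f) :
    fullSeminorm p h (∑ n ∈ S, ξ n • (el h n 1 * el h 0 (rc f))) ≤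
      (S.card : ℝ) ^ (1 / p.toReal) := by
  refine Real.iSup_le (fun i => ?_) (by positivity)
  let _ := i.mΩ
  change ‖i.ρ.integrated _‖ ≤ _
  rw [integrated_sum]
  refine le_trans (le_of_eq ?_) (i.ρ.est1 hp S ξ f hξ hf hsep)
  congr 1
  refine Finset.sum_congr rfl fun n _ => ?_
  rw [CovRep.integrated_smul, CovRep.integrated_mul, el, el, CovRep.integrated_single,
    CovRep.integrated_single, i.ρ.π_one, one_mul]
  change ξ n • (vpow i.ρ.v n * (i.ρ.π (rc f) * vpow i.ρ.v 0)) = _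
  rw [vpow_zero, mul_one]

lemma full_est2 (hp : p ≠ ∞) (S : Finset ℤ) (ξ : ℤ → ℂ) (f : C(X, ℝ))
    (hξ : ∀ n ∈ S, ‖ξ n‖ ≤ 1) (hf : ∀ x, 0 ≤ f x ∧ f x ≤ 1) (hsep : Sep h S f) :
    fullSeminorm p h (∑ n ∈ S, ξ n • (el h 0 (rc f) * el h (-n) 1)) ≤
      (S.card : ℝ) ^ (1 - 1 / p.toReal) := by
  refine Real.iSup_le (fun i => ?_) (by positivity)
  let _ := i.mΩ
  change ‖i.ρ.integrated _‖ ≤ _
  rw [integrated_sum]
  refine le_trans (le_of_eq ?_) (i.ρ.est2 hp S ξ f hξ hf hsep)
  congr 1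
  refine Finset.sum_congr rfl fun n _ => ?_
  rw [CovRep.integrated_smul, CovRep.integrated_mul, el, el, CovRep.integrated_single,
    CovRep.integrated_single, i.ρ.π_one, one_mul]
  change ξ n • ((i.ρ.π (rc f) * vpow i.ρ.v 0) * vpow i.ρ.v (-n)) = _
  rw [vpow_zero, mul_one]

section OfHom

variable {Y : Type*} [NormedAddCommGroup Y] [NormedSpace ℂ Y]

/-- A bounded linear map on the crossed product, as a linear map on `C_c(ℤ, C(X), α)`. -/
noncomputable def onCc (θ : Renorm (fullSeminorm p h) →L[ℂ] (Y →L[ℂ] Y)) :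
    Cc h →ₗ[ℂ] (Y →L[ℂ] Y) where
  toFun a := θ ⟨a⟩
  map_add' a b := map_add θ ⟨a⟩ ⟨b⟩
  map_smul' c a := map_smul θ c ⟨a⟩

lemma norm_onCc_le (θ : Renorm (fullSeminorm p h) →L[ℂ] (Y →L[ℂ] Y)) {C : ℝ}
    (hC : ∀ a, ‖θ a‖ ≤ C * ‖a‖) (a : Cc h) : ‖onCc θ a‖ ≤ C * fullSeminorm p h a := hC ⟨a⟩

/-- The data of the core theorem obtained from a bounded homomorphism. -/
noncomputable def Data.ofHom (hp : p ≠ ∞) (θ : Renorm (fullSeminorm p h) →L[ℂ] (Y →L[ℂ] Y))
    (hθ : ∀ a b, θ (a * b) = θ a * θ b) {C : ℝ} (hC0 : 0 < C) (hC : ∀ a, ‖θ a‖ ≤ C * ‖a‖) :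
    Data h Y C (1 / p.toReal) :=
  have hmul : ∀ a b : Cc h, onCc θ (a * b) = onCc θ a * onCc θ b := fun a b => hθ ⟨a⟩ ⟨b⟩
  have hn := norm_onCc_le θ hC
  { P :=
      { toFun := fun f => onCc θ (el h 0 f)
        map_add' := fun f g => by rw [el_add, map_add]
        map_smul' := fun c f => by rw [el_smul, map_smul, RingHom.id_apply] }
    P_mul := fun f g => by
      change onCc θ (el h 0 (f * g)) = onCc θ (el h 0 f) * onCc θ (el h 0 g)
      rw [← hmul, el_mul, alpha_zero, add_zero]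
    P_norm := fun f => (hn _).trans (mul_le_mul_of_nonneg_left (full_el_le 0 f) hC0.le)
    u := fun n => onCc θ (el h n 1)
    u_add := fun m n => by rw [← hmul, el_mul, alpha_one, mul_one]
    u_zero := rfl
    u_norm := fun n => by
      refine (hn _).trans ?_
      have h1 : fullSeminorm p h (el h n 1) ≤ 1 := by
        refine (full_el_le n 1).trans ?_
        rw [ContinuousMap.norm_le _ zero_le_one]
        intro x
        simp
      nlinarith
    comm := fun n f => by
      change onCc θ (el h n 1) * onCc θ (el h 0 f) = onCc θ (el h 0 (alpha h n f)) *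
        onCc θ (el h n 1)
      rw [← hmul, ← hmul, el_mul, el_mul, alpha_zero, one_mul, mul_one, add_zero, zero_add]
    E1 := fun S ξ f hξ hf hsep => by
      change ‖∑ n ∈ S, ξ n • (onCc θ (el h n 1) * onCc θ (el h 0 (rc f)))‖ ≤ _
      have h1 : ∑ n ∈ S, ξ n • (onCc θ (el h n 1) * onCc θ (el h 0 (rc f))) =
          onCc θ (∑ n ∈ S, ξ n • (el h n 1 * el h 0 (rc f))) := by
        rw [map_sum]
        refine Finset.sum_congr rfl fun n _ => ?_
        rw [map_smul, hmul]
      rw [h1]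
      exact (hn _).trans (mul_le_mul_of_nonneg_left (full_est1 hp S ξ f hξ hf hsep) hC0.le)
    E2 := fun S ξ f hξ hf hsep => by
      change ‖∑ n ∈ S, ξ n • (onCc θ (el h 0 (rc f)) * onCc θ (el h (-n) 1))‖ ≤ _
      have h1 : ∑ n ∈ S, ξ n • (onCc θ (el h 0 (rc f)) * onCc θ (el h (-n) 1)) =
          onCc θ (∑ n ∈ S, ξ n • (el h 0 (rc f) * el h (-n) 1)) := by
        rw [map_sum]
        refine Finset.sum_congr rfl fun n _ => ?_
        rw [map_smul, hmul]
      rw [h1]
      exact (hn _).trans (mul_le_mul_of_nonneg_left (full_est2 hp S ξ f hξ hf hsep) hC0.le) }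

lemma Data.ofHom_P_one (hp : p ≠ ∞) (θ : Renorm (fullSeminorm p h) →L[ℂ] (Y →L[ℂ] Y))
    (hθ : ∀ a b, θ (a * b) = θ a * θ b) {C : ℝ} (hC0 : 0 < C) (hC : ∀ a, ‖θ a‖ ≤ C * ‖a‖) :
    (Data.ofHom hp θ hθ hC0 hC).P 1 = θ 1 := rfl

end OfHom

section Dual

variable {X : Type*} [MetricSpace X] [CompactSpace X] {h : X ≃ₜ X}
variable {Y : Type*} [NormedAddCommGroup Y] [NormedSpace ℂ Y] {C κ : ℝ}

/-- The transpose of an operator. -/
noncomputable def transp : (Y →L[ℂ] Y) →ₗ[ℂ] ((Y →L[ℂ] ℂ) →L[ℂ] (Y →L[ℂ] ℂ)) where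
  toFun T := (ContinuousLinearMap.compL ℂ Y Y ℂ).flip T
  map_add' S T := map_add _ S T
  map_smul' c T := map_smul _ c T

lemma transp_apply (T : Y →L[ℂ] Y) (b : Y →L[ℂ] ℂ) : transp T b = b.comp T := rfl

lemma norm_transp_le (T : Y →L[ℂ] Y) : ‖transp T‖ ≤ ‖T‖ := by
  refine ContinuousLinearMap.opNorm_le_bound _ (norm_nonneg _) fun b => ?_
  rw [transp_apply, mul_comm]
  exact ContinuousLinearMap.opNorm_comp_le b T

lemma transp_mul (S T : Y →L[ℂ] Y) : transp (S * T) = transp T * transp S := rfl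

/-- Dualisation of the data. -/
noncomputable def Data.dual (d : Data h Y C κ) : Data h (Y →L[ℂ] ℂ) C (1 - κ) where
  P := transp ∘ₗ d.P
  P_mul f g := by
    change transp (d.P (f * g)) = transp (d.P f) * transp (d.P g)
    rw [mul_comm, d.P_mul, transp_mul]
  P_norm f := (norm_transp_le _).trans (d.P_norm f)
  u n := transp (d.u (-n))
  u_add m n := by
    rw [← transp_mul, ← d.u_add]
    congr 2
    ring
  u_zero := by
    rw [neg_zero, d.u_zero]
    rfl
  u_norm n := (norm_transp_le _).trans (d.u_norm _)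
  comm n f := by
    change transp (d.u (-n)) * transp (d.P f) = transp (d.P (tr h n f)) * transp (d.u (-n))
    rw [← transp_mul, ← transp_mul, d.comm]
    congr 3
    ext x
    rw [tr_apply, tr_apply, ← Homeomorph.mul_apply, ← zpow_add]
    simp
  E1 S ξ f hξ hf hsep := by
    change ‖∑ n ∈ S, ξ n • (transp (d.u (-n)) * transp (d.P (rc f)))‖ ≤ _
    have h1 : ∑ n ∈ S, ξ n • (transp (d.u (-n)) * transp (d.P (rc f))) =
        transp (∑ n ∈ S, ξ n • (d.P (rc f) * d.u (-n))) := by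
      rw [map_sum]
      refine Finset.sum_congr rfl fun n _ => ?_
      rw [map_smul, transp_mul]
    rw [h1]
    exact (norm_transp_le _).trans (d.E2 S ξ f hξ hf hsep)
  E2 S ξ f hξ hf hsep := by
    change ‖∑ n ∈ S, ξ n • (transp (d.P (rc f)) * transp (d.u (- -n)))‖ ≤ _
    have h1 : ∑ n ∈ S, ξ n • (transp (d.P (rc f)) * transp (d.u (- -n))) =
        transp (∑ n ∈ S, ξ n • (d.u n * d.P (rc f))) := by
      rw [map_sum]
      refine Finset.sum_congr rfl fun n _ => ?_
      rw [map_smul, transp_mul, neg_neg]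
    rw [h1]
    have h2 := d.E1 S ξ f hξ hf hsep
    rw [sub_sub_cancel]
    exact (norm_transp_le _).trans h2

lemma Data.dual_P (d : Data h Y C κ) (f : C(X, ℂ)) : d.dual.P f = transp (d.P f) := rfl

lemma eq_zero_of_transp {T : Y →L[ℂ] Y} (hT : transp T = 0) : T = 0 := by
  ext y
  by_contra hne
  have hne' : ‖T y‖ ≠ 0 := by simpa using hne
  obtain ⟨g, -, hg⟩ := exists_dual_vector ℂ (T y) hne'
  have h1 : transp T g = 0 := by rw [hT]; rfl
  have h2 : g (T y) = 0 := by
    have := congrArg (fun b : Y →L[ℂ] ℂ => b y) h1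
    exact this
  rw [h2] at hg
  exact hne' (RCLike.ofReal_eq_zero.mp hg.symm)

end Dual

end Pool.Agent.Lib.MP_5d4768_an
end

section

set_option autoImplicit false
set_option linter.unusedSectionVars false

/-!
# There are no nonzero continuous homomorphisms between crossed products for different exponents
-/

open scoped ENNReal Topology
open Filter MeasureTheory UniformSpace

namespace Pool.Agent.Lib.MP_5d4768_an

section Free

variable {X : Type*} [MetricSpace X]

lemma zpow_fixed {g : X ≃ₜ X} {x : X} (hx : g x = x) (j : ℤ) : (g ^ j) x = x := by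
  have hx' : g.symm x = x := by
    rw [Homeomorph.symm_apply_eq]; exact hx.symm
  induction j using Int.induction_on with
  | zero => simp
  | succ n ih => rw [zpow_add, zpow_one, Homeomorph.mul_apply, hx, ih]
  | pred n ih =>
    rw [zpow_sub, zpow_one, Homeomorph.mul_apply, Homeomorph.inv_apply, hx', ih]

/-- A minimal homeomorphism of an infinite space has no periodic points. -/
lemma free_of_minimal [Infinite X] {h : X ≃ₜ X} (hmin : IsMinimalHomeo h) (x : X) (n : ℤ)
    (hn : (h ^ n) x = x) : n = 0 := by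
  by_contra hne
  have hfin : (Set.range fun k : ℤ => (h ^ k) x).Finite := by
    refine ((Finset.Ico (0 : ℤ) |n|).finite_toSet.image fun k => (h ^ k) x).subset ?_
    rintro _ ⟨k, rfl⟩
    refine ⟨k % n, ?_, ?_⟩
    · rw [Finset.mem_coe, Finset.mem_Ico]
      exact ⟨Int.emod_nonneg k hne, Int.emod_lt_abs k hne⟩
    · have h1 : k = k % n + n * (k / n) := (Int.emod_add_mul_ediv k n).symm
      have h2 : (h ^ (n * (k / n))) x = x := by
        rw [zpow_mul]
        exact zpow_fixed hn _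
      simp only
      conv_rhs => rw [h1, zpow_add, Homeomorph.mul_apply, h2]
  have h1 : (Set.range fun k : ℤ => (h ^ k) x) = Set.univ := by
    have h2 := (hmin x).closure_eq
    rwa [hfin.isClosed.closure_eq] at h2
  rw [h1] at hfin
  exact Set.infinite_univ hfin

end Free

variable {X : Type*} [MetricSpace X] [CompactSpace X] {h : X ≃ₜ X}
variable {p₁ p₂ : ℝ≥0∞} [Fact (1 ≤ p₁)] [Fact (1 ≤ p₂)]

lemma inv_toReal_ne (hp₁ : p₁ ≠ ∞) (hp₂ : p₂ ≠ ∞) (hne : p₁ ≠ p₂) :
    1 / p₁.toReal ≠ 1 / p₂.toReal := by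
  intro h1
  rw [one_div, one_div, inv_inj] at h1
  exact hne ((ENNReal.toReal_eq_toReal_iff' hp₁ hp₂).mp h1)

/-- Bounded homomorphisms `F^{p₁}(ℤ, X, h) → B(ℓ^{p₂}(ℤ))` kill the unit. -/
theorem hom_one_eq_zero (hp₁ : p₁ ≠ ∞) (hp₂ : p₂ ≠ ∞) (hne : p₁ ≠ p₂)
    (hfree : ∀ (x : X) (n : ℤ), (h ^ n) x = x → n = 0)
    (θ : Renorm (fullSeminorm p₁ h) →L[ℂ] (LZ ℂ p₂ →L[ℂ] LZ ℂ p₂))
    (hθ : ∀ a b, θ (a * b) = θ a * θ b) : θ 1 = 0 := by
  set C : ℝ := max ‖θ‖ 1 with hCdef
  have hC0 : 0 < C := lt_of_lt_of_le one_pos (le_max_right _ _)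
  have hC : ∀ a, ‖θ a‖ ≤ C * ‖a‖ := fun a =>
    (θ.le_opNorm a).trans (mul_le_mul_of_nonneg_right (le_max_left _ _) (norm_nonneg _))
  let d := Data.ofHom hp₁ θ hθ hC0 hC
  have hκ := inv_toReal_ne hp₁ hp₂ hne
  rcases le_or_gt p₂ 2 with h2 | h2
  · exact d.P_one_eq_zero hC0 hfree h2 (LinearIsometry.id : LZ ℂ p₂ →ₗᵢ[ℂ] Ell ℤ p₂) hκ
  · -- the dual exponent
    have hr : 2 < p₂.toReal := by
      have := (ENNReal.toReal_lt_toReal (by simp) hp₂).mpr h2
      simpa using this
    have hconj : p₂.toReal.HolderConjugate (p₂.toReal / (p₂.toReal - 1)) :=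
      Real.HolderConjugate.conjExponent (by linarith)
    set q : ℝ≥0∞ := ENNReal.ofReal (p₂.toReal / (p₂.toReal - 1)) with hq
    have hqpos : 0 ≤ p₂.toReal / (p₂.toReal - 1) := hconj.symm.nonneg
    have hqr : q.toReal = p₂.toReal / (p₂.toReal - 1) := ENNReal.toReal_ofReal hqpos
    have hq1 : 1 ≤ p₂.toReal / (p₂.toReal - 1) := by
      rw [le_div_iff₀ (by linarith)]; linarith
    have hq2 : p₂.toReal / (p₂.toReal - 1) ≤ 2 := by
      rw [div_le_iff₀ (by linarith)]; linarith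
    have : Fact (1 ≤ q) := ⟨by
      rw [hq]
      exact ENNReal.one_le_ofReal.mpr hq1⟩
    have hqle : q ≤ 2 := by
      rw [hq]
      calc ENNReal.ofReal (p₂.toReal / (p₂.toReal - 1)) ≤ ENNReal.ofReal 2 :=
            ENNReal.ofReal_le_ofReal hq2
        _ = 2 := by simp
    have hpq : p₂.toReal.HolderConjugate q.toReal := by rw [hqr]; exact hconj
    have h3 : d.dual.P 1 = 0 := by
      refine d.dual.P_one_eq_zero hC0 hfree hqle (dualEmb hp₂ hpq) ?_
      intro h4
      apply hκ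
      have h5 : 1 / p₂.toReal + 1 / q.toReal = 1 := by
        have := hpq.inv_add_inv_eq_one
        simpa [one_div] using this
      linarith
    rw [Data.dual_P] at h3
    exact eq_zero_of_transp h3

section Final

variable {X₁ X₂ : Type*} [MetricSpace X₁] [CompactSpace X₁] [MetricSpace X₂] [CompactSpace X₂]
variable {h₁ : X₁ ≃ₜ X₁} {h₂ : X₂ ≃ₜ X₂}

theorem hom_full_eq_zero (hp₁ : p₁ ≠ ∞) (hp₂ : p₂ ≠ ∞) (hne : p₁ ≠ p₂)
    (hfree : ∀ (x : X₁) (n : ℤ), (h₁ ^ n) x = x → n = 0) :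
    OnlyZeroHom (FullAlg p₁ h₁) (FullAlg p₂ h₂) := by
  intro φ hφ
  have h1 : φ 1 = 0 := by
    refine full_eq_zero hp₂ _ fun x => ?_
    exact hom_one_eq_zero hp₁ hp₂ hne hfree
      (((extHom (lamFull p₂ h₂ hp₂ x)).comp φ).comp
        (Completion.toComplL : Renorm (fullSeminorm p₁ h₁) →L[ℂ] FullAlg p₁ h₁)) (fun a b => by
        change extHom (lamFull p₂ h₂ hp₂ x) (φ ((a * b : Renorm (fullSeminorm p₁ h₁)) :
          FullAlg p₁ h₁)) = _
        rw [Completion.coe_mul, hφ, extHom_mul _ (lamFull_mul hp₂ x)]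
        rfl)
  ext a
  calc φ a = φ (1 * a) := by rw [one_mul]
    _ = 0 := by rw [hφ, h1, zero_mul]

theorem hom_red_eq_zero (hp₁ : p₁ ≠ ∞) (hp₂ : p₂ ≠ ∞) (hne : p₁ ≠ p₂)
    (hfree : ∀ (x : X₁) (n : ℤ), (h₁ ^ n) x = x → n = 0) :
    OnlyZeroHom (FullAlg p₁ h₁) (RedAlg p₂ h₂) := by
  intro φ hφ
  have h1 : φ 1 = 0 := by
    refine red_eq_zero hp₂ _ fun x => ?_
    exact hom_one_eq_zero hp₁ hp₂ hne hfree
      (((extHom (lamRed p₂ h₂ hp₂ x)).comp φ).comp
        (Completion.toComplL : Renorm (fullSeminorm p₁ h₁) →L[ℂ] FullAlg p₁ h₁)) (fun a b => by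
        change extHom (lamRed p₂ h₂ hp₂ x) (φ ((a * b : Renorm (fullSeminorm p₁ h₁)) :
          FullAlg p₁ h₁)) = _
        rw [Completion.coe_mul, hφ, extHom_mul _ (lamRed_mul hp₂ x)]
        rfl)
  ext a
  calc φ a = φ (1 * a) := by rw [one_mul]
    _ = 0 := by rw [hφ, h1, zero_mul]

end Final

end Pool.Agent.Lib.MP_5d4768_an
end
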